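import Pool.Agent.Helper39.NS.Shear

set_option autoImplicit false

open MeasureTheory Real Set

namespace Pool.Agent.Helper39.NS

lemma norm_mul_cv_le {A : ℝ} {f g : E → ℂ} (hA : 0 ≤ A)
    (hf : ∀ ξ, (1 + ‖ξ‖) ^ 2 * ‖f ξ‖ ≤ A * om ξ)
    (hg : ∀ ξ, (1 + ‖ξ‖) ^ 2 * ‖g ξ‖ ≤ A * om ξ) (ξ : E) :
    ‖ξ‖ * ‖cv f g ξ‖ ≤ 2 * A ^ 2 * C0 * om ξ := by
  have w1 : ∀ {f : E → ℂ}, (∀ ξ, (1 + ‖ξ‖) ^ 2 * ‖f ξ‖ ≤ A * om ξ) → ∀ ξ,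
      ‖f ξ‖ ≤ A * om ξ ∧ ‖ξ‖ * ‖f ξ‖ ≤ A * om ξ := by
    intro f hf ξ
    have h := hf ξ
    have h0 := norm_nonneg ξ
    have h1 := norm_nonneg (f ξ)
    constructor
    · nlinarith [mul_nonneg h0 h1, mul_nonneg (mul_nonneg h0 h0) h1]
    · nlinarith [mul_nonneg h0 h1, mul_nonneg (mul_nonneg h0 h0) h1]
  have hint := (integrable_om_mul ξ).const_mul (2 * A ^ 2)
  have key : ∀ η, ‖(‖ξ‖ : ℝ) • (f (ξ - η) * g η)‖ ≤ (2 * A ^ 2) * (om (ξ - η) * om η) := by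
    intro η
    rw [norm_smul, norm_mul, Real.norm_of_nonneg (norm_nonneg _)]
    have htri : ‖ξ‖ ≤ ‖ξ - η‖ + ‖η‖ := by
      calc ‖ξ‖ = ‖(ξ - η) + η‖ := by simp
        _ ≤ _ := norm_add_le _ _
    obtain ⟨a1, a2⟩ := w1 hf (ξ - η)
    obtain ⟨b1, b2⟩ := w1 hg η
    have hf0 := norm_nonneg (f (ξ - η))
    have hg0 := norm_nonneg (g η)
    have o1 := om_pos (ξ - η)
    have o2 := om_pos η
    calc ‖ξ‖ * (‖f (ξ - η)‖ * ‖g η‖) ≤ (‖ξ - η‖ + ‖η‖) * (‖f (ξ - η)‖ * ‖g η‖) := by gcongr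
      _ = (‖ξ - η‖ * ‖f (ξ - η)‖) * ‖g η‖ + ‖f (ξ - η)‖ * (‖η‖ * ‖g η‖) := by ring
      _ ≤ (A * om (ξ - η)) * (A * om η) + (A * om (ξ - η)) * (A * om η) := by
          gcongr
      _ = _ := by ring
  calc ‖ξ‖ * ‖cv f g ξ‖ = ‖∫ η, (‖ξ‖ : ℝ) • (f (ξ - η) * g η)‖ := by
        rw [integral_smul, norm_smul, Real.norm_of_nonneg (norm_nonneg _)]; rfl
    _ ≤ ∫ η, (2 * A ^ 2) * (om (ξ - η) * om η) :=
        norm_integral_le_of_norm_le hint (Filter.Eventually.of_forall key)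
    _ = (2 * A ^ 2) * ∫ η, (om (ξ - η) * om η) := integral_const_mul _ _
    _ ≤ (2 * A ^ 2) * (C0 * om ξ) :=
        mul_le_mul_of_nonneg_left (integral_om_conv_le ξ) (by positivity)
    _ = _ := by ring

lemma norm_sy_Dg_le {σ : ℝ} (hσ : 0 ≤ σ) {k : Fin 3} (hk : k ≠ 0) (ξ : E) :
    ‖sy (Dg σ) k ξ‖ ≤ 2 * π * σ * ‖ξ‖ := by
  have habs : |ξ k| ≤ ‖ξ‖ := by simpa using PiLp.norm_apply_le ξ k
  have e : (Dg σ ξ) k = σ * ξ k := by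
    fin_cases k
    · exact absurd rfl hk
    · rfl
    · rfl
  unfold sy
  have := Real.pi_pos
  have e2 : -2 * π * (σ * ξ k) = -(2 * π * (σ * ξ k)) := by ring
  rw [norm_mul, Complex.norm_I, mul_one, Complex.norm_real, e, e2, norm_neg, Real.norm_eq_abs,
    abs_mul, abs_mul σ, abs_of_nonneg hσ, abs_of_nonneg (by positivity : (0:ℝ) ≤ 2 * π)]
  calc 2 * π * (σ * |ξ k|) ≤ 2 * π * (σ * ‖ξ‖) := by gcongr
    _ = _ := by ring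

variable {h : ℝ → ℂ}

lemma UU_bound {A : ℝ} (hA : ∀ i ξ, (1 + ‖ξ‖) ^ 2 * ‖V0 h i ξ‖ ≤ A * om ξ) (σ : ℝ) (i : Fin 3)
    (s : ℝ) (ξ : E) : (1 + ‖ξ‖) ^ 2 * ‖UU (Dg σ) (V0 h) i s ξ‖ ≤ A * om ξ := by
  unfold UU
  rw [norm_mul, Complex.norm_real, Real.norm_of_nonneg (Real.exp_pos _).le]
  have h1 := exp_neg_la_le_one (D := Dg σ) ξ s
  have h2 := hA i ξ
  have h3 : 0 ≤ (1 + ‖ξ‖) ^ 2 * ‖V0 h i ξ‖ := by positivity
  calc _ = Real.exp (-(la (Dg σ) ξ * cl s)) * ((1 + ‖ξ‖) ^ 2 * ‖V0 h i ξ‖) := by ring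
    _ ≤ 1 * ((1 + ‖ξ‖) ^ 2 * ‖V0 h i ξ‖) := by gcongr
    _ ≤ _ := by rw [one_mul]; exact h2

lemma V0_le {A : ℝ} (hA : ∀ i ξ, (1 + ‖ξ‖) ^ 2 * ‖V0 h i ξ‖ ≤ A * om ξ) (i : Fin 3) (ξ : E) :
    ‖V0 h i ξ‖ ≤ A * om ξ := by
  have h1 := hA i ξ
  have h0 := norm_nonneg ξ
  have h2 := norm_nonneg (V0 h i ξ)
  nlinarith [mul_nonneg h0 h2, mul_nonneg (mul_nonneg h0 h0) h2]

lemma dataV0 (hg : Good h) {A lam : ℝ} (hA0 : 0 ≤ A)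
    (hA : ∀ i ξ, (1 + ‖ξ‖) ^ 2 * ‖V0 h i ξ‖ ≤ A * om ξ) (hl : 0 < lam) (σ : ℝ) :
    Data (Dg σ) (V0 h) A lam where
  cont := continuous_V0 hg
  bound := V0_le hA
  A_nonneg := hA0
  lam_pos := hl
  symm := V0_symm hg

/-- the source term is `O(σ)` -/
lemma source_bound {A : ℝ} (hA0 : 0 ≤ A)
    (hA : ∀ i ξ, (1 + ‖ξ‖) ^ 2 * ‖V0 h i ξ‖ ≤ A * om ξ) {σ : ℝ} (hσ : 0 ≤ σ) (i : Fin 3)
    (s : ℝ) (ξ : E) :
    ‖NN (Dg σ) (UU (Dg σ) (V0 h)) (UU (Dg σ) (V0 h)) i s ξ‖ ≤ (72 * π * A ^ 2 * C0 * σ) * om ξ := by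
  have hC := C0_nonneg
  have ho := om_pos ξ
  have hterm : ∀ j k : Fin 3, ‖lr (Dg σ) i j k ξ * cv (UU (Dg σ) (V0 h) k s)
      (UU (Dg σ) (V0 h) j s) ξ‖ ≤ 8 * π * A ^ 2 * C0 * σ * om ξ := by
    intro j k
    by_cases hk : k = 0
    · subst hk
      have : cv (UU (Dg σ) (V0 h) 0 s) (UU (Dg σ) (V0 h) j s) ξ = 0 := by
        unfold cv UU
        simp [V0_zero]
      rw [this, mul_zero, norm_zero]
      positivity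
    · have h1 := norm_mul_cv_le hA0 (fun ξ => UU_bound hA σ k s ξ)
        (fun ξ => UU_bound hA σ j s ξ) ξ
      have h2 := norm_sy_Dg_le hσ hk ξ
      have h3 := abs_pr_le (D := Dg σ) i j ξ
      unfold lr
      rw [norm_mul, norm_mul, norm_neg, Complex.norm_real, Real.norm_eq_abs]
      have hpi := Real.pi_pos
      calc |pr (Dg σ) i j ξ| * ‖sy (Dg σ) k ξ‖ *
            ‖cv (UU (Dg σ) (V0 h) k s) (UU (Dg σ) (V0 h) j s) ξ‖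
          ≤ 2 * (2 * π * σ * ‖ξ‖) * ‖cv (UU (Dg σ) (V0 h) k s) (UU (Dg σ) (V0 h) j s) ξ‖ := by
            gcongr
        _ = 4 * π * σ * (‖ξ‖ * ‖cv (UU (Dg σ) (V0 h) k s) (UU (Dg σ) (V0 h) j s) ξ‖) := by ring
        _ ≤ 4 * π * σ * (2 * A ^ 2 * C0 * om ξ) := by gcongr
        _ = _ := by ring
  unfold NN
  calc _ ≤ ∑ j : Fin 3, ∑ k : Fin 3, 8 * π * A ^ 2 * C0 * σ * om ξ := by
        refine (norm_sum_le _ _).trans (Finset.sum_le_sum fun j _ => ?_)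
        exact (norm_sum_le _ _).trans (Finset.sum_le_sum fun k _ => hterm j k)
    _ = _ := by simp; ring

/-- existence of exact solutions near the slowly modulated shear flow -/
theorem exists_mild (hg : Good h) {η : ℝ} (hη : 0 < η) :
    ∃ σ₀ : ℝ, 0 < σ₀ ∧ ∀ σ, 0 < σ → σ ≤ σ₀ → ∃ (F : Fin 3 → ℝ → E → ℂ) (B : ℝ),
      Mild (Dg σ) (V0 h) F B ∧ ∀ i s ξ, ‖F i s ξ - UU (Dg σ) (V0 h) i s ξ‖ ≤ η * om ξ := by
  obtain ⟨A, hA0, hA⟩ := V0_bound hg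
  have hC := C0_nonneg
  have hpi := Real.pi_pos
  set q := 36 * C0 * (A + 1) + 1 with hq
  have hq1 : 1 ≤ q := by
    have : 0 ≤ 36 * C0 * (A + 1) := by positivity
    linarith
  set lam := q ^ 2 with hlam
  have hlam0 : 0 < lam := by positivity
  have hsqrt : √lam = q := by rw [hlam, Real.sqrt_sq (by linarith)]
  set r := Real.exp (-lam) * min 1 η with hr
  have hmin : 0 < min 1 η := lt_min one_pos hη
  have hr0 : 0 < r := by positivity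
  have her : Real.exp lam * r = min 1 η := by
    rw [hr, ← mul_assoc, ← Real.exp_add]; simp
  refine ⟨r / (2 * (72 * π * A ^ 2 * C0 + 1)), by positivity, fun σ hσ0 hσ => ?_⟩
  have hd := dataV0 hg hA0 hA hlam0 σ
  have hquot : 72 * π * C0 * (A + 1) / (4 * π * √lam) ≤ 1 / 2 := by
    rw [hsqrt, div_le_div_iff₀ (by positivity) (by norm_num)]
    nlinarith
  have hS : 72 * π * A ^ 2 * C0 * σ ≤ r / 2 := by
    have h1 : 0 ≤ 72 * π * A ^ 2 * C0 := by positivity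
    rw [le_div_iff₀ (by positivity)] at hσ
    nlinarith
  obtain ⟨y, hy, hyr, hfix⟩ := exists_correction hd hr0 (by rw [her]; exact min_le_left _ _) hquot
    (fun i s _ ξ => source_bound hA0 hA hσ0.le i s ξ) hS
  refine ⟨FF (Dg σ) (V0 h) lam y, A + Real.exp lam * ‖y‖, ?_, ?_⟩
  · refine ⟨continuous_FF hd y, by positivity, norm_FF_le hd y,
      fun i s ξ => FF_conj hd hyr i s ξ, ?_, div_V0 σ⟩
    intro i τ hτ ξ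
    have := hfix i τ hτ ξ
    unfold FF
    rw [this]
    unfold UU QQ
    rw [cl_of_mem hτ]
    rfl
  · intro i s ξ
    have e : FF (Dg σ) (V0 h) lam y i s ξ - UU (Dg σ) (V0 h) i s ξ = ZZ lam y i s ξ := by
      unfold FF; ring
    rw [e]
    refine (norm_ZZ_le' hlam0 y i s ξ).trans ?_
    apply mul_le_mul_of_nonneg_right _ (om_pos ξ).le
    calc Real.exp lam * ‖y‖ ≤ Real.exp lam * r := by gcongr
      _ = min 1 η := her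
      _ ≤ η := min_le_right _ _

/-! ### limit of the linear part -/

lemma norm_exp_I_sub_le (a b : ℝ) :
    ‖Complex.exp ((a : ℂ) * Complex.I) - Complex.exp ((b : ℂ) * Complex.I)‖ ≤ |a - b| := by
  have h : Complex.exp ((a : ℂ) * Complex.I) - Complex.exp ((b : ℂ) * Complex.I)
      = Complex.exp ((b : ℂ) * Complex.I) * (Complex.exp (((a - b : ℝ) : ℂ) * Complex.I) - 1) := by
    rw [mul_sub, ← Complex.exp_add]
    push_cast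
    ring_nf
  rw [h, norm_mul, Complex.norm_exp_ofReal_mul_I, one_mul]
  have := Real.norm_exp_I_mul_ofReal_sub_one_le (x := a - b)
  rw [mul_comm] at this
  simpa using this

lemma abs_exp_neg_sub_le {a b : ℝ} (ha : 0 ≤ a) (hb : 0 ≤ b) :
    |Real.exp (-a) - Real.exp (-b)| ≤ |a - b| := by
  wlog hab : a ≤ b generalizing a b
  · rw [abs_sub_comm, abs_sub_comm a b]
    exact this hb ha (le_of_not_ge hab)
  have h1 : Real.exp (-b) ≤ Real.exp (-a) := Real.exp_le_exp.mpr (by linarith)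
  rw [abs_of_nonneg (by linarith), abs_of_nonpos (by linarith)]
  have h2 : Real.exp (-b) = Real.exp (-a) * Real.exp (-(b - a)) := by
    rw [← Real.exp_add]; ring_nf
  have h3 : 1 - (b - a) ≤ Real.exp (-(b - a)) := by
    have := Real.add_one_le_exp (-(b - a)); linarith
  have h4 : Real.exp (-a) ≤ 1 := by rw [Real.exp_le_one_iff]; linarith
  have h5 := Real.exp_pos (-a)
  rw [h2]
  nlinarith

lemma norm_ek_exp_sub_le {σ τ : ℝ} (hσ : 0 ≤ σ) (hσ1 : σ ≤ 1) (hτ : 0 ≤ τ) (hτ1 : τ ≤ 1) (x ξ : E) :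
    ‖ek (Dg σ) x ξ * ((Real.exp (-(la (Dg σ) ξ * τ)) : ℝ) : ℂ)
      - ek (Dg 0) x ξ * ((Real.exp (-(la (Dg 0) ξ * τ)) : ℝ) : ℂ)‖
      ≤ σ * (2 * π * ‖x‖ + 4 * π ^ 2) * (1 + ‖ξ‖) ^ 2 := by
  have hpi := Real.pi_pos
  have hx0 := norm_nonneg x
  have hξ0 := norm_nonneg ξ
  have hin : ∀ σ : ℝ, inner ℝ x (Dg σ ξ) = x 0 * ξ 0 + σ * (x 1 * ξ 1 + x 2 * ξ 2) := by
    intro σ
    rw [PiLp.inner_apply, Fin.sum_univ_three]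
    simp only [Dg_zero, Dg_one, Dg_two, RCLike.inner_apply, conj_trivial]
    ring
  have hla : ∀ σ : ℝ, la (Dg σ) ξ = 4 * π ^ 2 * (ξ 0 ^ 2 + σ ^ 2 * (ξ 1 ^ 2 + ξ 2 ^ 2)) := by
    intro σ
    unfold la
    rw [norm_sq_three, Dg_zero, Dg_one, Dg_two]
    ring
  have hcs : |x 1 * ξ 1 + x 2 * ξ 2| ≤ ‖x‖ * ‖ξ‖ := by
    rw [← sq_le_sq₀ (abs_nonneg _) (by positivity), sq_abs, mul_pow, norm_sq_three, norm_sq_three]
    nlinarith [sq_nonneg (x 1 * ξ 2 - x 2 * ξ 1), sq_nonneg (x 0 * ξ 0), sq_nonneg (x 0 * ξ 1),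
      sq_nonneg (x 0 * ξ 2), sq_nonneg (x 1 * ξ 0), sq_nonneg (x 2 * ξ 0)]
  have h1 : ‖ek (Dg σ) x ξ - ek (Dg 0) x ξ‖ ≤ 2 * π * σ * (‖x‖ * ‖ξ‖) := by
    unfold ek
    refine (norm_exp_I_sub_le _ _).trans ?_
    rw [hin, hin]
    have : -2 * π * (x 0 * ξ 0 + σ * (x 1 * ξ 1 + x 2 * ξ 2)) -
        -2 * π * (x 0 * ξ 0 + 0 * (x 1 * ξ 1 + x 2 * ξ 2))
        = -(2 * π * σ * (x 1 * ξ 1 + x 2 * ξ 2)) := by ring
    rw [this, abs_neg, abs_mul, abs_of_nonneg (by positivity : (0:ℝ) ≤ 2 * π * σ)]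
    gcongr
  have h2 : |Real.exp (-(la (Dg σ) ξ * τ)) - Real.exp (-(la (Dg 0) ξ * τ))|
      ≤ 4 * π ^ 2 * σ * ‖ξ‖ ^ 2 := by
    refine (abs_exp_neg_sub_le (mul_nonneg (la_nonneg ξ) hτ) (mul_nonneg (la_nonneg ξ) hτ)).trans ?_
    rw [hla, hla]
    have : 4 * π ^ 2 * (ξ 0 ^ 2 + σ ^ 2 * (ξ 1 ^ 2 + ξ 2 ^ 2)) * τ -
        4 * π ^ 2 * (ξ 0 ^ 2 + 0 ^ 2 * (ξ 1 ^ 2 + ξ 2 ^ 2)) * τ
        = 4 * π ^ 2 * (σ ^ 2 * (ξ 1 ^ 2 + ξ 2 ^ 2) * τ) := by ring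
    rw [this, abs_of_nonneg (by positivity)]
    have h3 : σ ^ 2 * (ξ 1 ^ 2 + ξ 2 ^ 2) * τ ≤ σ * ‖ξ‖ ^ 2 := by
      rw [norm_sq_three]
      have e1 : σ ^ 2 ≤ σ := by nlinarith
      calc σ ^ 2 * (ξ 1 ^ 2 + ξ 2 ^ 2) * τ ≤ σ * (ξ 1 ^ 2 + ξ 2 ^ 2) * 1 := by gcongr
        _ ≤ _ := by nlinarith [sq_nonneg (ξ 0)]
    calc 4 * π ^ 2 * (σ ^ 2 * (ξ 1 ^ 2 + ξ 2 ^ 2) * τ) ≤ 4 * π ^ 2 * (σ * ‖ξ‖ ^ 2) := by gcongr
      _ = _ := by ring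
  set a := ek (Dg σ) x ξ
  set b := ek (Dg 0) x ξ
  set c := Real.exp (-(la (Dg σ) ξ * τ)) with hc
  set d := Real.exp (-(la (Dg 0) ξ * τ)) with hd
  have hc1 : |c| ≤ 1 := by
    rw [hc, abs_of_pos (Real.exp_pos _), Real.exp_le_one_iff]
    have := mul_nonneg (la_nonneg (D := Dg σ) ξ) hτ; linarith
  have e : a * ((c : ℝ) : ℂ) - b * ((d : ℝ) : ℂ) = (a - b) * (c : ℂ) + b * (((c - d : ℝ)) : ℂ) := by
    push_cast; ring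
  rw [e]
  calc ‖(a - b) * (c : ℂ) + b * (((c - d : ℝ)) : ℂ)‖
      ≤ ‖a - b‖ * |c| + ‖b‖ * |c - d| := by
        refine (norm_add_le _ _).trans ?_
        rw [norm_mul, norm_mul, Complex.norm_real, Complex.norm_real, Real.norm_eq_abs,
          Real.norm_eq_abs]
    _ ≤ (2 * π * σ * (‖x‖ * ‖ξ‖)) * 1 + 1 * (4 * π ^ 2 * σ * ‖ξ‖ ^ 2) := by
        have hb1 : ‖b‖ = 1 := norm_ek x ξ
        rw [hb1]
        gcongr
    _ = σ * (2 * π * ‖x‖ * ‖ξ‖ + 4 * π ^ 2 * ‖ξ‖ ^ 2) := by ring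
    _ ≤ σ * (2 * π * ‖x‖ + 4 * π ^ 2) * (1 + ‖ξ‖) ^ 2 := by
        rw [mul_assoc σ]
        apply mul_le_mul_of_nonneg_left _ hσ
        have e1 : ‖ξ‖ ≤ (1 + ‖ξ‖) ^ 2 := by nlinarith
        have e2 : ‖ξ‖ ^ 2 ≤ (1 + ‖ξ‖) ^ 2 := by nlinarith
        calc 2 * π * ‖x‖ * ‖ξ‖ + 4 * π ^ 2 * ‖ξ‖ ^ 2
            ≤ 2 * π * ‖x‖ * (1 + ‖ξ‖) ^ 2 + 4 * π ^ 2 * (1 + ‖ξ‖) ^ 2 := by gcongr
          _ = _ := by ring

/-- one dimensional caloric function attached to a profile -/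
noncomputable def w1 (h : ℝ → ℂ) (τ x : ℝ) : ℂ :=
  ∫ s : ℝ, Complex.exp (((-2 * π * (x * s) : ℝ) : ℂ) * Complex.I) *
    ((Real.exp (-(4 * π ^ 2 * s ^ 2 * τ)) : ℝ) : ℂ) * h s

lemma integral_odd_gs : ∫ s : ℝ, ((s * gs s : ℝ) : ℂ) = 0 := by
  have h := integral_neg_eq_self (fun s : ℝ => ((s * gs s : ℝ) : ℂ)) volume
  have e : (fun s : ℝ => ((-s * gs (-s) : ℝ) : ℂ)) = fun s : ℝ => -((s * gs s : ℝ) : ℂ) := by
    funext s; rw [gs_neg]; push_cast; ring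
  have h2 : ∫ s : ℝ, ((-s * gs (-s) : ℝ) : ℂ) = ∫ s : ℝ, ((s * gs s : ℝ) : ℂ) := h
  rw [e, integral_neg] at h2
  have := h2
  have h3 : (2:ℂ) * ∫ s : ℝ, ((s * gs s : ℝ) : ℂ) = 0 := by linear_combination (-1:ℂ) * this
  simpa using h3

lemma II_limit (h : ℝ → ℂ) {τ : ℝ} (hτ : τ ∈ Icc (0:ℝ) 1) (x : E) (i : Fin 3) :
    II (Dg 0) (UU (Dg 0) (V0 h) i) (τ, x) = ![0, 0, w1 h τ (x 0)] i := by
  have hin : ∀ ξ : E, inner ℝ x (Dg 0 ξ) = x 0 * ξ 0 := by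
    intro ξ
    rw [PiLp.inner_apply, Fin.sum_univ_three]
    simp only [Dg_zero, Dg_one, Dg_two, RCLike.inner_apply, conj_trivial]
    ring
  have hla : ∀ ξ : E, la (Dg 0) ξ = 4 * π ^ 2 * ξ 0 ^ 2 := by
    intro ξ
    unfold la
    rw [norm_sq_three, Dg_zero, Dg_one, Dg_two]
    ring
  have hcl := cl_of_mem hτ
  unfold II UU ek
  simp only [hin, hla, hcl]
  fin_cases i
  · simp [V0_zero]
  · change ∫ ξ : E, Complex.exp (((-2 * π * (x 0 * ξ 0) : ℝ) : ℂ) * Complex.I) *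
      (((Real.exp (-(4 * π ^ 2 * ξ 0 ^ 2 * τ)) : ℝ) : ℂ) * V0 h 1 ξ) = 0
    have e : ∀ ξ : E, Complex.exp (((-2 * π * (x 0 * ξ 0) : ℝ) : ℂ) * Complex.I) *
      (((Real.exp (-(4 * π ^ 2 * ξ 0 ^ 2 * τ)) : ℝ) : ℂ) * V0 h 1 ξ)
      = (fun s : ℝ => -(((c0 * c2)⁻¹ : ℝ) : ℂ) * (Complex.exp (((-2 * π * (x 0 * s) : ℝ) : ℂ) * Complex.I) *
          ((Real.exp (-(4 * π ^ 2 * s ^ 2 * τ)) : ℝ) : ℂ) * h s)) (ξ 0) *
        (fun s : ℝ => ((s * gs s : ℝ) : ℂ)) (ξ 1) * (fun s : ℝ => ((s * gs s : ℝ) : ℂ)) (ξ 2) := by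
      intro ξ
      rw [V0_one]
      ring
    refine (integral_congr_ae (Filter.Eventually.of_forall e)).trans ?_
    refine (integral_prod3 (𝕜 := ℂ) (fun s : ℝ => -(((c0 * c2)⁻¹ : ℝ) : ℂ) *
      (Complex.exp (((-2 * π * (x 0 * s) : ℝ) : ℂ) * Complex.I) *
          ((Real.exp (-(4 * π ^ 2 * s ^ 2 * τ)) : ℝ) : ℂ) * h s))
      (fun s : ℝ => ((s * gs s : ℝ) : ℂ)) (fun s : ℝ => ((s * gs s : ℝ) : ℂ))).trans ?_
    rw [integral_odd_gs]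
    simp
  · change ∫ ξ : E, Complex.exp (((-2 * π * (x 0 * ξ 0) : ℝ) : ℂ) * Complex.I) *
      (((Real.exp (-(4 * π ^ 2 * ξ 0 ^ 2 * τ)) : ℝ) : ℂ) * V0 h 2 ξ) = w1 h τ (x 0)
    have e : ∀ ξ : E, Complex.exp (((-2 * π * (x 0 * ξ 0) : ℝ) : ℂ) * Complex.I) *
      (((Real.exp (-(4 * π ^ 2 * ξ 0 ^ 2 * τ)) : ℝ) : ℂ) * V0 h 2 ξ)
      = (fun s : ℝ => (((c0 * c2)⁻¹ : ℝ) : ℂ) * (Complex.exp (((-2 * π * (x 0 * s) : ℝ) : ℂ) * Complex.I) *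
          ((Real.exp (-(4 * π ^ 2 * s ^ 2 * τ)) : ℝ) : ℂ) * h s)) (ξ 0) *
        (fun s : ℝ => ((s ^ 2 * gs s : ℝ) : ℂ)) (ξ 1) * (fun s : ℝ => ((gs s : ℝ) : ℂ)) (ξ 2) := by
      intro ξ
      rw [V0_two]
      ring
    refine (integral_congr_ae (Filter.Eventually.of_forall e)).trans ?_
    refine (integral_prod3 (𝕜 := ℂ) (fun s : ℝ => (((c0 * c2)⁻¹ : ℝ) : ℂ) *
      (Complex.exp (((-2 * π * (x 0 * s) : ℝ) : ℂ) * Complex.I) *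
          ((Real.exp (-(4 * π ^ 2 * s ^ 2 * τ)) : ℝ) : ℂ) * h s))
      (fun s : ℝ => ((s ^ 2 * gs s : ℝ) : ℂ)) (fun s : ℝ => ((gs s : ℝ) : ℂ))).trans ?_
    rw [integral_const_mul, integral_complex_ofReal, integral_complex_ofReal]
    change (((c0 * c2)⁻¹ : ℝ) : ℂ) * w1 h τ (x 0) * (c2 : ℂ) * (c0 : ℂ) = w1 h τ (x 0)
    have h0 : (c0 : ℂ) ≠ 0 := by exact_mod_cast c0_pos.ne'
    have h2 : (c2 : ℂ) ≠ 0 := by exact_mod_cast c2_pos.ne'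
    push_cast
    field_simp

end Pool.Agent.Helper39.NS
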