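import Pool.Agent.Helper39.NS.Weight

set_option autoImplicit false

open MeasureTheory Real Set

namespace Pool.Agent.Helper39.NS

/-- plain convolution of complex functions on frequency space -/
noncomputable def cv (f g : E → ℂ) (ξ : E) : ℂ := ∫ η, f (ξ - η) * g η

section omb

lemma norm_mul_le_om {A B : ℝ} {f g : E → ℂ} (hf : ∀ ξ, ‖f ξ‖ ≤ A * om ξ)
    (hg : ∀ ξ, ‖g ξ‖ ≤ B * om ξ) (ξ η : E) :
    ‖f (ξ - η) * g η‖ ≤ (A * B) * (om (ξ - η) * om η) := by
  rw [norm_mul]
  calc ‖f (ξ - η)‖ * ‖g η‖ ≤ (A * om (ξ - η)) * (B * om η) :=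
        mul_le_mul (hf _) (hg _) (norm_nonneg _) ((norm_nonneg _).trans (hf _))
    _ = _ := by ring

lemma integrable_om_mul (ξ : E) : Integrable fun η => om (ξ - η) * om η := by
  refine integrable_om.mono' ?_ (Filter.Eventually.of_forall fun η => ?_)
  · exact ((continuous_om.comp (by fun_prop)).mul continuous_om).aestronglyMeasurable
  · rw [Real.norm_of_nonneg (by have := om_pos (ξ - η); have := om_pos η; positivity)]
    have := om_pos η
    have := om_le_one (ξ - η)
    nlinarith

lemma cv_integrable {A B : ℝ} {f g : E → ℂ} (hfc : Continuous f) (hgc : Continuous g)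
    (hf : ∀ ξ, ‖f ξ‖ ≤ A * om ξ) (hg : ∀ ξ, ‖g ξ‖ ≤ B * om ξ) (ξ : E) :
    Integrable fun η => f (ξ - η) * g η := by
  refine ((integrable_om_mul ξ).const_mul (A * B)).mono' ?_
    (Filter.Eventually.of_forall fun η => norm_mul_le_om hf hg ξ η)
  exact ((hfc.comp (by fun_prop)).mul hgc).aestronglyMeasurable

lemma norm_cv_le {A B : ℝ} {f g : E → ℂ} (hA : 0 ≤ A) (hB : 0 ≤ B)
    (hf : ∀ ξ, ‖f ξ‖ ≤ A * om ξ)
    (hg : ∀ ξ, ‖g ξ‖ ≤ B * om ξ) (ξ : E) :
    ‖cv f g ξ‖ ≤ A * B * C0 * om ξ := by
  unfold cv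
  calc ‖∫ η, f (ξ - η) * g η‖ ≤ ∫ η, (A * B) * (om (ξ - η) * om η) :=
        norm_integral_le_of_norm_le ((integrable_om_mul ξ).const_mul _)
          (Filter.Eventually.of_forall fun η => norm_mul_le_om hf hg ξ η)
    _ = (A * B) * ∫ η, (om (ξ - η) * om η) := integral_const_mul _ _
    _ ≤ (A * B) * (C0 * om ξ) := by
        apply mul_le_mul_of_nonneg_left (integral_om_conv_le ξ) (by positivity)
    _ = _ := by ring

lemma continuous_cv {T : Type*} [TopologicalSpace T] [FirstCountableTopology T]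
    {A B : ℝ} (hA : 0 ≤ A) (hB : 0 ≤ B) {F G : T → E → ℂ}
    (hF : Continuous (Function.uncurry F)) (hG : Continuous (Function.uncurry G))
    (hf : ∀ t ξ, ‖F t ξ‖ ≤ A * om ξ) (hg : ∀ t ξ, ‖G t ξ‖ ≤ B * om ξ) :
    Continuous (fun p : T × E => cv (F p.1) (G p.1) p.2) := by
  unfold cv
  refine continuous_of_dominated (bound := fun η => A * B * om η) ?_ ?_ ?_ ?_
  · intro p
    have h1 : Continuous fun η : E => F p.1 (p.2 - η) :=
      hF.comp (by fun_prop : Continuous fun η : E => (p.1, p.2 - η))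
    have h2 : Continuous fun η : E => G p.1 η :=
      hG.comp (by fun_prop : Continuous fun η : E => (p.1, η))
    exact (h1.mul h2).aestronglyMeasurable
  · intro p
    refine Filter.Eventually.of_forall fun η => ?_
    refine (norm_mul_le_om (hf p.1) (hg p.1) p.2 η).trans ?_
    have := om_pos η
    have := om_le_one (p.2 - η)
    have hAB : 0 ≤ A * B := by positivity
    calc A * B * (om (p.2 - η) * om η) ≤ A * B * (1 * om η) := by
          apply mul_le_mul_of_nonneg_left _ hAB
          nlinarith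
      _ = _ := by ring
  · exact integrable_om.const_mul _
  · refine Filter.Eventually.of_forall fun η => ?_
    have h1 : Continuous fun p : T × E => F p.1 (p.2 - η) :=
      hF.comp (by fun_prop : Continuous fun p : T × E => (p.1, p.2 - η))
    have h2 : Continuous fun p : T × E => G p.1 η :=
      hG.comp (by fun_prop : Continuous fun p : T × E => (p.1, η))
    exact h1.mul h2

end omb

section linear

variable {f f' g g' : E → ℂ} {ξ : E}

lemma cv_sub_left (h1 : Integrable fun η => f (ξ - η) * g η)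
    (h2 : Integrable fun η => f' (ξ - η) * g η) :
    cv (fun η => f η - f' η) g ξ = cv f g ξ - cv f' g ξ := by
  unfold cv
  rw [← integral_sub h1 h2]
  congr 1; ext η; ring

lemma cv_sub_right (h1 : Integrable fun η => f (ξ - η) * g η)
    (h2 : Integrable fun η => f (ξ - η) * g' η) :
    cv f (fun η => g η - g' η) ξ = cv f g ξ - cv f g' ξ := by
  unfold cv
  rw [← integral_sub h1 h2]
  congr 1; ext η; ring

lemma cv_comm : cv f g ξ = cv g f ξ := by
  unfold cv
  rw [← integral_sub_left_eq_self (fun η => f (ξ - η) * g η) volume ξ]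
  congr 1; ext η
  simp only [sub_sub_cancel]
  ring

lemma cv_reflect_conj (f g : E → ℂ) (ξ : E) :
    cv (fun η => (starRingEnd ℂ) (f (-η))) (fun η => (starRingEnd ℂ) (g (-η))) ξ
      = (starRingEnd ℂ) (cv f g (-ξ)) := by
  unfold cv
  rw [← integral_conj, ← integral_neg_eq_self (fun η => (starRingEnd ℂ) (f (-(ξ - η))) * (starRingEnd ℂ) (g (-η)))]
  congr 1; ext η
  simp only [map_mul, neg_neg]
  congr 3
  abel

end linear

end Pool.Agent.Helper39.NS
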