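import Pool.Agent.Helper39.NS.Planch

set_option autoImplicit false

open MeasureTheory Real Set FourierTransform

namespace Pool.Agent.Helper39.NS

variable {D : E →L[ℝ] E}

lemma memLp_of_pw {f : E → ℂ} (hm : Measurable f) {C : ℝ} (_hC : 0 ≤ C) (h : ∀ ξ, ‖f ξ‖ ≤ C * pw ξ) :
    MemLp f 2 volume ∧ ∫⁻ ξ, ‖f ξ‖ₑ ^ 2 ≤ ENNReal.ofReal (C ^ 2 * ∫ ξ, pw ξ) := by
  have key : ∀ ξ, ‖f ξ‖ ^ 2 ≤ C ^ 2 * pw ξ := by
    intro ξ
    have h1 := h ξ
    have h2 := pw_le_one ξ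
    have h3 := pw_pos ξ
    calc ‖f ξ‖ ^ 2 ≤ (C * pw ξ) ^ 2 := by gcongr
      _ = C ^ 2 * pw ξ * pw ξ := by ring
      _ ≤ C ^ 2 * pw ξ * 1 := by gcongr
      _ = _ := by ring
  have hint : Integrable fun ξ => ‖f ξ‖ ^ 2 := by
    refine (integrable_pw.const_mul (C ^ 2)).mono' (hm.norm.pow_const 2).aestronglyMeasurable
      (Filter.Eventually.of_forall fun ξ => ?_)
    rw [Real.norm_of_nonneg (by positivity)]
    exact key ξ
  refine ⟨(memLp_two_iff_integrable_sq_norm hm.aestronglyMeasurable).mpr hint, ?_⟩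
  rw [← integral_const_mul]
  have e : ∀ ξ, ‖f ξ‖ₑ ^ 2 = ENNReal.ofReal (‖f ξ‖ ^ 2) := by
    intro ξ
    rw [ENNReal.ofReal_pow (norm_nonneg _), ofReal_norm]
  simp_rw [e]
  rw [← ofReal_integral_eq_lintegral_ofReal hint (Filter.Eventually.of_forall fun ξ => by positivity)]
  apply ENNReal.ofReal_le_ofReal
  exact integral_mono hint (integrable_pw.const_mul _) key

lemma lintegral_comp_adjoint (hD : LinearMap.det (D : E →ₗ[ℝ] E) ≠ 0) {g : E → ENNReal}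
    (hg : Measurable g) :
    ∫⁻ x, g (ContinuousLinearMap.adjoint D x)
      = ENNReal.ofReal |(LinearMap.det (ContinuousLinearMap.adjoint D : E →ₗ[ℝ] E))⁻¹| * ∫⁻ x, g x := by
  have hdet : LinearMap.det (ContinuousLinearMap.adjoint D : E →ₗ[ℝ] E) ≠ 0 := by
    intro h0
    apply hD
    rw [LinearMap.det_eq_zero_iff_ker_ne_bot] at h0 ⊢
    intro hker
    apply h0
    have hinj : Function.Injective D := LinearMap.ker_eq_bot.mp hker
    have hsurj : Function.Surjective D :=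
      LinearMap.injective_iff_surjective.mp (hinj : Function.Injective (D : E →ₗ[ℝ] E))
    rw [LinearMap.ker_eq_bot']
    intro x hx
    obtain ⟨y, rfl⟩ := hsurj x
    have : inner ℝ (D y) (D y) = 0 := by
      rw [← ContinuousLinearMap.adjoint_inner_right]
      have hx' : ContinuousLinearMap.adjoint D (D y) = 0 := hx
      rw [hx', inner_zero_right]
    exact inner_self_eq_zero.mp this
  have h := MeasureTheory.Measure.map_linearMap_addHaar_eq_smul_addHaar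
    (μ := (volume : Measure E)) hdet
  have h1 := lintegral_map (μ := (volume : Measure E)) hg
    (ContinuousLinearMap.adjoint D).continuous.measurable
  have h2 : Measure.map (⇑(ContinuousLinearMap.adjoint D)) (volume : Measure E)
      = ENNReal.ofReal |(LinearMap.det (ContinuousLinearMap.adjoint D : E →ₗ[ℝ] E))⁻¹| •
        (volume : Measure E) := h
  rw [← h1, h2, lintegral_smul_measure, smul_eq_mul]

/-- uniform energy bound for the synthesis operator -/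
lemma energy_II (hD : LinearMap.det (D : E →ₗ[ℝ] E) ≠ 0) {G : ℝ → E → ℂ} (hG : Sm0 G) :
    ∃ K : ℝ, 0 ≤ K ∧ ∀ τ ∈ TT, ∫⁻ x, ‖II D G (τ, x)‖ₑ ^ 2 ≤ ENNReal.ofReal K := by
  obtain ⟨C, hC0, hC⟩ := hG.decay 0
  set d := |(LinearMap.det (ContinuousLinearMap.adjoint D : E →ₗ[ℝ] E))⁻¹| with hd
  have hpw := integral_pw_nonneg
  refine ⟨d * (C ^ 2 * ∫ ξ, pw ξ), by positivity, fun τ hτ => ?_⟩
  have hb : ∀ ξ, ‖G τ ξ‖ ≤ C * pw ξ := fun ξ => norm_le_pw_of_decay 0 (hC τ hτ ξ)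
  obtain ⟨hmem, hle⟩ := memLp_of_pw (hG.meas τ hτ) hC0 hb
  have hint := hG.integrable hτ
  have hgm : Measurable fun y => ‖𝓕 (G τ) y‖ₑ ^ 2 :=
    (continuous_fourier_of_integrable hint).measurable.enorm.pow_const 2
  have e : ∫⁻ x, ‖II D G (τ, x)‖ₑ ^ 2
      = ∫⁻ x, (fun y => ‖𝓕 (G τ) y‖ₑ ^ 2) (ContinuousLinearMap.adjoint D x) := by
    congr 1; funext x; rw [II_eq_fourier]
  rw [e, lintegral_comp_adjoint hD hgm, lintegral_fourier_sq hint hmem,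
    ENNReal.ofReal_mul (by positivity)]
  gcongr

lemma enorm_sq_vc_le (G : Fin 3 → ℝ → E → ℂ) (p : ℝ × E) :
    ‖vc D G p‖ₑ ^ 2 ≤ ∑ i : Fin 3, ‖II D (G i) p‖ₑ ^ 2 := by
  have e : ∀ i, ‖II D (G i) p‖ₑ ^ 2 = ENNReal.ofReal (‖II D (G i) p‖ ^ 2) := by
    intro i
    rw [ENNReal.ofReal_pow (norm_nonneg _), ofReal_norm]
  simp_rw [e]
  rw [← ENNReal.ofReal_sum_of_nonneg (fun i _ => by positivity), ← ofReal_norm,
    ← ENNReal.ofReal_pow (norm_nonneg _)]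
  apply ENNReal.ofReal_le_ofReal
  rw [EuclideanSpace.norm_sq_eq]
  refine Finset.sum_le_sum fun i _ => ?_
  rw [vc_apply]
  have : ‖(II D (G i) p).re‖ ≤ ‖II D (G i) p‖ := Complex.abs_re_le_norm _
  gcongr

lemma energy_vc (hD : LinearMap.det (D : E →ₗ[ℝ] E) ≠ 0) {G : Fin 3 → ℝ → E → ℂ}
    (hG : ∀ i, Sm0 (G i)) :
    ∃ K : ℝ, 0 ≤ K ∧ ∀ τ ∈ TT, ∫⁻ x, ‖vc D G (τ, x)‖ₑ ^ 2 ≤ ENNReal.ofReal K := by
  choose K hK0 hK using fun i => energy_II hD (hG i)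
  refine ⟨∑ i, K i, Finset.sum_nonneg fun i _ => hK0 i, fun τ hτ => ?_⟩
  have hmeas : ∀ i, Measurable fun x => ‖II D (G i) (τ, x)‖ₑ ^ 2 := by
    intro i
    have : Continuous fun x => II D (G i) (τ, x) := by
      have h := continuous_fourier_of_integrable ((hG i).integrable hτ)
      have h2 := h.comp (ContinuousLinearMap.adjoint D).continuous
      refine h2.congr fun x => ?_
      rw [II_eq_fourier]; rfl
    exact this.measurable.enorm.pow_const 2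
  calc ∫⁻ x, ‖vc D G (τ, x)‖ₑ ^ 2 ≤ ∫⁻ x, ∑ i : Fin 3, ‖II D (G i) (τ, x)‖ₑ ^ 2 :=
        lintegral_mono fun x => enorm_sq_vc_le G (τ, x)
    _ = ∑ i : Fin 3, ∫⁻ x, ‖II D (G i) (τ, x)‖ₑ ^ 2 := lintegral_finsetSum _ fun i _ => hmeas i
    _ ≤ ∑ i : Fin 3, ENNReal.ofReal (K i) := Finset.sum_le_sum fun i _ => hK i τ hτ
    _ = ENNReal.ofReal (∑ i, K i) := (ENNReal.ofReal_sum_of_nonneg fun i _ => hK0 i).symm

variable {U0 : Fin 3 → E → ℂ} {F : Fin 3 → ℝ → E → ℂ} {B : ℝ}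

theorem Mild.energy (hD : LinearMap.det (D : E →ₗ[ℝ] E) ≠ 0) (h : Mild D U0 F B) :
    ∃ K : ℝ, ∀ s ∈ Ioo (-1:ℝ) 0, ∫⁻ x, ‖vel D F s x‖ₑ ^ 2 ≤ ENNReal.ofReal K := by
  obtain ⟨K, -, hK⟩ := energy_vc hD h.sm0
  exact ⟨K, fun s hs => hK (s + 1) (shift_mem hs)⟩

lemma norm_pj_le (k : Fin 3) : ‖pj k‖ ≤ 1 :=
  ContinuousLinearMap.opNorm_le_bound _ zero_le_one fun x => by
    simpa using PiLp.norm_apply_le x k

theorem Mild.dissipation (hD : LinearMap.det (D : E →ₗ[ℝ] E) ≠ 0) (h : Mild D U0 F B) :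
    (∫⁻ s in Ioo (-1:ℝ) 0, ∫⁻ x, ‖fderiv ℝ (vel D F s) x‖ₑ ^ 2) < ⊤ := by
  have hk : ∀ k i, Sm0 (fun τ ξ => sy D k ξ * F i τ ξ) := fun k i => (h.sm0 i).mult (mult_sy k)
  choose K hK0 hK using fun k : Fin 3 => energy_vc hD (hk k)
  have key : ∀ s ∈ Ioo (-1:ℝ) 0, ∫⁻ x, ‖fderiv ℝ (vel D F s) x‖ₑ ^ 2
      ≤ 3 * ENNReal.ofReal (∑ k, K k) := by
    intro s hs
    have hτ := shift_mem hs
    have hpt : ∀ x, ‖fderiv ℝ (vel D F s) x‖ₑ ^ 2
        ≤ 3 * ∑ k : Fin 3, ‖vc D (fun i τ ξ => sy D k ξ * F i τ ξ) (s + 1, x)‖ₑ ^ 2 := by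
      intro x
      have hd : HasFDerivAt (vel D F s)
          (∑ k : Fin 3, (pj k).smulRight (vc D (fun i τ ξ => sy D k ξ * F i τ ξ) (s + 1, x))) x :=
        hasFDerivAt_vc (fun i => h.sm 1 i) hτ x
      rw [hd.fderiv]
      set w := fun k : Fin 3 => vc D (fun i τ ξ => sy D k ξ * F i τ ξ) (s + 1, x) with hw
      have h1 : ‖∑ k : Fin 3, (pj k).smulRight (w k)‖ ≤ ∑ k : Fin 3, ‖w k‖ := by
        refine (norm_sum_le _ _).trans (Finset.sum_le_sum fun k _ => ?_)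
        rw [ContinuousLinearMap.norm_smulRight_apply]
        have := norm_pj_le k
        have := norm_nonneg (w k)
        nlinarith
      have h2 : (∑ k : Fin 3, ‖w k‖) ^ 2 ≤ 3 * ∑ k : Fin 3, ‖w k‖ ^ 2 := by
        have := sq_sum_le_card_mul_sum_sq (s := (Finset.univ : Finset (Fin 3))) (f := fun k => ‖w k‖)
        simpa using this
      have h3 : ‖∑ k : Fin 3, (pj k).smulRight (w k)‖ ^ 2 ≤ 3 * ∑ k : Fin 3, ‖w k‖ ^ 2 :=
        le_trans (by gcongr) h2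
      have h4 := ENNReal.ofReal_le_ofReal h3
      rw [ENNReal.ofReal_pow (norm_nonneg _), ofReal_norm, ENNReal.ofReal_mul (by norm_num),
        ENNReal.ofReal_sum_of_nonneg (fun i _ => by positivity)] at h4
      simp_rw [ENNReal.ofReal_pow (norm_nonneg _), ofReal_norm] at h4
      simpa using h4
    calc ∫⁻ x, ‖fderiv ℝ (vel D F s) x‖ₑ ^ 2
        ≤ ∫⁻ x, 3 * ∑ k : Fin 3, ‖vc D (fun i τ ξ => sy D k ξ * F i τ ξ) (s + 1, x)‖ₑ ^ 2 :=
          lintegral_mono hpt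
      _ = 3 * ∑ k : Fin 3, ∫⁻ x, ‖vc D (fun i τ ξ => sy D k ξ * F i τ ξ) (s + 1, x)‖ₑ ^ 2 := by
          have hmeas : ∀ k : Fin 3, Measurable fun x =>
              ‖vc D (fun i τ ξ => sy D k ξ * F i τ ξ) (s + 1, x)‖ₑ ^ 2 := by
            intro k
            have : Continuous fun x => vc D (fun i τ ξ => sy D k ξ * F i τ ξ) (s + 1, x) :=
              continuous_iff_continuousAt.mpr fun x =>
                (hasFDerivAt_vc (fun i => (h.sm 1 i).mult (mult_sy k)) hτ x).continuousAt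
            exact this.measurable.enorm.pow_const 2
          rw [lintegral_const_mul _ (Finset.measurable_sum _ fun k _ => hmeas k),
            lintegral_finsetSum _ fun k _ => hmeas k]
      _ ≤ 3 * ∑ k : Fin 3, ENNReal.ofReal (K k) := by
          gcongr with k
          exact hK k (s + 1) hτ
      _ = 3 * ENNReal.ofReal (∑ k, K k) := by
          rw [ENNReal.ofReal_sum_of_nonneg fun i _ => hK0 i]
  calc (∫⁻ s in Ioo (-1:ℝ) 0, ∫⁻ x, ‖fderiv ℝ (vel D F s) x‖ₑ ^ 2)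
      ≤ ∫⁻ s in Ioo (-1:ℝ) 0, 3 * ENNReal.ofReal (∑ k, K k) :=
        setLIntegral_mono' measurableSet_Ioo key
    _ < ⊤ := by
        rw [setLIntegral_const]
        simp [ENNReal.mul_lt_top_iff]
        
end Pool.Agent.Helper39.NS
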