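import Pool.Agent.Helper39.NS.Heat3

set_option autoImplicit false

open MeasureTheory Real Set

namespace Pool.Agent.Helper39.NS

/-- the cube of the local `L³` norm -/
noncomputable def nn (v : ℝ → E → E) (t : ℝ) : ℝ := ∫ x in CB, ‖v t x‖ ^ 3

lemma continuous_nn {v : ℝ → E → E} (hv : Continuous (Function.uncurry v)) : Continuous (nn v) := by
  unfold nn
  exact continuous_parametric_integral_of_continuous
    (f := fun (t : ℝ) (x : E) => ‖v t x‖ ^ 3) (by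
      have : (Function.uncurry fun (t : ℝ) (x : E) => ‖v t x‖ ^ 3)
        = fun p => ‖Function.uncurry v p‖ ^ 3 := rfl
      rw [this]
      fun_prop) (isCompact_closedBall _ _)

lemma integrableOn_of_continuous {f : E → ℝ} (hf : Continuous f) : IntegrableOn f CB :=
  hf.continuousOn.integrableOn_compact (isCompact_closedBall _ _)

lemma setIntegral_const_CB (c : ℝ) : ∫ _ in CB, c = Vb * c := by
  rw [setIntegral_const, smul_eq_mul, Vb]

lemma cube_add_le {a b : ℝ} (ha : 0 ≤ a) (hb : 0 ≤ b) : (a + b) ^ 3 ≤ 4 * (a ^ 3 + b ^ 3) := by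
  nlinarith [mul_nonneg (add_nonneg ha hb) (sq_nonneg (a - b))]

/-- the choice of parameters, linear part -/
lemma exists_profile (K t₀ m : ℝ) (ht₀ : t₀ ∈ Ioo (-1:ℝ) 0) (hm : 0 < m) :
    ∃ (ε : ℝ) (θ : ℂ), 0 < ε ∧ ε ≤ -t₀ / 2 ∧
      (∀ t ∈ Icc (-1:ℝ) t₀, ∀ x, |x| ≤ 1 → |(θ * Psi ε 0 (t + 1) x).re| ≤ m) ∧
      (∫ x in CB, |(θ * Psi ε 0 1 (x 0)).re| ^ 3 ≤ 12 / 125) ∧
      K ≤ |(θ * Psi ε 0 1 0).re| ∧
      K ≤ ∫ x in CB, |(θ * Psi ε 0 (1 - ε) (x 0)).re| ^ 3 := by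
  have hV := Vb_pos
  set a := 3 * (1 - (t₀ + 1)) with ha
  have hCa := Ca_nonneg a
  set K' := max K 1 with hK'
  have hK1 : 1 ≤ K' := le_max_right _ _
  have hKK : K ≤ K' := le_max_left _ _
  have hneg : 0 < -t₀ := by linarith [ht₀.2]
  -- choose δ
  set δ := min (min 1 (-t₀ / 2)) (min (m / (Ca a + 1)) (min (1 / (20 * K')) (Vb / (8000 * K')))) with hδ
  have hδ0 : 0 < δ := by
    refine lt_min (lt_min one_pos (by positivity)) (lt_min (by positivity) (lt_min (by positivity) (by positivity)))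
  have hδ1 : δ ≤ 1 := (min_le_left _ _).trans (min_le_left _ _)
  have hδ2 : δ ≤ -t₀ / 2 := (min_le_left _ _).trans (min_le_right _ _)
  have hδ3 : δ ≤ m / (Ca a + 1) := (min_le_right _ _).trans (min_le_left _ _)
  have hδ4 : δ ≤ 1 / (20 * K') := (min_le_right _ _).trans ((min_le_right _ _).trans (min_le_left _ _))
  have hδ5 : δ ≤ Vb / (8000 * K') := (min_le_right _ _).trans ((min_le_right _ _).trans (min_le_right _ _))
  set ε := δ ^ 6 with hε
  have hε0 : 0 < ε := by positivity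
  have hεδ : ε ≤ δ := by
    rw [hε]
    calc δ ^ 6 ≤ δ ^ 1 := pow_le_pow_of_le_one hδ0.le hδ1 (by norm_num)
      _ = δ := pow_one δ
  have hsqrt : √ε = δ ^ 3 := by
    rw [hε, show δ ^ 6 = (δ ^ 3) ^ 2 by ring, Real.sqrt_sq (by positivity)]
  obtain ⟨hfin, hre, him⟩ := Psi_final_bounds hε0
  have hwild := Psi_wild_bound hε0
  rw [hsqrt] at hfin hre him hwild
  -- real and imaginary parts at the wild time
  set P : ℝ → ℂ := fun x => Psi ε 0 (1 - ε) x with hP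
  have hPc : Continuous P := continuous_Psi_slice hε0 (by linarith)
  have hc1 : Continuous fun x : E => |(P (x 0)).re| ^ 3 := by fun_prop
  have hc2 : Continuous fun x : E => |(P (x 0)).im| ^ 3 := by fun_prop
  have hsum : Vb * ((δ ^ 3)⁻¹ / 2) ^ 3 / 4 ≤ (∫ x in CB, |(P (x 0)).re| ^ 3) + ∫ x in CB, |(P (x 0)).im| ^ 3 := by
    rw [← integral_add (integrableOn_of_continuous hc1) (integrableOn_of_continuous hc2)]
    have : Vb * ((δ ^ 3)⁻¹ / 2) ^ 3 / 4 = ∫ _ in CB, ((δ ^ 3)⁻¹ / 2) ^ 3 / 4 := by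
      rw [setIntegral_const_CB]; ring
    rw [this]
    apply integral_mono
    · exact integrableOn_of_continuous continuous_const
    · exact integrableOn_of_continuous (hc1.add hc2)
    · intro x
      have h1 := hwild (x 0)
      have h2 : ‖P (x 0)‖ ≤ |(P (x 0)).re| + |(P (x 0)).im| := Complex.norm_le_abs_re_add_abs_im _
      have h3 := cube_add_le (abs_nonneg (P (x 0)).re) (abs_nonneg (P (x 0)).im)
      have h4 : ((δ ^ 3)⁻¹ / 2) ^ 3 ≤ (|(P (x 0)).re| + |(P (x 0)).im|) ^ 3 := by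
        have : 0 ≤ (δ ^ 3)⁻¹ / 2 := by positivity
        have h5 : (δ ^ 3)⁻¹ / 2 ≤ |(P (x 0)).re| + |(P (x 0)).im| := h1.trans h2
        gcongr
      simp only
      linarith
  -- common consequences for θ = (δ²/5)·u with ‖u‖ = 1
  have common : ∀ u : ℂ, ‖u‖ = 1 → (δ ^ 3)⁻¹ / 4 ≤ |(u * Psi ε 0 1 0).re| →
      Vb * ((δ ^ 3)⁻¹ / 2) ^ 3 / 8 ≤ ∫ x in CB, |(u * P (x 0)).re| ^ 3 →
      ∃ (ε : ℝ) (θ : ℂ), 0 < ε ∧ ε ≤ -t₀ / 2 ∧
      (∀ t ∈ Icc (-1:ℝ) t₀, ∀ x, |x| ≤ 1 → |(θ * Psi ε 0 (t + 1) x).re| ≤ m) ∧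
      (∫ x in CB, |(θ * Psi ε 0 1 (x 0)).re| ^ 3 ≤ 12 / 125) ∧
      K ≤ |(θ * Psi ε 0 1 0).re| ∧
      K ≤ ∫ x in CB, |(θ * Psi ε 0 (1 - ε) (x 0)).re| ^ 3 := by
    intro u hu h0 hw
    have hre_smul : ∀ z : ℂ, |((((δ ^ 2 / 5 : ℝ) : ℂ) * u) * z).re| = δ ^ 2 / 5 * |(u * z).re| := by
      intro z
      rw [mul_assoc, Complex.re_ofReal_mul, abs_mul, abs_of_nonneg (by positivity)]
    refine ⟨ε, ((δ ^ 2 / 5 : ℝ) : ℂ) * u, hε0, hεδ.trans hδ2, ?_, ?_, ?_, ?_⟩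
    · intro t ht x hx
      rw [hre_smul]
      have h1 := Psi_early (ε := ε) (τ := t + 1) (τ₀ := t₀ + 1) hε0 (by linarith [ht.2])
        (by linarith) hx
      have h2 : |(u * Psi ε 0 (t + 1) x).re| ≤ Ca a := by
        refine (Complex.abs_re_le_norm _).trans ?_
        rw [norm_mul, hu, one_mul]; exact h1
      have h3 : δ * (Ca a + 1) ≤ m := by rwa [le_div_iff₀ (by positivity)] at hδ3
      calc δ ^ 2 / 5 * |(u * Psi ε 0 (t + 1) x).re| ≤ δ ^ 2 / 5 * Ca a := by gcongr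
        _ ≤ δ * (Ca a + 1) := by
            have h5 : δ ^ 2 / 5 ≤ δ := by nlinarith
            have h6 : Ca a ≤ Ca a + 1 := by linarith
            exact mul_le_mul h5 h6 hCa hδ0.le
        _ ≤ m := h3
    · have hgc : Continuous fun x : E => |(((((δ ^ 2 / 5 : ℝ) : ℂ) * u)) * Psi ε 0 1 (x 0)).re| ^ 3 := by
        have := (continuous_Psi_slice hε0 (le_refl (1:ℝ))).comp
          (by fun_prop : Continuous fun x : E => x 0)
        have h' : Continuous fun x : E => Psi ε 0 1 (x 0) := this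
        fun_prop
      have hgc2 : Continuous fun x : E => (δ ^ 2 / 5 * (δ ^ 3)⁻¹) ^ 3 *
          Real.exp (-(3 / (8 * ε)) * (x 0) ^ 2) := by fun_prop
      calc ∫ x in CB, |(((δ ^ 2 / 5 : ℝ) : ℂ) * u * Psi ε 0 1 (x 0)).re| ^ 3
          ≤ ∫ x in CB, (δ ^ 2 / 5 * (δ ^ 3)⁻¹) ^ 3 * Real.exp (-(3 / (8 * ε)) * (x 0) ^ 2) := by
            apply integral_mono (integrableOn_of_continuous hgc) (integrableOn_of_continuous hgc2)
            intro x
            simp only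
            rw [hre_smul]
            have h1 : |(u * Psi ε 0 1 (x 0)).re| ≤ (δ ^ 3)⁻¹ * Real.exp (-(1 / (8 * ε)) * (x 0) ^ 2) := by
              refine (Complex.abs_re_le_norm _).trans ?_
              rw [norm_mul, hu, one_mul]; exact hfin _
            calc (δ ^ 2 / 5 * |(u * Psi ε 0 1 (x 0)).re|) ^ 3
                ≤ (δ ^ 2 / 5 * ((δ ^ 3)⁻¹ * Real.exp (-(1 / (8 * ε)) * (x 0) ^ 2))) ^ 3 := by gcongr
              _ = (δ ^ 2 / 5 * (δ ^ 3)⁻¹) ^ 3 * Real.exp (-(1 / (8 * ε)) * (x 0) ^ 2) ^ 3 := by ring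
              _ = _ := by
                  rw [← Real.exp_nat_mul]
                  congr 2
                  push_cast
                  field_simp
        _ = (δ ^ 2 / 5 * (δ ^ 3)⁻¹) ^ 3 * ∫ x in CB, Real.exp (-(3 / (8 * ε)) * (x 0) ^ 2) :=
            integral_const_mul _ _
        _ ≤ (δ ^ 2 / 5 * (δ ^ 3)⁻¹) ^ 3 * (4 * √(π / (3 / (8 * ε)))) := by
            gcongr
            exact setIntegral_gauss_le (by positivity)
        _ ≤ 12 / 125 := by
            have h1 : √(π / (3 / (8 * ε))) ≤ 3 * δ ^ 3 := by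
              rw [Real.sqrt_le_left (by positivity)]
              have : π / (3 / (8 * ε)) = 8 * π / 3 * ε := by field_simp
              rw [this, hε]
              have hpi := Real.pi_lt_d2
              have : (3 * δ ^ 3) ^ 2 = 9 * δ ^ 6 := by ring
              rw [this]
              have h6 : 0 < δ ^ 6 := by positivity
              nlinarith
            calc (δ ^ 2 / 5 * (δ ^ 3)⁻¹) ^ 3 * (4 * √(π / (3 / (8 * ε))))
                ≤ (δ ^ 2 / 5 * (δ ^ 3)⁻¹) ^ 3 * (4 * (3 * δ ^ 3)) := by gcongr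
              _ = 12 / 125 := by field_simp; norm_num
    · rw [hre_smul]
      have h1 : δ * (20 * K') ≤ 1 := by rwa [le_div_iff₀ (by positivity)] at hδ4
      calc K ≤ K' := hKK
        _ ≤ δ ^ 2 / 5 * ((δ ^ 3)⁻¹ / 4) := by
            have : δ ^ 2 / 5 * ((δ ^ 3)⁻¹ / 4) = 1 / (20 * δ) := by field_simp; norm_num
            rw [this, le_div_iff₀ (by positivity)]
            linarith
        _ ≤ _ := by gcongr
    · have h1 : δ * (8000 * K') ≤ Vb := by rwa [le_div_iff₀ (by positivity)] at hδ5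
      have e : ∀ x : E, |(((δ ^ 2 / 5 : ℝ) : ℂ) * u * Psi ε 0 (1 - ε) (x 0)).re| ^ 3
          = (δ ^ 2 / 5) ^ 3 * |(u * P (x 0)).re| ^ 3 := by
        intro x
        rw [hre_smul, mul_pow]
      simp_rw [e]
      rw [integral_const_mul]
      calc K ≤ K' := hKK
        _ ≤ (δ ^ 2 / 5) ^ 3 * (Vb * ((δ ^ 3)⁻¹ / 2) ^ 3 / 8) := by
            have : (δ ^ 2 / 5) ^ 3 * (Vb * ((δ ^ 3)⁻¹ / 2) ^ 3 / 8) = Vb / (8000 * δ ^ 3) := by
              field_simp; norm_num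
            rw [this, le_div_iff₀ (by positivity)]
            have h3 : δ ^ 3 ≤ δ := by
              calc δ ^ 3 ≤ δ ^ 1 := pow_le_pow_of_le_one hδ0.le hδ1 (by norm_num)
                _ = δ := pow_one δ
            calc K' * (8000 * δ ^ 3) ≤ K' * (8000 * δ) := by gcongr
              _ ≤ Vb := by linarith
        _ ≤ _ := by gcongr
  by_cases hcase : Vb * ((δ ^ 3)⁻¹ / 2) ^ 3 / 8 ≤ ∫ x in CB, |(P (x 0)).re| ^ 3
  · exact common 1 (by simp) (by simpa using hre) (by simpa using hcase)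
  · refine common (-Complex.I) (by simp) ?_ ?_
    · simpa using him
    · have h2 : Vb * ((δ ^ 3)⁻¹ / 2) ^ 3 / 8 ≤ ∫ x in CB, |(P (x 0)).im| ^ 3 := by
        push Not at hcase
        linarith
      simpa using h2

lemma norm_shear (w : ℝ) : ‖(WithLp.toLp 2 ![0, 0, w] : E)‖ = |w| := by
  rw [← sq_eq_sq₀ (norm_nonneg _) (abs_nonneg _), norm_sq_three, sq_abs]
  simp

/-- the basic building block -/
theorem step (K t₀ : ℝ) (ht₀ : t₀ ∈ Ioo (-1:ℝ) 0) :
    ∃ (v : ℝ → E → E) (p : ℝ → E → ℝ) (t₁ : ℝ), IsSol v p ∧ Continuous (Function.uncurry v) ∧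
      t₀ / 2 ≤ t₁ ∧ t₁ < 0 ∧ (∀ t ∈ Icc (-1:ℝ) t₀, nn v t ≤ 1) ∧ nn v t₁ = 1 ∧
      (∀ t ∈ Icc t₁ 0, nn v t ≤ 1) ∧ K < ‖v 0 0‖ := by
  have hV := Vb_pos
  set e := 1 / (8 * (Vb + 1)) with he
  have he0 : 0 < e := by positivity
  have heV : e * Vb ≤ 1 / 8 := by
    rw [he, div_mul_eq_mul_div, div_le_div_iff₀ (by positivity) (by norm_num)]
    linarith
  have he8 : e ≤ 1 / 8 := by
    rw [he, div_le_div_iff₀ (by positivity) (by norm_num)]
    linarith
  have he3 : e ^ 3 * Vb ≤ 1 / 8 := by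
    refine le_trans ?_ heV
    apply mul_le_mul_of_nonneg_right _ hV.le
    calc e ^ 3 ≤ e ^ 1 := pow_le_pow_of_le_one he0.le (by linarith) (by norm_num)
      _ = e := pow_one e
  obtain ⟨ε, θ, hε0, hεt, hearly, hfinal, hbig, hwild⟩ :=
    exists_profile (max (K + 1) 8) t₀ e ht₀ he0
  obtain ⟨κ, hκ0, hκ1, hclose⟩ := Psi_close hε0 (η := e / (2 * (‖θ‖ + 1))) (by positivity)
  obtain ⟨v, p, hsol, hcont, happ⟩ := ns_approx (good_hk hε0 hκ0 θ) (R := 1) (η := e / 2)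
    zero_le_one (by positivity)
  -- total error
  have happ' : ∀ t ∈ Icc (-1:ℝ) 0, ∀ x ∈ CB,
      ‖v t x - WithLp.toLp 2 ![0, 0, (θ * Psi ε 0 (t + 1) (x 0)).re]‖ ≤ e := by
    intro t ht x hx
    have hn : ‖x‖ ≤ 1 := by simpa using hx
    have hτ : t + 1 ∈ Icc (0:ℝ) 1 := ⟨by linarith [ht.1], by linarith [ht.2]⟩
    have hx0 : x 0 ∈ Icc (-1:ℝ) 1 := by
      have h1 : |x 0| ≤ ‖x‖ := by simpa using PiLp.norm_apply_le x 0
      exact abs_le.mp (h1.trans hn)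
    have h1 := happ t ht x hn
    rw [w1_hk hε0 hκ0 hτ.1, Complex.ofReal_re] at h1
    have h2 : ‖(WithLp.toLp 2 ![0, 0, (θ * Psi ε κ (t + 1) (x 0)).re] : E)
        - WithLp.toLp 2 ![0, 0, (θ * Psi ε 0 (t + 1) (x 0)).re]‖ ≤ e / 2 := by
      have : (WithLp.toLp 2 ![0, 0, (θ * Psi ε κ (t + 1) (x 0)).re] : E)
        - WithLp.toLp 2 ![0, 0, (θ * Psi ε 0 (t + 1) (x 0)).re]
        = WithLp.toLp 2 ![0, 0, (θ * (Psi ε κ (t + 1) (x 0) - Psi ε 0 (t + 1) (x 0))).re] := by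
        ext i
        rw [mul_sub, Complex.sub_re]
        fin_cases i <;> simp
      rw [this, norm_shear]
      refine (Complex.abs_re_le_norm _).trans ?_
      rw [norm_mul]
      calc ‖θ‖ * ‖Psi ε κ (t + 1) (x 0) - Psi ε 0 (t + 1) (x 0)‖
          ≤ ‖θ‖ * (e / (2 * (‖θ‖ + 1))) := by
            gcongr
            exact hclose (t + 1) hτ (x 0) hx0
        _ ≤ e / 2 := by
            rw [mul_div_assoc', div_le_div_iff₀ (by positivity) (by norm_num)]
            nlinarith [norm_nonneg θ]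
    calc _ = ‖(v t x - WithLp.toLp 2 ![0, 0, (θ * Psi ε κ (t + 1) (x 0)).re])
          + ((WithLp.toLp 2 ![0, 0, (θ * Psi ε κ (t + 1) (x 0)).re] : E)
            - WithLp.toLp 2 ![0, 0, (θ * Psi ε 0 (t + 1) (x 0)).re])‖ := by congr 1; abel
      _ ≤ _ := norm_add_le _ _
      _ ≤ e / 2 + e / 2 := add_le_add h1 h2
      _ = e := by ring
  have hup : ∀ t ∈ Icc (-1:ℝ) 0, ∀ x ∈ CB, ‖v t x‖ ≤ |(θ * Psi ε 0 (t + 1) (x 0)).re| + e := by
    intro t ht x hx
    have h1 := happ' t ht x hx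
    rw [← norm_shear]
    calc ‖v t x‖ = ‖(WithLp.toLp 2 ![0, 0, (θ * Psi ε 0 (t + 1) (x 0)).re] : E)
        + (v t x - WithLp.toLp 2 ![0, 0, (θ * Psi ε 0 (t + 1) (x 0)).re])‖ := by congr 1; abel
      _ ≤ _ := norm_add_le _ _
      _ ≤ _ := by gcongr
  have hlow : ∀ t ∈ Icc (-1:ℝ) 0, ∀ x ∈ CB, |(θ * Psi ε 0 (t + 1) (x 0)).re| ≤ ‖v t x‖ + e := by
    intro t ht x hx
    have h1 := happ' t ht x hx
    rw [← norm_shear, ← norm_neg] at *
    calc ‖-(WithLp.toLp 2 ![0, 0, (θ * Psi ε 0 (t + 1) (x 0)).re] : E)‖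
        = ‖-(v t x) + -(-(v t x - WithLp.toLp 2 ![0, 0, (θ * Psi ε 0 (t + 1) (x 0)).re]))‖ := by
          congr 1; abel
      _ ≤ ‖-(v t x)‖ + ‖-(-(v t x - WithLp.toLp 2 ![0, 0, (θ * Psi ε 0 (t + 1) (x 0)).re]))‖ :=
          norm_add_le _ _
      _ ≤ _ := by
          rw [norm_neg, norm_neg] 
          rw [norm_neg] at h1 ⊢
          gcongr
  have hvc : ∀ t, Continuous fun x => ‖v t x‖ ^ 3 := fun t => by
    have := hcont.uncurry_left t
    fun_prop
  have hWc : ∀ t ≤ (0:ℝ), Continuous fun x : E => |(θ * Psi ε 0 (t + 1) (x 0)).re| ^ 3 := by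
    intro t ht
    have := (continuous_Psi_slice hε0 (by linarith : t + 1 ≤ 1)).comp
      (by fun_prop : Continuous fun x : E => x 0)
    have h' : Continuous fun x : E => Psi ε 0 (t + 1) (x 0) := this
    fun_prop
  -- early times
  have hA : ∀ t ∈ Icc (-1:ℝ) t₀, nn v t ≤ 1 := by
    intro t ht
    have ht' : t ∈ Icc (-1:ℝ) 0 := ⟨ht.1, ht.2.trans ht₀.2.le⟩
    have hpt : ∀ x ∈ CB, ‖v t x‖ ^ 3 ≤ (2 * e) ^ 3 := by
      intro x hx
      have hn : ‖x‖ ≤ 1 := by simpa using hx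
      have h1 : |x 0| ≤ ‖x‖ := by simpa using PiLp.norm_apply_le x 0
      have h2 := hearly t ht (x 0) (h1.trans hn)
      have h3 := hup t ht' x hx
      have h4 : ‖v t x‖ ≤ 2 * e := by linarith
      gcongr
    calc nn v t ≤ ∫ _ in CB, (2 * e) ^ 3 :=
          setIntegral_mono_on (integrableOn_of_continuous (hvc t))
            (integrableOn_of_continuous continuous_const) Metric.isClosed_closedBall.measurableSet hpt
      _ = 8 * (e ^ 3 * Vb) := by rw [setIntegral_const_CB]; ring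
      _ ≤ 1 := by linarith
  -- final time
  have hB : nn v 0 < 1 := by
    have hpt : ∀ x ∈ CB, ‖v 0 x‖ ^ 3 ≤ 4 * (|(θ * Psi ε 0 1 (x 0)).re| ^ 3 + e ^ 3) := by
      intro x hx
      have h3 := hup 0 ⟨by norm_num, le_rfl⟩ x hx
      rw [zero_add] at h3
      calc ‖v 0 x‖ ^ 3 ≤ (|(θ * Psi ε 0 1 (x 0)).re| + e) ^ 3 := by gcongr
        _ ≤ _ := cube_add_le (abs_nonneg _) he0.le
    have hWc0 := hWc 0 le_rfl
    rw [zero_add] at hWc0
    have hc2 : Continuous fun x : E => 4 * (|(θ * Psi ε 0 1 (x 0)).re| ^ 3 + e ^ 3) := by fun_prop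
    calc nn v 0 ≤ ∫ x in CB, 4 * (|(θ * Psi ε 0 1 (x 0)).re| ^ 3 + e ^ 3) :=
          setIntegral_mono_on (integrableOn_of_continuous (hvc 0))
            (integrableOn_of_continuous hc2) Metric.isClosed_closedBall.measurableSet hpt
      _ = 4 * ((∫ x in CB, |(θ * Psi ε 0 1 (x 0)).re| ^ 3) + Vb * e ^ 3) := by
          rw [integral_const_mul, integral_add (integrableOn_of_continuous hWc0)
            (integrableOn_of_continuous continuous_const), setIntegral_const_CB]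
      _ ≤ 4 * (12 / 125 + Vb * e ^ 3) := by gcongr
      _ < 1 := by nlinarith
  -- wild time
  have hεmem : -ε ∈ Icc (-1:ℝ) 0 := ⟨by linarith [ht₀.1, ht₀.2], by linarith⟩
  have hC : 1 ≤ nn v (-ε) := by
    have hpt : ∀ x ∈ CB, |(θ * Psi ε 0 (1 - ε) (x 0)).re| ^ 3 ≤ 4 * (‖v (-ε) x‖ ^ 3 + e ^ 3) := by
      intro x hx
      have h3 := hlow (-ε) hεmem x hx
      rw [show -ε + 1 = 1 - ε by ring] at h3
      calc |(θ * Psi ε 0 (1 - ε) (x 0)).re| ^ 3 ≤ (‖v (-ε) x‖ + e) ^ 3 := by gcongr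
        _ ≤ _ := cube_add_le (norm_nonneg _) he0.le
    have hWc0 := hWc (-ε) (by linarith)
    rw [show -ε + 1 = 1 - ε by ring] at hWc0
    have hvce := hvc (-ε)
    have hc2 : Continuous fun x : E => 4 * (‖v (-ε) x‖ ^ 3 + e ^ 3) := by fun_prop
    have h8 : (8:ℝ) ≤ 4 * (nn v (-ε) + Vb * e ^ 3) := by
      calc (8:ℝ) ≤ max (K + 1) 8 := le_max_right _ _
        _ ≤ ∫ x in CB, |(θ * Psi ε 0 (1 - ε) (x 0)).re| ^ 3 := hwild
        _ ≤ ∫ x in CB, 4 * (‖v (-ε) x‖ ^ 3 + e ^ 3) :=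
          setIntegral_mono_on (integrableOn_of_continuous hWc0)
            (integrableOn_of_continuous hc2) Metric.isClosed_closedBall.measurableSet hpt
        _ = 4 * (nn v (-ε) + Vb * e ^ 3) := by
          rw [integral_const_mul, integral_add (integrableOn_of_continuous hvce)
            (integrableOn_of_continuous continuous_const), setIntegral_const_CB]
          rfl
    nlinarith
  -- last time
  have hnc := continuous_nn hcont
  set S : Set ℝ := Icc (-ε) 0 ∩ {t | nn v t = 1} with hS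
  have hScomp : IsCompact S := isCompact_Icc.inter_right (isClosed_eq hnc continuous_const)
  have hSne : S.Nonempty := by
    have := intermediate_value_Icc' (by linarith : -ε ≤ 0) hnc.continuousOn ⟨hB.le, hC⟩
    obtain ⟨t, ht, hteq⟩ := this
    exact ⟨t, ht, hteq⟩
  obtain ⟨t₁, ⟨ht₁, ht₁eq⟩, hmax⟩ := hScomp.exists_isGreatest hSne
  have ht₁eq' : nn v t₁ = 1 := ht₁eq
  refine ⟨v, p, t₁, hsol, hcont, by linarith [ht₁.1], ?_, hA, ht₁eq', ?_, ?_⟩
  · rcases lt_or_eq_of_le ht₁.2 with h | h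
    · exact h
    · rw [h] at ht₁eq'
      linarith
  · intro t ht
    by_contra hcon
    push Not at hcon
    have := intermediate_value_Icc' ht.2 hnc.continuousOn ⟨hB.le, hcon.le⟩
    obtain ⟨t', ht', ht'eq⟩ := this
    have hmem : t' ∈ S := ⟨⟨ht₁.1.trans (ht.1.trans ht'.1), ht'.2⟩, ht'eq⟩
    have h1 : t' ≤ t₁ := hmax hmem
    have h2 : t = t' := le_antisymm ht'.1 (h1.trans ht.1)
    rw [h2] at hcon
    have : nn v t' = 1 := ht'eq
    linarith
  · have h0 : (0:E) ∈ CB := by simp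
    have h1 := hlow 0 ⟨by norm_num, le_rfl⟩ 0 h0
    rw [zero_add] at h1
    have h2 : K + 1 ≤ |(θ * Psi ε 0 1 0).re| := (le_max_left _ _).trans hbig
    have h3 : ((0:E) : Fin 3 → ℝ) 0 = 0 := rfl
    rw [h3] at h1
    linarith

end Pool.Agent.Helper39.NS
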