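import Pool.Agent.Helper39.NS.Leray

set_option autoImplicit false

open MeasureTheory Real Set

namespace Pool.Agent.Helper39.NS

/-- clamp to the unit interval -/
noncomputable def cl (s : ℝ) : ℝ := max 0 (min s 1)

lemma cl_nonneg (s : ℝ) : 0 ≤ cl s := le_max_left _ _

lemma cl_le_one (s : ℝ) : cl s ≤ 1 := max_le zero_le_one (min_le_right _ _)

lemma cl_mem (s : ℝ) : cl s ∈ Icc (0:ℝ) 1 := ⟨cl_nonneg s, cl_le_one s⟩

lemma continuous_cl : Continuous cl := by unfold cl; fun_prop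

lemma cl_of_mem {s : ℝ} (h : s ∈ Icc (0:ℝ) 1) : cl s = s := by
  unfold cl
  rw [min_eq_left h.2, max_eq_right h.1]

/-- heat evolution of the initial data (time clamped) -/
noncomputable def UU (D : E →L[ℝ] E) (U0 : Fin 3 → E → ℂ) (i : Fin 3) (s : ℝ) (ξ : E) : ℂ :=
  ((Real.exp (-(la D ξ * cl s)) : ℝ) : ℂ) * U0 i ξ

/-- the Banach space in which the correction lives -/
abbrev X : Type := BoundedContinuousFunction (ℝ × E) (Fin 3 → ℂ)

/-- the correction attached to an element of `X` -/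
noncomputable def ZZ (lam : ℝ) (y : X) (i : Fin 3) (s : ℝ) (ξ : E) : ℂ :=
  ((Real.exp (lam * cl s) * om ξ : ℝ) : ℂ) * y (s, ξ) i

/-- the total field -/
noncomputable def FF (D : E →L[ℝ] E) (U0 : Fin 3 → E → ℂ) (lam : ℝ) (y : X) (i : Fin 3)
    (s : ℝ) (ξ : E) : ℂ := UU D U0 i s ξ + ZZ lam y i s ξ

/-- hypotheses on the initial data -/
structure Data (D : E →L[ℝ] E) (U0 : Fin 3 → E → ℂ) (A lam : ℝ) : Prop where
  cont : ∀ i, Continuous (U0 i)
  bound : ∀ i ξ, ‖U0 i ξ‖ ≤ A * om ξ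
  A_nonneg : 0 ≤ A
  lam_pos : 0 < lam
  symm : ∀ i ξ, U0 i (-ξ) = (starRingEnd ℂ) (U0 i ξ)

variable {D : E →L[ℝ] E} {U0 : Fin 3 → E → ℂ} {A lam : ℝ}

lemma exp_neg_la_le_one (ξ : E) (s : ℝ) : Real.exp (-(la D ξ * cl s)) ≤ 1 := by
  rw [Real.exp_le_one_iff]
  have := la_nonneg (D := D) ξ
  have := cl_nonneg s
  have : 0 ≤ la D ξ * cl s := by positivity
  linarith

lemma norm_UU_le (h : Data D U0 A lam) (i : Fin 3) (s : ℝ) (ξ : E) :
    ‖UU D U0 i s ξ‖ ≤ A * om ξ := by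
  unfold UU
  rw [norm_mul, Complex.norm_real, Real.norm_of_nonneg (Real.exp_pos _).le]
  calc _ ≤ 1 * (A * om ξ) := mul_le_mul (exp_neg_la_le_one ξ s) (h.bound i ξ) (norm_nonneg _)
        zero_le_one
    _ = _ := one_mul _

lemma continuous_UU (h : Data D U0 A lam) (i : Fin 3) :
    Continuous (Function.uncurry (UU D U0 i)) := by
  unfold UU Function.uncurry
  refine Continuous.mul ?_ ((h.cont i).comp continuous_snd)
  exact Complex.continuous_ofReal.comp (Real.continuous_exp.comp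
    (((continuous_la).comp continuous_snd).mul (continuous_cl.comp continuous_fst)).neg)

lemma norm_coord_le (y : X) (p : ℝ × E) (i : Fin 3) : ‖y p i‖ ≤ ‖y‖ :=
  (norm_le_pi_norm (y p) i).trans (y.norm_coe_le_norm p)

lemma norm_ZZ_le (y : X) (i : Fin 3) (s : ℝ) (ξ : E) :
    ‖ZZ lam y i s ξ‖ ≤ Real.exp (lam * cl s) * ‖y‖ * om ξ := by
  unfold ZZ
  have := om_pos ξ
  rw [norm_mul, Complex.norm_real, Real.norm_of_nonneg (by positivity)]
  calc Real.exp (lam * cl s) * om ξ * ‖y (s, ξ) i‖ ≤ Real.exp (lam * cl s) * om ξ * ‖y‖ :=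
        mul_le_mul_of_nonneg_left (norm_coord_le y _ i) (by positivity)
    _ = _ := by ring

lemma exp_cl_le (hl : 0 < lam) (s : ℝ) : Real.exp (lam * cl s) ≤ Real.exp lam := by
  apply Real.exp_le_exp.mpr
  have := cl_le_one s
  nlinarith

lemma norm_ZZ_le' (hl : 0 < lam) (y : X) (i : Fin 3) (s : ℝ) (ξ : E) :
    ‖ZZ lam y i s ξ‖ ≤ Real.exp lam * ‖y‖ * om ξ := by
  refine (norm_ZZ_le y i s ξ).trans ?_
  have := om_pos ξ
  have := exp_cl_le hl s
  gcongr

lemma continuous_ZZ (y : X) (i : Fin 3) : Continuous (Function.uncurry (ZZ lam y i)) := by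
  unfold ZZ Function.uncurry
  refine Continuous.mul ?_ ?_
  · exact Complex.continuous_ofReal.comp ((Real.continuous_exp.comp
      (continuous_const.mul (continuous_cl.comp continuous_fst))).mul
      (continuous_om.comp continuous_snd))
  · exact (continuous_apply i).comp (y.continuous.comp (continuous_fst.prodMk continuous_snd))

lemma norm_FF_le (h : Data D U0 A lam) (y : X) (i : Fin 3) (s : ℝ) (ξ : E) :
    ‖FF D U0 lam y i s ξ‖ ≤ (A + Real.exp lam * ‖y‖) * om ξ := by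
  unfold FF
  have h1 := norm_UU_le h i s ξ
  have h2 := norm_ZZ_le' h.lam_pos y i s ξ
  calc _ ≤ ‖UU D U0 i s ξ‖ + ‖ZZ lam y i s ξ‖ := norm_add_le _ _
    _ ≤ A * om ξ + Real.exp lam * ‖y‖ * om ξ := add_le_add h1 h2
    _ = _ := by ring

lemma continuous_FF (h : Data D U0 A lam) (y : X) (i : Fin 3) :
    Continuous (Function.uncurry (FF D U0 lam y i)) :=
  (continuous_UU h i).add (continuous_ZZ y i)

/-- the quadratic term evaluated at the total field -/
noncomputable def QQ (D : E →L[ℝ] E) (U0 : Fin 3 → E → ℂ) (lam : ℝ) (y : X) (i : Fin 3) :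
    ℝ → E → ℂ := NN D (FF D U0 lam y) (FF D U0 lam y) i

lemma continuous_QQ (h : Data D U0 A lam) (y : X) (i : Fin 3) :
    Continuous (fun p : ℝ × E => QQ D U0 lam y i p.1 p.2) := by
  have hB : 0 ≤ A + Real.exp lam * ‖y‖ := by have := h.A_nonneg; positivity
  exact continuous_NN hB hB (continuous_FF h y) (continuous_FF h y) (norm_FF_le h y)
    (norm_FF_le h y) i

/-- the underlying function of the fixed point map -/
noncomputable def phi (D : E →L[ℝ] E) (U0 : Fin 3 → E → ℂ) (lam : ℝ) (y : X) (p : ℝ × E)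
    (i : Fin 3) : ℂ :=
  ((Real.exp (-(lam * cl p.1)) * (om p.2)⁻¹ : ℝ) : ℂ) * DH D (QQ D U0 lam y i) (cl p.1) p.2

lemma continuous_phi (h : Data D U0 A lam) (y : X) : Continuous (phi D U0 lam y) := by
  refine continuous_pi fun i => ?_
  unfold phi
  refine Continuous.mul ?_ (continuous_DH (continuous_QQ h y i) continuous_cl)
  refine Complex.continuous_ofReal.comp (Continuous.mul ?_ ?_)
  · exact Real.continuous_exp.comp (continuous_const.mul (continuous_cl.comp continuous_fst)).neg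
  · exact (continuous_om.comp continuous_snd).inv₀ fun p => (om_pos p.2).ne'

lemma norm_weight_mul_le {x : ℂ} {p : ℝ × E} {K : ℝ}
    (h : ‖x‖ ≤ K * (Real.exp (lam * cl p.1) * om p.2)) :
    ‖((Real.exp (-(lam * cl p.1)) * (om p.2)⁻¹ : ℝ) : ℂ) * x‖ ≤ K := by
  have ho := om_pos p.2
  rw [norm_mul, Complex.norm_real, Real.norm_of_nonneg (by positivity)]
  calc Real.exp (-(lam * cl p.1)) * (om p.2)⁻¹ * ‖x‖
      ≤ Real.exp (-(lam * cl p.1)) * (om p.2)⁻¹ * (K * (Real.exp (lam * cl p.1) * om p.2)) :=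
        mul_le_mul_of_nonneg_left h (by positivity)
    _ = K * (Real.exp (-(lam * cl p.1)) * Real.exp (lam * cl p.1)) * ((om p.2)⁻¹ * om p.2) := by
        ring
    _ = K := by
        rw [← Real.exp_add, inv_mul_cancel₀ ho.ne']
        simp

lemma norm_phi_le (h : Data D U0 A lam) (y : X) (p : ℝ × E) (i : Fin 3) :
    ‖phi D U0 lam y p i‖ ≤
      36 * π * C0 * ((A + Real.exp lam * ‖y‖) * (A + Real.exp lam * ‖y‖)) / (4 * π * √lam) := by
  set B := A + Real.exp lam * ‖y‖ with hBdef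
  have hB : 0 ≤ B := by have := h.A_nonneg; positivity
  have hC := C0_nonneg
  have ho := om_pos p.2
  apply norm_weight_mul_le
  have := norm_DH_le (D := D) (N := QQ D U0 lam y i) (K := 36 * π * C0 * (B * B) * om p.2)
    (lam := lam) (τ := cl p.1) (ξ := p.2) h.lam_pos (by positivity) (cl_nonneg _) ?_
  · refine this.trans (le_of_eq ?_)
    ring
  · intro s hs
    have h1 := norm_NN_le (D := D) (s := s) hB hB (fun k ξ => norm_FF_le h y k s ξ)
      (fun k ξ => norm_FF_le h y k s ξ) i p.2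
    refine h1.trans ?_
    have h2 : (1:ℝ) ≤ Real.exp (lam * s) := by
      apply Real.one_le_exp
      have := h.lam_pos; have := hs.1; positivity
    have h3 : 0 ≤ 36 * π * C0 * (B * B) * om p.2 * ‖D p.2‖ := by positivity
    nlinarith

/-- the fixed point map -/
noncomputable def Phi (h : Data D U0 A lam) (y : X) : X :=
  BoundedContinuousFunction.ofNormedAddCommGroup (phi D U0 lam y) (continuous_phi h y)
    (36 * π * C0 * ((A + Real.exp lam * ‖y‖) * (A + Real.exp lam * ‖y‖)) / (4 * π * √lam))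
    (fun p => by
      rw [pi_norm_le_iff_of_nonneg]
      · intro i; exact norm_phi_le h y p i
      · have := C0_nonneg
        have := mul_self_nonneg (A + Real.exp lam * ‖y‖)
        positivity)

lemma Phi_apply (h : Data D U0 A lam) (y : X) (p : ℝ × E) (i : Fin 3) :
    Phi h y p i = phi D U0 lam y p i := rfl

lemma FF_sub (y₁ y₂ : X) (i : Fin 3) (s : ℝ) (ξ : E) :
    FF D U0 lam y₁ i s ξ - FF D U0 lam y₂ i s ξ = ZZ lam (y₁ - y₂) i s ξ := by
  unfold FF ZZ
  simp only [BoundedContinuousFunction.coe_sub, Pi.sub_apply]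
  ring

lemma continuous_slice {N : ℝ → E → ℂ} (hN : Continuous (fun p : ℝ × E => N p.1 p.2)) (ξ : E) :
    Continuous fun s => N s ξ :=
  hN.comp (continuous_id.prodMk continuous_const)

lemma norm_Phi_sub_le (h : Data D U0 A lam) {y₁ y₂ : X} {B : ℝ}
    (h1 : A + Real.exp lam * ‖y₁‖ ≤ B) (h2 : A + Real.exp lam * ‖y₂‖ ≤ B) :
    ‖Phi h y₁ - Phi h y₂‖ ≤ 72 * π * C0 * B / (4 * π * √lam) * ‖y₁ - y₂‖ := by
  have hC := C0_nonneg
  have hA := h.A_nonneg
  have hB : 0 ≤ B := le_trans (by positivity) h1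
  rw [BoundedContinuousFunction.norm_le (by positivity)]
  intro p
  rw [pi_norm_le_iff_of_nonneg (by positivity)]
  intro i
  have ho := om_pos p.2
  have e : (Phi h y₁ - Phi h y₂) p i = ((Real.exp (-(lam * cl p.1)) * (om p.2)⁻¹ : ℝ) : ℂ) *
      DH D (fun s ξ => QQ D U0 lam y₁ i s ξ - QQ D U0 lam y₂ i s ξ) (cl p.1) p.2 := by
    rw [← DH_sub (continuous_slice (continuous_QQ h y₁ i) p.2)
      (continuous_slice (continuous_QQ h y₂ i) p.2)]
    simp only [BoundedContinuousFunction.coe_sub, Pi.sub_apply, Phi_apply, phi]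
    ring
  rw [e]
  apply norm_weight_mul_le
  have b1 : ∀ k s ξ, ‖FF D U0 lam y₁ k s ξ‖ ≤ B * om ξ := fun k s ξ =>
    (norm_FF_le h y₁ k s ξ).trans (mul_le_mul_of_nonneg_right h1 (om_pos ξ).le)
  have b2 : ∀ k s ξ, ‖FF D U0 lam y₂ k s ξ‖ ≤ B * om ξ := fun k s ξ =>
    (norm_FF_le h y₂ k s ξ).trans (mul_le_mul_of_nonneg_right h2 (om_pos ξ).le)
  have := norm_DH_le (D := D)
    (N := fun s ξ => QQ D U0 lam y₁ i s ξ - QQ D U0 lam y₂ i s ξ)
    (K := 72 * π * C0 * B * ‖y₁ - y₂‖ * om p.2)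
    (lam := lam) (τ := cl p.1) (ξ := p.2) h.lam_pos (by positivity) (cl_nonneg _) ?_
  · refine this.trans (le_of_eq ?_)
    ring
  · intro s hs
    have hs1 : s ≤ 1 := hs.2.trans (cl_le_one _)
    have hcl : cl s = s := cl_of_mem ⟨hs.1, hs1⟩
    have c1 : ∀ k, Continuous (FF D U0 lam y₁ k s) := fun k =>
      (continuous_FF h y₁ k).uncurry_left s
    have c2 : ∀ k, Continuous (FF D U0 lam y₂ k s) := fun k =>
      (continuous_FF h y₂ k).uncurry_left s
    have key := NN_sub_sub (D := D) (s := s) c1 c2 (fun k ξ => b1 k s ξ) (fun k ξ => b2 k s ξ) i p.2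
    have hd : ∀ k ξ, ‖FF D U0 lam y₁ k s ξ - FF D U0 lam y₂ k s ξ‖
        ≤ (Real.exp (lam * s) * ‖y₁ - y₂‖) * om ξ := by
      intro k ξ
      rw [FF_sub]
      have := norm_ZZ_le (lam := lam) (y₁ - y₂) k s ξ
      rwa [hcl] at this
    have n1 := norm_NN_le (D := D) (s := s)
      (F := fun k s ξ => FF D U0 lam y₁ k s ξ - FF D U0 lam y₂ k s ξ)
      (G := FF D U0 lam y₁) (A := Real.exp (lam * s) * ‖y₁ - y₂‖) (B := B)
      (by positivity) hB hd (fun k ξ => b1 k s ξ) i p.2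
    have n2 := norm_NN_le (D := D) (s := s)
      (F := FF D U0 lam y₂)
      (G := fun k s ξ => FF D U0 lam y₁ k s ξ - FF D U0 lam y₂ k s ξ)
      (A := B) (B := Real.exp (lam * s) * ‖y₁ - y₂‖)
      hB (by positivity) (fun k ξ => b2 k s ξ) hd i p.2
    have key' : QQ D U0 lam y₁ i s p.2 - QQ D U0 lam y₂ i s p.2 = _ := key
    rw [key']
    refine (norm_add_le _ _).trans ((add_le_add n1 n2).trans (le_of_eq ?_))
    ring

/-- the symmetry making the velocity real -/
def Real' (y : X) : Prop := ∀ (s : ℝ) (ξ : E) (i : Fin 3), y (s, -ξ) i = (starRingEnd ℂ) (y (s, ξ) i)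

lemma FF_conj (h : Data D U0 A lam) {y : X} (hy : Real' y) (k : Fin 3) (s : ℝ) (ξ : E) :
    FF D U0 lam y k s (-ξ) = (starRingEnd ℂ) (FF D U0 lam y k s ξ) := by
  unfold FF UU ZZ
  rw [map_add, map_mul, map_mul, hy s ξ k, h.symm, la_neg, om_neg, Complex.conj_ofReal,
    Complex.conj_ofReal]

lemma Real'_Phi (h : Data D U0 A lam) {y : X} (hy : Real' y) : Real' (Phi h y) := by
  intro s ξ i
  rw [Phi_apply, Phi_apply]
  unfold phi
  rw [map_mul, Complex.conj_ofReal]
  simp only [om_neg]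
  congr 1
  apply DH_conj
  intro s ξ
  exact NN_conj (fun k ξ => FF_conj h hy k s ξ) i ξ

lemma isClosed_Real' : IsClosed {y : X | Real' y} := by
  have : {y : X | Real' y} = ⋂ (s : ℝ), ⋂ (ξ : E), ⋂ (i : Fin 3),
      {y : X | y (s, -ξ) i = (starRingEnd ℂ) (y (s, ξ) i)} := by
    ext y; simp [Real']
  rw [this]
  refine isClosed_iInter fun s => isClosed_iInter fun ξ => isClosed_iInter fun i => ?_
  have ev : ∀ p : ℝ × E, Continuous fun y : X => y p i := fun p =>
    (continuous_apply i).comp (continuous_eval_const p)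
  exact isClosed_eq (ev _) (Complex.continuous_conj.comp (ev _))

lemma Real'_zero : Real' 0 := by
  intro s ξ i; simp

/-- **Existence** of a small correction. -/
theorem exists_correction (h : Data D U0 A lam) {r S : ℝ} (hr0 : 0 < r)
    (hr : Real.exp lam * r ≤ 1) (hq : 72 * π * C0 * (A + 1) / (4 * π * √lam) ≤ 1 / 2)
    (hS : ∀ i, ∀ s ∈ Icc (0:ℝ) 1, ∀ ξ, ‖NN D (UU D U0) (UU D U0) i s ξ‖ ≤ S * om ξ)
    (hSr : S ≤ r / 2) :
    ∃ y : X, ‖y‖ ≤ r ∧ Real' y ∧ ∀ i, ∀ τ ∈ Icc (0:ℝ) 1, ∀ ξ,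
      ZZ lam y i τ ξ = DH D (QQ D U0 lam y i) τ ξ := by
  set s : Set X := {y : X | ‖y‖ ≤ r} ∩ {y : X | Real' y} with hs
  have hclosed : IsClosed s := (isClosed_le continuous_norm continuous_const).inter isClosed_Real'
  have hS0 : 0 ≤ S := by
    have := (norm_nonneg _).trans (hS 0 0 ⟨le_rfl, zero_le_one⟩ 0)
    have h0 := om_pos (0:E)
    by_contra hneg
    push Not at hneg
    nlinarith
  have hB : ∀ y ∈ s, A + Real.exp lam * ‖y‖ ≤ A + 1 := by
    intro y hy
    have h1 : ‖y‖ ≤ r := hy.1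
    have h2 : Real.exp lam * ‖y‖ ≤ Real.exp lam * r :=
      mul_le_mul_of_nonneg_left h1 (Real.exp_pos _).le
    linarith
  have hzero : (0 : X) ∈ s := ⟨by simpa using hr0.le, Real'_zero⟩
  have hPhi0 : ‖Phi h 0‖ ≤ r / 2 := by
    refine le_trans ?_ hSr
    rw [BoundedContinuousFunction.norm_le hS0]
    intro p
    rw [pi_norm_le_iff_of_nonneg hS0]
    intro i
    rw [Phi_apply]
    apply norm_weight_mul_le
    have hFF : FF D U0 lam (0 : X) = UU D U0 := by
      funext i s ξ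
      simp [FF, ZZ]
    have ho := om_pos p.2
    have := norm_DH_le' (D := D) (N := QQ D U0 lam 0 i) (S := S * om p.2) (τ := cl p.1) (ξ := p.2)
      (cl_nonneg _) (cl_le_one _) (by
        intro s hs
        have := hS i s ⟨hs.1, hs.2.trans (cl_le_one _)⟩ p.2
        unfold QQ
        rw [hFF]
        exact this)
    refine this.trans ?_
    have h2 : (1:ℝ) ≤ Real.exp (lam * cl p.1) := by
      apply Real.one_le_exp
      have := h.lam_pos; have := cl_nonneg p.1; positivity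
    have h3 : 0 ≤ S * om p.2 := by positivity
    nlinarith
  have hcontr : ∀ y₁ ∈ s, ∀ y₂ ∈ s, ‖Phi h y₁ - Phi h y₂‖ ≤ 1 / 2 * ‖y₁ - y₂‖ := by
    intro y₁ h1 y₂ h2
    refine (norm_Phi_sub_le h (hB y₁ h1) (hB y₂ h2)).trans ?_
    exact mul_le_mul_of_nonneg_right hq (norm_nonneg _)
  have hmaps : MapsTo (Phi h) s s := by
    intro y hy
    refine ⟨?_, Real'_Phi h hy.2⟩
    have h1 := hcontr y hy 0 hzero
    have h2 : ‖y‖ ≤ r := hy.1
    calc ‖Phi h y‖ = ‖(Phi h y - Phi h 0) + Phi h 0‖ := by simp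
      _ ≤ ‖Phi h y - Phi h 0‖ + ‖Phi h 0‖ := norm_add_le _ _
      _ ≤ 1 / 2 * ‖y - 0‖ + r / 2 := add_le_add h1 hPhi0
      _ ≤ r := by rw [sub_zero]; linarith
  have hcw : ContractingWith (1/2 : NNReal) (hmaps.restrict (Phi h) s s) := by
    refine ⟨by norm_num, LipschitzWith.of_dist_le_mul fun a b => ?_⟩
    have := hcontr a.1 a.2 b.1 b.2
    rw [Subtype.dist_eq, Subtype.dist_eq, dist_eq_norm, dist_eq_norm]
    simpa using this
  obtain ⟨y, hys, hfix, -, -⟩ := ContractingWith.exists_fixedPoint' hclosed.isComplete hmaps hcw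
    hzero (edist_ne_top _ _)
  refine ⟨y, hys.1, hys.2, fun i τ hτ ξ => ?_⟩
  have e : y (τ, ξ) i = phi D U0 lam y (τ, ξ) i := by
    have : Phi h y = y := hfix
    rw [← Phi_apply h, this]
  unfold ZZ
  rw [e]
  unfold phi
  simp only [cl_of_mem hτ]
  rw [← mul_assoc, ← Complex.ofReal_mul]
  have ho := (om_pos ξ).ne'
  have : Real.exp (lam * τ) * om ξ * (Real.exp (-(lam * τ)) * (om ξ)⁻¹) = 1 := by
    rw [mul_mul_mul_comm, ← Real.exp_add, mul_inv_cancel₀ ho]
    simp
  rw [this]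
  simp

end Pool.Agent.Helper39.NS
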