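import Pool.Agent.Helper39.NS.Main1

set_option autoImplicit false

open MeasureTheory Real Set

namespace Pool.Agent.Helper39.NS

/-- contour of exponents -/
noncomputable def zz (y : ℝ) : ℂ := (2 + Complex.I) * y

noncomputable def aa (ε : ℝ) : ℂ := ε * (1 + Complex.I) - 1

noncomputable def kk (ε κ y : ℝ) : ℂ := Complex.exp (zz y ^ 2 * aa ε - ((κ * y ^ 4 : ℝ) : ℂ))

noncomputable def Gk (κ : ℝ) (z : ℂ) (τ x : ℝ) : ℂ :=
  (((√(1 + 4 * κ * τ))⁻¹ : ℝ) : ℂ) *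
    Complex.exp ((z * x + z ^ 2 * τ - κ * x ^ 2) / ((1 + 4 * κ * τ : ℝ) : ℂ))

noncomputable def Psi (ε κ τ x : ℝ) : ℂ := ∫ y : ℝ, kk ε κ y * Gk κ (zz y) τ x

lemma zz_sq (y : ℝ) : zz y ^ 2 = (3 + 4 * Complex.I) * (y : ℂ) ^ 2 := by
  unfold zz
  linear_combination ((y:ℂ) ^ 2) * Complex.I_sq

lemma re_zz_sq_aa (ε y : ℝ) : (zz y ^ 2 * aa ε).re = -(3 + ε) * y ^ 2 := by
  rw [zz_sq]
  have : (3 + 4 * Complex.I) * (y : ℂ) ^ 2 * aa ε
      = ((-(3 + ε) * y ^ 2 : ℝ) : ℂ) + ((((7 * ε - 4) * y ^ 2 : ℝ)) : ℂ) * Complex.I := by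
    unfold aa
    push_cast
    linear_combination (4 * (y:ℂ) ^ 2 * (ε : ℂ)) * Complex.I_sq
  rw [this]
  simp only [Complex.add_re, Complex.mul_re, Complex.ofReal_re, Complex.ofReal_im,
    Complex.I_re, Complex.I_im]
  ring

lemma norm_kk (ε κ y : ℝ) : ‖kk ε κ y‖ = Real.exp (-(3 + ε) * y ^ 2 - κ * y ^ 4) := by
  unfold kk
  rw [Complex.norm_exp, Complex.sub_re, re_zz_sq_aa, Complex.ofReal_re]

lemma re_num (y τ x κ : ℝ) : (zz y * x + zz y ^ 2 * τ - κ * x ^ 2).re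
    = 2 * y * x + 3 * y ^ 2 * τ - κ * x ^ 2 := by
  rw [zz_sq]
  have : zz y * x + (3 + 4 * Complex.I) * (y : ℂ) ^ 2 * τ - κ * x ^ 2
      = ((2 * y * x + 3 * y ^ 2 * τ - κ * x ^ 2 : ℝ) : ℂ) + ((y * x + 4 * y ^ 2 * τ : ℝ) : ℂ) * Complex.I := by
    unfold zz
    push_cast
    ring
  rw [this]
  simp only [Complex.add_re, Complex.mul_re, Complex.ofReal_re, Complex.ofReal_im,
    Complex.I_re, Complex.I_im]
  ring

lemma norm_Gk (κ y τ x : ℝ) : ‖Gk κ (zz y) τ x‖ = (√(1 + 4 * κ * τ))⁻¹ *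
    Real.exp ((2 * y * x + 3 * y ^ 2 * τ - κ * x ^ 2) / (1 + 4 * κ * τ)) := by
  unfold Gk
  rw [norm_mul, Complex.norm_exp, Complex.norm_real, Real.norm_of_nonneg (by positivity),
    Complex.div_ofReal_re, re_num]

lemma norm_Gk_le {κ τ : ℝ} (hκ : 0 ≤ κ) (hτ : 0 ≤ τ) (hτ1 : τ ≤ 1) (y x : ℝ) :
    ‖Gk κ (zz y) τ x‖ ≤ Real.exp (2 * |y| * |x| + 3 * y ^ 2) := by
  rw [norm_Gk]
  have hD : 1 ≤ 1 + 4 * κ * τ := by have : 0 ≤ 4 * κ * τ := by positivity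
                                    linarith
  have h1 : (√(1 + 4 * κ * τ))⁻¹ ≤ 1 := by
    apply inv_le_one_of_one_le₀
    rw [Real.one_le_sqrt]; exact hD
  have h2 : (2 * y * x + 3 * y ^ 2 * τ - κ * x ^ 2) / (1 + 4 * κ * τ) ≤ 2 * |y| * |x| + 3 * y ^ 2 := by
    rw [div_le_iff₀ (by linarith)]
    have e1 : y * x ≤ |y| * |x| := by rw [← abs_mul]; exact le_abs_self _
    have e2 : 0 ≤ |y| * |x| := by positivity
    have e3 : 3 * y ^ 2 * τ ≤ 3 * y ^ 2 := by nlinarith [sq_nonneg y]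
    have e4 : 0 ≤ κ * x ^ 2 := by positivity
    have e5 : 2 * |y| * |x| + 3 * y ^ 2 ≤ (2 * |y| * |x| + 3 * y ^ 2) * (1 + 4 * κ * τ) := by
      have : 0 ≤ 2 * |y| * |x| + 3 * y ^ 2 := by positivity
      nlinarith
    nlinarith
  calc _ ≤ 1 * Real.exp (2 * |y| * |x| + 3 * y ^ 2) := by
        apply mul_le_mul h1 (Real.exp_le_exp.mpr h2) (Real.exp_pos _).le zero_le_one
    _ = _ := one_mul _

lemma norm_integrand_le {ε κ τ : ℝ} (hκ : 0 ≤ κ) (hτ : 0 ≤ τ) (hτ1 : τ ≤ 1) {x : ℝ} (hx : |x| ≤ 1)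
    (y : ℝ) : ‖kk ε κ y * Gk κ (zz y) τ x‖ ≤ Real.exp (2 * |y| - ε * y ^ 2) := by
  rw [norm_mul, norm_kk]
  have h := norm_Gk_le hκ hτ hτ1 y x
  calc Real.exp (-(3 + ε) * y ^ 2 - κ * y ^ 4) * ‖Gk κ (zz y) τ x‖
      ≤ Real.exp (-(3 + ε) * y ^ 2 - κ * y ^ 4) * Real.exp (2 * |y| * |x| + 3 * y ^ 2) :=
        mul_le_mul_of_nonneg_left h (Real.exp_pos _).le
    _ = Real.exp (-(3 + ε) * y ^ 2 - κ * y ^ 4 + (2 * |y| * |x| + 3 * y ^ 2)) := by
        rw [← Real.exp_add]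
    _ ≤ _ := by
        apply Real.exp_le_exp.mpr
        have e1 : 0 ≤ κ * y ^ 4 := by positivity
        have e2 : 2 * |y| * |x| ≤ 2 * |y| := by nlinarith [abs_nonneg y]
        nlinarith

lemma integrable_exp_abs_sub_sq {a : ℝ} (ha : 0 < a) :
    Integrable fun y : ℝ => Real.exp (2 * |y| - a * y ^ 2) := by
  have h := (integrable_exp_neg_mul_sq (b := a / 2) (by positivity)).const_mul (Real.exp (2 / a))
  refine h.mono' (by fun_prop : Continuous fun y : ℝ => Real.exp (2 * |y| - a * y ^ 2)).aestronglyMeasurable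
    (Filter.Eventually.of_forall fun y => ?_)
  rw [Real.norm_of_nonneg (Real.exp_pos _).le, ← Real.exp_add]
  apply Real.exp_le_exp.mpr
  have h1 : 0 ≤ (a * |y| - 2) ^ 2 := sq_nonneg _
  have h2 : |y| ^ 2 = y ^ 2 := sq_abs y
  have h3 : 2 / a * a = 2 := by field_simp
  have h4 : 0 ≤ (a * |y| - 2) ^ 2 / (2 * a) := by positivity
  have h5 : (a * |y| - 2) ^ 2 / (2 * a) = a / 2 * y ^ 2 - 2 * |y| + 2 / a := by
    rw [← h2]
    field_simp
    ring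
  linarith

lemma continuous_integrand (ε κ τ x : ℝ) : Continuous fun y => kk ε κ y * Gk κ (zz y) τ x := by
  unfold kk Gk zz
  fun_prop

/-- the compact parameter set -/
abbrev KK : Set (ℝ × ℝ × ℝ) := Icc (0:ℝ) 1 ×ˢ (Icc (0:ℝ) 1 ×ˢ Icc (-1:ℝ) 1)

lemma continuousOn_Psi {ε : ℝ} (hε : 0 < ε) :
    ContinuousOn (fun q : ℝ × ℝ × ℝ => Psi ε q.1 q.2.1 q.2.2) KK := by
  unfold Psi
  refine continuousOn_of_dominated (bound := fun y => Real.exp (2 * |y| - ε * y ^ 2)) ?_ ?_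
    (integrable_exp_abs_sub_sq hε) ?_
  · intro q _
    exact (continuous_integrand ε q.1 q.2.1 q.2.2).aestronglyMeasurable
  · rintro ⟨κ, τ, x⟩ ⟨hκ, hτ, hx⟩
    exact Filter.Eventually.of_forall fun y =>
      norm_integrand_le hκ.1 hτ.1 hτ.2 (abs_le.mpr ⟨hx.1, hx.2⟩) y
  · refine Filter.Eventually.of_forall fun y => ?_
    unfold kk Gk
    refine ContinuousOn.mul (Continuous.continuousOn (by fun_prop)) (ContinuousOn.mul ?_ ?_)
    · refine Complex.continuous_ofReal.comp_continuousOn ?_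
      refine ContinuousOn.inv₀ (Continuous.continuousOn (by fun_prop)) ?_
      rintro ⟨κ, τ, x⟩ ⟨hκ, hτ, hx⟩
      have : 0 ≤ 4 * κ * τ := by have := hκ.1; have := hτ.1; positivity
      have : 0 < √(1 + 4 * κ * τ) := Real.sqrt_pos.mpr (by linarith)
      exact this.ne'
    · refine Complex.continuous_exp.comp_continuousOn ?_
      refine ContinuousOn.div (Continuous.continuousOn (by fun_prop))
        (Continuous.continuousOn (by fun_prop)) ?_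
      rintro ⟨κ, τ, x⟩ ⟨hκ, hτ, hx⟩
      have : 0 ≤ 4 * κ * τ := by have := hκ.1; have := hτ.1; positivity
      have : (1 + 4 * κ * τ : ℝ) ≠ 0 := by linarith
      exact_mod_cast this

/-- uniform convergence as the regularisation parameter tends to zero -/
lemma Psi_close {ε : ℝ} (hε : 0 < ε) {η : ℝ} (hη : 0 < η) :
    ∃ κ : ℝ, 0 < κ ∧ κ ≤ 1 ∧ ∀ τ ∈ Icc (0:ℝ) 1, ∀ x ∈ Icc (-1:ℝ) 1,
      ‖Psi ε κ τ x - Psi ε 0 τ x‖ ≤ η := by
  have hK : IsCompact KK := isCompact_Icc.prod (isCompact_Icc.prod isCompact_Icc)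
  have huc := hK.uniformContinuousOn_of_continuous (continuousOn_Psi hε)
  rw [Metric.uniformContinuousOn_iff_le] at huc
  obtain ⟨d, hd, hclose⟩ := huc η hη
  refine ⟨min d 1, lt_min hd one_pos, min_le_right _ _, fun τ hτ x hx => ?_⟩
  have h1 : ((min d 1, τ, x) : ℝ × ℝ × ℝ) ∈ KK :=
    ⟨⟨(lt_min hd one_pos).le, min_le_right _ _⟩, hτ, hx⟩
  have h2 : ((0, τ, x) : ℝ × ℝ × ℝ) ∈ KK := ⟨⟨le_rfl, zero_le_one⟩, hτ, hx⟩
  have := hclose _ h1 _ h2 (by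
    rw [Prod.dist_eq, dist_self, max_eq_left dist_nonneg, Real.dist_eq, sub_zero,
      abs_of_pos (lt_min hd one_pos)]
    exact min_le_left _ _)
  rwa [dist_eq_norm] at this

/-! ### the frequency profile -/

noncomputable def Hk (κ : ℝ) (z : ℂ) (s : ℝ) : ℂ :=
  ((√(π / κ) : ℝ) : ℂ) * Complex.exp ((z + 2 * π * Complex.I * s) ^ 2 / ((4 * κ : ℝ) : ℂ))

noncomputable def gk (ε κ s : ℝ) : ℂ := ∫ y : ℝ, kk ε κ y * Hk κ (zz y) s

lemma re_sq (y s : ℝ) : ((zz y + 2 * π * Complex.I * s) ^ 2).re = 4 * y ^ 2 - (y + 2 * π * s) ^ 2 := by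
  have : (zz y + 2 * π * Complex.I * s) ^ 2 = ((4 * y ^ 2 - (y + 2 * π * s) ^ 2 : ℝ) : ℂ)
      + ((4 * y * (y + 2 * π * s) : ℝ) : ℂ) * Complex.I := by
    unfold zz
    push_cast
    linear_combination (((y : ℂ) + 2 * π * s) ^ 2) * Complex.I_sq
  rw [this]
  simp only [Complex.add_re, Complex.mul_re, Complex.ofReal_re, Complex.ofReal_im,
    Complex.I_re, Complex.I_im]
  ring

lemma norm_Hk_le {κ : ℝ} (hκ : 0 < κ) (y s : ℝ) :
    ‖Hk κ (zz y) s‖ ≤ √(π / κ) * (Real.exp (5 * y ^ 2 / (4 * κ)) * Real.exp (-(π ^ 2 / (2 * κ)) * s ^ 2)) := by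
  unfold Hk
  rw [norm_mul, Complex.norm_exp, Complex.norm_real, Real.norm_of_nonneg (Real.sqrt_nonneg _),
    Complex.div_ofReal_re, re_sq, ← Real.exp_add]
  apply mul_le_mul_of_nonneg_left _ (Real.sqrt_nonneg _)
  apply Real.exp_le_exp.mpr
  have h1 : -(π ^ 2 / (2 * κ)) * s ^ 2 = -(2 * π ^ 2 * s ^ 2) / (4 * κ) := by
    field_simp
    ring
  rw [h1, ← add_div]
  apply div_le_div_of_nonneg_right _ (by positivity)
  nlinarith [sq_nonneg (2 * y + 2 * π * s)]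

lemma norm_kH_le {ε κ : ℝ} (hε : 0 < ε) (hκ : 0 < κ) (y s : ℝ) :
    ‖kk ε κ y * Hk κ (zz y) s‖ ≤ (√(π / κ) * Real.exp ((5 / (4 * κ) + 1) ^ 2 / (4 * κ))) *
      (Real.exp (-(1:ℝ) * y ^ 2) * Real.exp (-(π ^ 2 / (2 * κ)) * s ^ 2)) := by
  rw [norm_mul, norm_kk]
  have h := norm_Hk_le hκ y s
  have key : -(3 + ε) * y ^ 2 - κ * y ^ 4 + 5 * y ^ 2 / (4 * κ)
      ≤ (5 / (4 * κ) + 1) ^ 2 / (4 * κ) + -(1:ℝ) * y ^ 2 := by
    have h0 : 5 * y ^ 2 / (4 * κ) = (5 / (4 * κ)) * y ^ 2 := by ring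
    rw [h0]
    set q := 5 / (4 * κ) with hq
    have h1 : 0 ≤ (2 * κ * y ^ 2 - (q + 1)) ^ 2 / (4 * κ) := by positivity
    have h2 : (2 * κ * y ^ 2 - (q + 1)) ^ 2 / (4 * κ)
        = κ * y ^ 4 - (q + 1) * y ^ 2 + (q + 1) ^ 2 / (4 * κ) := by
      field_simp
      ring
    nlinarith [sq_nonneg y, mul_nonneg hε.le (sq_nonneg y)]
  calc Real.exp (-(3 + ε) * y ^ 2 - κ * y ^ 4) * ‖Hk κ (zz y) s‖
      ≤ Real.exp (-(3 + ε) * y ^ 2 - κ * y ^ 4) *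
        (√(π / κ) * (Real.exp (5 * y ^ 2 / (4 * κ)) * Real.exp (-(π ^ 2 / (2 * κ)) * s ^ 2))) :=
        mul_le_mul_of_nonneg_left h (Real.exp_pos _).le
    _ = √(π / κ) * (Real.exp (-(3 + ε) * y ^ 2 - κ * y ^ 4 + 5 * y ^ 2 / (4 * κ)) *
          Real.exp (-(π ^ 2 / (2 * κ)) * s ^ 2)) := by
        rw [Real.exp_add]; ring
    _ ≤ √(π / κ) * (Real.exp ((5 / (4 * κ) + 1) ^ 2 / (4 * κ) + -(1:ℝ) * y ^ 2) *
          Real.exp (-(π ^ 2 / (2 * κ)) * s ^ 2)) := by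
        gcongr
    _ = _ := by rw [Real.exp_add]; ring

lemma continuous_kH (ε κ : ℝ) : Continuous fun q : ℝ × ℝ => kk ε κ q.1 * Hk κ (zz q.1) q.2 := by
  unfold kk Hk zz
  fun_prop

lemma continuous_kH_left (ε κ s : ℝ) : Continuous fun y : ℝ => kk ε κ y * Hk κ (zz y) s := by
  unfold kk Hk zz
  fun_prop

lemma continuous_kH_right (ε κ y : ℝ) : Continuous fun s : ℝ => kk ε κ y * Hk κ (zz y) s := by
  unfold kk Hk zz
  fun_prop

lemma gk_bound {ε κ : ℝ} (hε : 0 < ε) (hκ : 0 < κ) :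
    ∃ C c : ℝ, 0 ≤ C ∧ 0 < c ∧ ∀ s, ‖gk ε κ s‖ ≤ C * Real.exp (-c * s ^ 2) := by
  set B := √(π / κ) * Real.exp ((5 / (4 * κ) + 1) ^ 2 / (4 * κ)) with hB
  have hI := integrable_exp_neg_mul_sq (b := 1) one_pos
  have hpi := Real.pi_pos
  refine ⟨B * ∫ y : ℝ, Real.exp (-(1:ℝ) * y ^ 2), π ^ 2 / (2 * κ), ?_, by positivity, fun s => ?_⟩
  · have : 0 ≤ ∫ y : ℝ, Real.exp (-(1:ℝ) * y ^ 2) := integral_nonneg fun y => (Real.exp_pos _).le
    positivity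
  · unfold gk
    calc ‖∫ y : ℝ, kk ε κ y * Hk κ (zz y) s‖
        ≤ ∫ y : ℝ, (B * Real.exp (-(π ^ 2 / (2 * κ)) * s ^ 2)) * Real.exp (-(1:ℝ) * y ^ 2) := by
          refine norm_integral_le_of_norm_le (hI.const_mul _)
            (Filter.Eventually.of_forall fun y => ?_)
          refine (norm_kH_le hε hκ y s).trans (le_of_eq ?_)
          rw [← hB]; ring
      _ = _ := by rw [integral_const_mul]; ring

lemma continuous_gk {ε κ : ℝ} (hε : 0 < ε) (hκ : 0 < κ) : Continuous (gk ε κ) := by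
  unfold gk
  set B := √(π / κ) * Real.exp ((5 / (4 * κ) + 1) ^ 2 / (4 * κ)) with hB
  have hI := integrable_exp_neg_mul_sq (b := 1) one_pos
  refine continuous_of_dominated (bound := fun y => B * Real.exp (-(1:ℝ) * y ^ 2)) ?_ ?_
    (hI.const_mul _) ?_
  · intro s
    exact (continuous_kH_left ε κ s).aestronglyMeasurable
  · intro s
    refine Filter.Eventually.of_forall fun y => ?_
    refine (norm_kH_le hε hκ y s).trans ?_
    rw [← hB]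
    have h1 : Real.exp (-(π ^ 2 / (2 * κ)) * s ^ 2) ≤ 1 := by
      rw [Real.exp_le_one_iff]
      have : 0 ≤ π ^ 2 / (2 * κ) * s ^ 2 := by positivity
      linarith
    have hB0 : 0 ≤ B := by positivity
    calc B * (Real.exp (-1 * y ^ 2) * Real.exp (-(π ^ 2 / (2 * κ)) * s ^ 2))
        ≤ B * (Real.exp (-1 * y ^ 2) * 1) := by gcongr
      _ = _ := by ring
  · refine Filter.Eventually.of_forall fun y => ?_
    exact continuous_kH_right ε κ y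

end Pool.Agent.Helper39.NS
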