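import Pool.Agent.Helper39.NS.Heat1

set_option autoImplicit false

open MeasureTheory Real Set

namespace Pool.Agent.Helper39.NS

/-- the evolution factor -/
noncomputable def ev (τ x s : ℝ) : ℂ :=
  Complex.exp (((-2 * π * (x * s) : ℝ) : ℂ) * Complex.I) *
    ((Real.exp (-(4 * π ^ 2 * s ^ 2 * τ)) : ℝ) : ℂ)

lemma w1_eq (h : ℝ → ℂ) (τ x : ℝ) : w1 h τ x = ∫ s : ℝ, ev τ x s * h s := rfl

lemma norm_ev_le {τ : ℝ} (hτ : 0 ≤ τ) (x s : ℝ) : ‖ev τ x s‖ ≤ 1 := by
  unfold ev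
  rw [norm_mul, Complex.norm_exp_ofReal_mul_I, one_mul, Complex.norm_real,
    Real.norm_of_nonneg (Real.exp_pos _).le, Real.exp_le_one_iff]
  have : 0 ≤ 4 * π ^ 2 * s ^ 2 * τ := by positivity
  linarith

lemma continuous_ev (τ x : ℝ) : Continuous (ev τ x) := by unfold ev; fun_prop

lemma int_s {κ τ : ℝ} (hκ : 0 < κ) (hτ : 0 ≤ τ) (z : ℂ) (x : ℝ) :
    ∫ s : ℝ, ev τ x s * Hk κ z s = Gk κ z τ x := by
  have hpi := Real.pi_pos
  have hD : 0 < 1 + 4 * κ * τ := by positivity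
  set b : ℂ := ((-(4 * π ^ 2 * τ + π ^ 2 / κ) : ℝ) : ℂ) with hb
  set c : ℂ := -2 * π * x * Complex.I + π * Complex.I * z / κ with hc
  set d : ℂ := z ^ 2 / (4 * κ) with hd
  have hbre : b.re < 0 := by
    rw [hb, Complex.ofReal_re]
    have : 0 < 4 * π ^ 2 * τ + π ^ 2 / κ := by positivity
    linarith
  have hκC : (κ : ℂ) ≠ 0 := by exact_mod_cast hκ.ne'
  have hpiC : (π : ℂ) ≠ 0 := by exact_mod_cast hpi.ne'
  have hDC : ((1:ℂ) + 4 * κ * τ) ≠ 0 := by exact_mod_cast hD.ne'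
  have e : ∀ s : ℝ, ev τ x s * Hk κ z s
      = ((√(π / κ) : ℝ) : ℂ) * Complex.exp (b * s ^ 2 + c * s + d) := by
    intro s
    unfold ev Hk
    rw [Complex.ofReal_exp]
    have assoc4 : ∀ p q r t : ℂ, p * q * (r * t) = r * (p * q * t) := by intros; ring
    rw [assoc4, ← Complex.exp_add, ← Complex.exp_add]
    congr 2
    rw [hb, hc, hd]
    push_cast
    field_simp
    linear_combination (4 * (s:ℂ)^2 * π^2) * Complex.I_sq
  simp_rw [e]
  rw [integral_const_mul, integral_cexp_quadratic hbre]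
  have h1 : (π : ℂ) / -b = ((κ / (π * (1 + 4 * κ * τ)) : ℝ) : ℂ) := by
    rw [hb]
    push_cast
    field_simp
    ring
  have h2 : d - c ^ 2 / (4 * b) = (z * x + z ^ 2 * τ - κ * x ^ 2) / ((1 + 4 * κ * τ : ℝ) : ℂ) := by
    have hb' : b = -(π ^ 2 * (1 + 4 * κ * τ) / κ) := by
      rw [hb]; push_cast; field_simp; ring
    have hc' : c ^ 2 = -(π ^ 2 * (z / κ - 2 * x) ^ 2) := by
      rw [hc]
      linear_combination ((π:ℂ) ^ 2 * (z / κ - 2 * x) ^ 2) * Complex.I_sq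
    rw [hb', hc', hd]
    push_cast
    field_simp
    ring
  have h3 : ((√(π / κ) : ℝ) : ℂ) * ((π : ℂ) / -b) ^ (1 / 2 : ℂ) = (((√(1 + 4 * κ * τ))⁻¹ : ℝ) : ℂ) := by
    rw [h1]
    have : ((κ / (π * (1 + 4 * κ * τ)) : ℝ) : ℂ) ^ (1 / 2 : ℂ)
        = ((√(κ / (π * (1 + 4 * κ * τ))) : ℝ) : ℂ) := by
      rw [Real.sqrt_eq_rpow, Complex.ofReal_cpow (by positivity)]
      norm_num
    rw [this, ← Complex.ofReal_mul, ← Real.sqrt_mul (by positivity)]
    congr 1
    rw [← Real.sqrt_inv]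
    congr 1
    field_simp
  rw [h2, ← mul_assoc, h3]
  rfl

lemma w1_gk {ε κ τ : ℝ} (hε : 0 < ε) (hκ : 0 < κ) (hτ : 0 ≤ τ) (x : ℝ) :
    w1 (gk ε κ) τ x = Psi ε κ τ x := by
  rw [w1_eq]
  unfold gk Psi
  have hpi := Real.pi_pos
  set B := √(π / κ) * Real.exp ((5 / (4 * κ) + 1) ^ 2 / (4 * κ)) with hB
  have hI := integrable_exp_neg_mul_sq (b := 1) one_pos
  have hJ := integrable_exp_neg_mul_sq (b := π ^ 2 / (2 * κ)) (by positivity)
  have e1 : ∀ s : ℝ, ev τ x s * ∫ y : ℝ, kk ε κ y * Hk κ (zz y) s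
      = ∫ y : ℝ, ev τ x s * (kk ε κ y * Hk κ (zz y) s) := fun s => (integral_const_mul _ _).symm
  simp_rw [e1]
  rw [integral_integral_swap]
  · congr 1; funext y
    have e2 : ∀ s : ℝ, ev τ x s * (kk ε κ y * Hk κ (zz y) s) = kk ε κ y * (ev τ x s * Hk κ (zz y) s) := by
      intro s; ring
    simp_rw [e2]
    rw [integral_const_mul, int_s hκ hτ]
  · have hint := (hJ.mul_prod hI).const_mul B
    refine hint.mono' ?_ (Filter.Eventually.of_forall fun q => ?_)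
    · have : Continuous fun q : ℝ × ℝ => ev τ x q.1 * (kk ε κ q.2 * Hk κ (zz q.2) q.1) := by
        unfold ev kk Hk zz
        fun_prop
      exact this.aestronglyMeasurable
    · rw [Function.uncurry, norm_mul]
      calc ‖ev τ x q.1‖ * ‖kk ε κ q.2 * Hk κ (zz q.2) q.1‖
          ≤ 1 * (B * (Real.exp (-(1:ℝ) * q.2 ^ 2) * Real.exp (-(π ^ 2 / (2 * κ)) * q.1 ^ 2))) :=
            mul_le_mul (norm_ev_le hτ x q.1) (norm_kH_le hε hκ q.2 q.1) (norm_nonneg _) zero_le_one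
        _ = _ := by ring

/-- hermitian profile whose caloric function is `Re (θ Ψ)` -/
noncomputable def hk (θ : ℂ) (ε κ s : ℝ) : ℂ :=
  (θ * gk ε κ s + (starRingEnd ℂ) (θ * gk ε κ (-s))) / 2

lemma good_hk {ε κ : ℝ} (hε : 0 < ε) (hκ : 0 < κ) (θ : ℂ) : Good (hk θ ε κ) := by
  have hc := continuous_gk hε hκ
  obtain ⟨C, c, hC, hc0, hb⟩ := gk_bound hε hκ
  refine ⟨?_, ?_, ‖θ‖ * C, c, by positivity, hc0, ?_⟩
  · unfold hk
    refine Continuous.div_const ?_ 2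
    exact (continuous_const.mul hc).add
      (Complex.continuous_conj.comp (continuous_const.mul (hc.comp continuous_neg)))
  · intro s
    unfold hk
    simp only [neg_neg, map_div₀, map_add, map_mul, Complex.conj_conj]
    have : (starRingEnd ℂ) 2 = 2 := Complex.conj_ofNat 2
    rw [this]
    ring
  · intro s
    unfold hk
    have h1 := hb s
    have h2 := hb (-s)
    rw [neg_sq] at h2
    rw [norm_div]
    have h3 : ‖θ * gk ε κ s + (starRingEnd ℂ) (θ * gk ε κ (-s))‖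
        ≤ ‖θ‖ * (C * Real.exp (-c * s ^ 2)) + ‖θ‖ * (C * Real.exp (-c * s ^ 2)) := by
      refine (norm_add_le _ _).trans ?_
      rw [RCLike.norm_conj, norm_mul, norm_mul]
      gcongr
    rw [div_le_iff₀ (by simp)]
    simp only [Complex.norm_ofNat]
    linarith

lemma integrable_ev_gk {ε κ τ : ℝ} (hε : 0 < ε) (hκ : 0 < κ) (hτ : 0 ≤ τ) (x : ℝ) :
    Integrable fun s => ev τ x s * gk ε κ s := by
  obtain ⟨C, c, hC, hc0, hb⟩ := gk_bound hε hκ
  refine ((integrable_exp_neg_mul_sq hc0).const_mul C).mono'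
    ((continuous_ev τ x).mul (continuous_gk hε hκ)).aestronglyMeasurable
    (Filter.Eventually.of_forall fun s => ?_)
  rw [norm_mul]
  calc ‖ev τ x s‖ * ‖gk ε κ s‖ ≤ 1 * (C * Real.exp (-c * s ^ 2)) :=
        mul_le_mul (norm_ev_le hτ x s) (hb s) (norm_nonneg _) zero_le_one
    _ = _ := one_mul _

lemma ev_neg (τ x s : ℝ) : ev τ x (-s) = (starRingEnd ℂ) (ev τ x s) := by
  unfold ev
  rw [map_mul, ← Complex.exp_conj, map_mul, Complex.conj_ofReal, Complex.conj_ofReal, Complex.conj_I]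
  congr 2
  · push_cast; ring
  · rw [neg_sq]

lemma w1_hk {ε κ τ : ℝ} (hε : 0 < ε) (hκ : 0 < κ) (hτ : 0 ≤ τ) (θ : ℂ) (x : ℝ) :
    w1 (hk θ ε κ) τ x = (((θ * Psi ε κ τ x).re : ℝ) : ℂ) := by
  have hi := integrable_ev_gk hε hκ hτ x
  have hi1 : Integrable fun s => θ * (ev τ x s * gk ε κ s) := hi.const_mul θ
  have hi2 : Integrable fun s => (starRingEnd ℂ) (θ * (ev τ x (-s) * gk ε κ (-s))) := by
    have := hi1.comp_neg
    exact (Complex.conjLIE.integrable_comp_iff).mpr this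
  have e : ∀ s, ev τ x s * hk θ ε κ s = (θ * (ev τ x s * gk ε κ s)
      + (starRingEnd ℂ) (θ * (ev τ x (-s) * gk ε κ (-s)))) / 2 := by
    intro s
    unfold hk
    rw [ev_neg]
    simp only [map_mul, Complex.conj_conj]
    ring
  rw [w1_eq]
  simp_rw [e]
  rw [integral_div, integral_add hi1 hi2, integral_const_mul, ← w1_eq, w1_gk hε hκ hτ,
    integral_conj, integral_neg_eq_self (fun s => θ * (ev τ x s * gk ε κ s)),
    integral_const_mul, ← w1_eq, w1_gk hε hκ hτ, Complex.add_conj]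
  push_cast
  ring

/-! ### exact formulas at `κ = 0` -/

lemma Psi_zero_eq {ε τ : ℝ} (hε : 0 < ε) (hτ : τ ≤ 1) (x : ℝ) :
    Psi ε 0 τ x = ((π : ℂ) / -((3 + 4 * Complex.I) * (τ + aa ε))) ^ (1 / 2 : ℂ) *
      Complex.exp (-(((2 + Complex.I) * x) ^ 2 / (4 * ((3 + 4 * Complex.I) * (τ + aa ε))))) := by
  unfold Psi
  have hb : ((3 + 4 * Complex.I) * (τ + aa ε)).re < 0 := by
    have : (3 + 4 * Complex.I) * (τ + aa ε) = ((3 * τ - 3 - ε : ℝ) : ℂ) +
        ((4 * τ + 7 * ε - 4 : ℝ) : ℂ) * Complex.I := by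
      unfold aa
      push_cast
      linear_combination (4 * (ε:ℂ)) * Complex.I_sq
    rw [this]
    simp only [Complex.add_re, Complex.mul_re, Complex.ofReal_re, Complex.ofReal_im,
      Complex.I_re, Complex.I_im]
    linarith
  have e : ∀ y : ℝ, kk ε 0 y * Gk 0 (zz y) τ x
      = Complex.exp (((3 + 4 * Complex.I) * (τ + aa ε)) * y ^ 2 + ((2 + Complex.I) * x) * y + 0) := by
    intro y
    unfold kk Gk
    simp only [zero_mul, mul_zero, add_zero, Real.sqrt_one, inv_one, Complex.ofReal_one, one_mul,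
      div_one, Complex.ofReal_zero, sub_zero]
    rw [← Complex.exp_add, zz_sq]
    congr 1
    unfold zz
    ring
  simp_rw [e]
  rw [integral_cexp_quadratic hb, zero_sub]

lemma sq_cpow_half (w : ℂ) : (w ^ (1 / 2 : ℂ)) ^ 2 = w := by
  have := Complex.cpow_nat_inv_pow w (n := 2) (by norm_num)
  norm_num at this ⊢
  exact this

/-- formula at the final time -/
lemma Psi_final {ε : ℝ} (hε : 0 < ε) : ∃ q : ℂ, q ^ 2 = (π : ℂ) / ((ε : ℂ) * (1 - 7 * Complex.I)) ∧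
    ∀ x : ℝ, Psi ε 0 1 x = q * Complex.exp (-((x ^ 2 / (8 * ε) : ℝ) : ℂ) * (1 - Complex.I)) := by
  have hεC : (ε : ℂ) ≠ 0 := by exact_mod_cast hε.ne'
  have hb : (3 + 4 * Complex.I) * (((1:ℝ):ℂ) + aa ε) = (ε : ℂ) * (-1 + 7 * Complex.I) := by
    unfold aa
    push_cast
    linear_combination (4 * (ε:ℂ)) * Complex.I_sq
  refine ⟨((π : ℂ) / -((3 + 4 * Complex.I) * (((1:ℝ):ℂ) + aa ε))) ^ (1 / 2 : ℂ), ?_, fun x => ?_⟩
  · rw [sq_cpow_half, hb]
    congr 1
    ring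
  · rw [Psi_zero_eq hε le_rfl x, hb]
    congr 2
    have h7 : (-1 + 7 * Complex.I : ℂ) ≠ 0 := by
      intro h
      have := congrArg Complex.re h
      simp at this
    have hsq : ((2 + Complex.I) * x : ℂ) ^ 2 = (3 + 4 * Complex.I) * x ^ 2 := by
      linear_combination ((x:ℂ) ^ 2) * Complex.I_sq
    have h34 : (3 + 4 * Complex.I : ℂ) = (1 - Complex.I) / 2 * (-1 + 7 * Complex.I) := by
      linear_combination (7 / 2 : ℂ) * Complex.I_sq
    rw [hsq, h34]
    generalize (-1 + 7 * Complex.I : ℂ) = w at h7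
    push_cast
    field_simp
    ring

/-- formula at the wild time -/
lemma Psi_wild {ε : ℝ} (hε : 0 < ε) : ∃ q : ℂ, ‖q‖ ^ 2 = π / (5 * ε) ∧
    ∀ x : ℝ, ‖Psi ε 0 (1 - ε) x‖ = ‖q‖ := by
  have hεC : (ε : ℂ) ≠ 0 := by exact_mod_cast hε.ne'
  have hpi := Real.pi_pos
  have hb : (3 + 4 * Complex.I) * (((1 - ε:ℝ):ℂ) + aa ε) = (ε : ℂ) * (-4 + 3 * Complex.I) := by
    unfold aa
    push_cast
    linear_combination (4 * (ε:ℂ)) * Complex.I_sq
  refine ⟨((π : ℂ) / -((3 + 4 * Complex.I) * (((1 - ε:ℝ):ℂ) + aa ε))) ^ (1 / 2 : ℂ), ?_, fun x => ?_⟩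
  · rw [← norm_pow, sq_cpow_half, hb, norm_div, norm_neg, norm_mul, Complex.norm_real,
      Complex.norm_real, Real.norm_of_nonneg hpi.le, Real.norm_of_nonneg hε.le]
    have : ‖(-4 + 3 * Complex.I : ℂ)‖ = 5 := by
      rw [Complex.norm_def, Complex.normSq_apply]
      simp only [Complex.add_re, Complex.neg_re, Complex.mul_re, Complex.add_im, Complex.neg_im,
        Complex.mul_im, Complex.I_re, Complex.I_im]
      norm_num
    rw [this]
    ring
  · rw [Psi_zero_eq hε (by linarith) x, norm_mul, hb, Complex.norm_exp]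
    have h4 : (-4 + 3 * Complex.I : ℂ) ≠ 0 := by
      intro h
      have := congrArg Complex.re h
      simp at this
    have hsq : ((2 + Complex.I) * x : ℂ) ^ 2 = (3 + 4 * Complex.I) * x ^ 2 := by
      linear_combination ((x:ℂ) ^ 2) * Complex.I_sq
    have h34 : (3 + 4 * Complex.I : ℂ) = (-Complex.I) * (-4 + 3 * Complex.I) := by
      linear_combination (3 : ℂ) * Complex.I_sq
    have : -(((2 + Complex.I) * x : ℂ) ^ 2 / (4 * ((ε : ℂ) * (-4 + 3 * Complex.I))))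
        = ((x ^ 2 / (4 * ε) : ℝ) : ℂ) * Complex.I := by
      rw [hsq, h34]
      generalize (-4 + 3 * Complex.I : ℂ) = w at h4
      push_cast
      field_simp
    rw [this]
    generalize x ^ 2 / (4 * ε) = r
    simp

end Pool.Agent.Helper39.NS
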