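import Pool.Agent.Helper39.NS.Heat2

set_option autoImplicit false

open MeasureTheory Real Set

namespace Pool.Agent.Helper39.NS

/-- the closed unit ball -/
abbrev CB : Set E := Metric.closedBall (0:E) 1

/-- volume of the unit ball -/
noncomputable def Vb : ℝ := volume.real CB

lemma Vb_pos : 0 < Vb := by
  unfold Vb
  rw [measureReal_def]
  apply ENNReal.toReal_pos
  · exact (Metric.measure_closedBall_pos volume (0:E) one_pos).ne'
  · exact measure_closedBall_lt_top.ne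

noncomputable def Ca (a : ℝ) : ℝ := ∫ y : ℝ, Real.exp (2 * |y| - a * y ^ 2)

lemma Ca_nonneg (a : ℝ) : 0 ≤ Ca a := integral_nonneg fun _ => (Real.exp_pos _).le

lemma Psi_early {ε τ τ₀ : ℝ} (hε : 0 < ε) (hτ : τ ≤ τ₀) (hτ₀ : τ₀ < 1) {x : ℝ} (hx : |x| ≤ 1) :
    ‖Psi ε 0 τ x‖ ≤ Ca (3 * (1 - τ₀)) := by
  unfold Psi Ca
  refine norm_integral_le_of_norm_le (integrable_exp_abs_sub_sq (by linarith))
    (Filter.Eventually.of_forall fun y => ?_)
  rw [norm_mul, norm_kk, norm_Gk]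
  simp only [mul_zero, zero_mul, add_zero, Real.sqrt_one, inv_one, one_mul, div_one, sub_zero]
  rw [← Real.exp_add]
  apply Real.exp_le_exp.mpr
  have h1 : y * x ≤ |y| * 1 := by
    calc y * x ≤ |y * x| := le_abs_self _
      _ = |y| * |x| := abs_mul _ _
      _ ≤ _ := by gcongr
  have h2 : 0 ≤ (τ₀ - τ) * y ^ 2 := mul_nonneg (by linarith) (sq_nonneg y)
  nlinarith [sq_nonneg y, mul_nonneg hε.le (sq_nonneg y)]

/-- quantitative information on the final profile -/
lemma Psi_final_bounds {ε : ℝ} (hε : 0 < ε) :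
    (∀ x : ℝ, ‖Psi ε 0 1 x‖ ≤ (√ε)⁻¹ * Real.exp (-(1 / (8 * ε)) * x ^ 2)) ∧
    (√ε)⁻¹ / 4 ≤ |(Psi ε 0 1 0).re| ∧ (√ε)⁻¹ / 4 ≤ |(Psi ε 0 1 0).im| := by
  obtain ⟨q, hq, hP⟩ := Psi_final hε
  have hpi3 := Real.pi_gt_d2
  have hpi4 := Real.pi_lt_d2
  have hs : 0 < √ε := Real.sqrt_pos.mpr hε
  have hss : √ε * √ε = ε := Real.mul_self_sqrt hε.le
  have hεC : (ε : ℂ) ≠ 0 := by exact_mod_cast hε.ne'
  have h17 : (1 - 7 * Complex.I : ℂ) ≠ 0 := by
    intro h
    have := congrArg Complex.re h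
    simp at this
  have hq' : q ^ 2 = ((π / (50 * ε) : ℝ) : ℂ) + ((7 * π / (50 * ε) : ℝ) : ℂ) * Complex.I := by
    rw [hq]
    rw [div_eq_iff (mul_ne_zero hεC h17)]
    push_cast
    field_simp
    linear_combination (49 : ℂ) * Complex.I_sq
  have hre : q.re ^ 2 - q.im ^ 2 = π / (50 * ε) := by
    have := congrArg Complex.re hq'
    simp only [sq, Complex.mul_re, Complex.add_re, Complex.ofReal_re, Complex.ofReal_im,
      Complex.I_re, Complex.I_im] at this
    nlinarith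
  have him : 2 * q.re * q.im = 7 * π / (50 * ε) := by
    have := congrArg Complex.im hq'
    simp only [sq, Complex.mul_im, Complex.add_im, Complex.ofReal_re, Complex.ofReal_im,
      Complex.I_re, Complex.I_im] at this
    nlinarith
  set m := π / (50 * ε) with hm
  have hm0 : 0 < m := by positivity
  have him' : 2 * q.re * q.im = 7 * m := by rw [him, hm]; ring
  have hm16 : 1 / (16 * ε) ≤ m := by
    rw [hm, div_le_div_iff₀ (by positivity) (by positivity)]
    nlinarith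
  have hsq : (2 * q.re * q.im) ^ 2 = 49 * m ^ 2 := by rw [him']; ring
  have hsum : (q.re ^ 2 + q.im ^ 2) ^ 2 = 50 * m ^ 2 := by
    have : (q.re ^ 2 + q.im ^ 2) ^ 2 = (q.re ^ 2 - q.im ^ 2) ^ 2 + (2 * q.re * q.im) ^ 2 := by ring
    rw [this, hre, hsq]; ring
  have hle8 : q.re ^ 2 + q.im ^ 2 ≤ 8 * m := by
    by_contra hcon
    push Not at hcon
    nlinarith
  have hge7 : 7 * m ≤ q.re ^ 2 + q.im ^ 2 := by
    by_contra hcon
    push Not at hcon
    have : 0 ≤ q.re ^ 2 + q.im ^ 2 := by positivity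
    nlinarith
  have him2 : m ≤ q.im ^ 2 := by nlinarith
  have hre2 : m ≤ q.re ^ 2 := by nlinarith
  have hquarter : ((√ε)⁻¹ / 4) ^ 2 ≤ m := by
    refine le_trans (le_of_eq ?_) hm16
    have : (√ε) ^ 2 = ε := Real.sq_sqrt hε.le
    rw [div_pow, inv_pow, this]
    field_simp
    norm_num
  have hnormq : ‖q‖ ≤ (√ε)⁻¹ := by
    rw [← sq_le_sq₀ (norm_nonneg _) (by positivity), ← Complex.normSq_eq_norm_sq,
      Complex.normSq_apply, inv_pow, Real.sq_sqrt hε.le]
    have : 8 * m ≤ ε⁻¹ := by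
      rw [hm]
      rw [← one_div, mul_div_assoc', div_le_div_iff₀ (by positivity) hε]
      nlinarith
    nlinarith
  refine ⟨fun x => ?_, ?_, ?_⟩
  · rw [hP x, norm_mul, Complex.norm_exp]
    have : (-((x ^ 2 / (8 * ε) : ℝ) : ℂ) * (1 - Complex.I)).re = -(1 / (8 * ε)) * x ^ 2 := by
      simp only [Complex.mul_re, Complex.neg_re, Complex.ofReal_re, Complex.sub_re, Complex.one_re,
        Complex.I_re, Complex.neg_im, Complex.ofReal_im, Complex.sub_im, Complex.one_im, Complex.I_im]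
      ring
    rw [this]
    exact mul_le_mul_of_nonneg_right hnormq (Real.exp_pos _).le
  · have h0 : Psi ε 0 1 0 = q := by rw [hP 0]; simp
    rw [h0]
    apply abs_le_of_sq_le_sq' _ (abs_nonneg _) |>.2
    rw [sq_abs]
    exact hquarter.trans hre2
  · have h0 : Psi ε 0 1 0 = q := by rw [hP 0]; simp
    rw [h0]
    apply abs_le_of_sq_le_sq' _ (abs_nonneg _) |>.2
    rw [sq_abs]
    exact hquarter.trans him2

lemma Psi_wild_bound {ε : ℝ} (hε : 0 < ε) (x : ℝ) :
    (√ε)⁻¹ / 2 ≤ ‖Psi ε 0 (1 - ε) x‖ := by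
  obtain ⟨q, hq, hP⟩ := Psi_wild hε
  rw [hP x]
  have hpi3 := Real.pi_gt_d2
  have hs : 0 < √ε := Real.sqrt_pos.mpr hε
  rw [← sq_le_sq₀ (by positivity) (norm_nonneg _), hq, div_pow, inv_pow, Real.sq_sqrt hε.le]
  rw [← one_div, div_div, div_le_div_iff₀ (by positivity) (by positivity)]
  nlinarith

lemma continuous_Psi_slice {ε τ : ℝ} (hε : 0 < ε) (hτ : τ ≤ 1) :
    Continuous fun x : ℝ => Psi ε 0 τ x := by
  have : (fun x : ℝ => Psi ε 0 τ x) = fun x : ℝ =>
      ((π : ℂ) / -((3 + 4 * Complex.I) * (τ + aa ε))) ^ (1 / 2 : ℂ) *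
      Complex.exp (-(((2 + Complex.I) * x) ^ 2 / (4 * ((3 + 4 * Complex.I) * (τ + aa ε))))) := by
    funext x; exact Psi_zero_eq hε hτ x
  rw [this]
  fun_prop

/-! ### integrals over the ball -/

lemma setIntegral_gauss_le {a : ℝ} (ha : 0 < a) :
    ∫ x in CB, Real.exp (-a * (x 0) ^ 2) ≤ 4 * √(π / a) := by
  have hprod := integral_prod3 (𝕜 := ℝ) (fun s => Real.exp (-a * s ^ 2))
    ((Icc (-1:ℝ) 1).indicator (fun _ => (1:ℝ))) ((Icc (-1:ℝ) 1).indicator (fun _ => (1:ℝ)))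
  have hone : ∫ s, (Icc (-1:ℝ) 1).indicator (fun _ => (1:ℝ)) s = 2 := by
    rw [integral_indicator measurableSet_Icc]
    simp
    norm_num
  rw [integral_gaussian, hone] at hprod
  have hint : Integrable fun x : E => Real.exp (-a * (x 0) ^ 2) *
      (Icc (-1:ℝ) 1).indicator (fun _ => (1:ℝ)) (x 1) *
      (Icc (-1:ℝ) 1).indicator (fun _ => (1:ℝ)) (x 2) := by
    by_contra hcon
    rw [integral_undef hcon] at hprod
    have hs : 0 < √(π / a) := Real.sqrt_pos.mpr (by positivity)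
    linarith
  have hle : ∫ x in CB, Real.exp (-a * (x 0) ^ 2) ≤ ∫ x : E, Real.exp (-a * (x 0) ^ 2) *
      (Icc (-1:ℝ) 1).indicator (fun _ => (1:ℝ)) (x 1) *
      (Icc (-1:ℝ) 1).indicator (fun _ => (1:ℝ)) (x 2) := by
    rw [← integral_indicator Metric.isClosed_closedBall.measurableSet]
    apply integral_mono_of_nonneg
    · exact Filter.Eventually.of_forall fun x => Set.indicator_nonneg (fun _ _ => (Real.exp_pos _).le) x
    · exact hint
    · refine Filter.Eventually.of_forall fun x => ?_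
      by_cases hx : x ∈ CB
      · have hn : ‖x‖ ≤ 1 := by simpa using hx
        have hk : ∀ k : Fin 3, x k ∈ Icc (-1:ℝ) 1 := fun k => by
          have h1 : |x k| ≤ ‖x‖ := by simpa using PiLp.norm_apply_le x k
          exact abs_le.mp (h1.trans hn)
        simp only [Set.indicator_of_mem hx, Set.indicator_of_mem (hk 1), Set.indicator_of_mem (hk 2)]
        simp
      · simp only [Set.indicator_of_notMem hx]
        have h1 : ∀ s : ℝ, 0 ≤ (Icc (-1:ℝ) 1).indicator (fun _ => (1:ℝ)) s := fun s =>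
          Set.indicator_nonneg (fun _ _ => zero_le_one) s
        have := h1 (x 1)
        have := h1 (x 2)
        positivity
  linarith

end Pool.Agent.Helper39.NS
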