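import Pool.Agent.Helper39.NS.Synth

set_option autoImplicit false

open MeasureTheory Real Set

namespace Pool.Agent.Helper39.NS

variable {D : E →L[ℝ] E}

/-- the multiplier of minus the Laplacian -/
noncomputable def la (D : E →L[ℝ] E) (ξ : E) : ℝ := 4 * π ^ 2 * ‖D ξ‖ ^ 2

lemma la_nonneg (ξ : E) : 0 ≤ la D ξ := by unfold la; positivity

lemma continuous_la : Continuous (la D) := by unfold la; fun_prop

lemma la_neg (ξ : E) : la D (-ξ) = la D ξ := by simp [la]

/-- entries of the Leray projector -/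
noncomputable def pr (D : E →L[ℝ] E) (i j : Fin 3) (ξ : E) : ℝ :=
  (if i = j then 1 else 0) - (D ξ) i * (D ξ) j / ‖D ξ‖ ^ 2

lemma pr_neg (i j : Fin 3) (ξ : E) : pr D i j (-ξ) = pr D i j ξ := by simp [pr]

lemma abs_coord_mul_le (v : E) (i j : Fin 3) : |v i * v j / ‖v‖ ^ 2| ≤ 1 := by
  rw [abs_div, abs_of_nonneg (by positivity : (0:ℝ) ≤ ‖v‖ ^ 2), abs_mul]
  have h1 : |v i| ≤ ‖v‖ := by simpa using PiLp.norm_apply_le v i
  have h2 : |v j| ≤ ‖v‖ := by simpa using PiLp.norm_apply_le v j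
  apply div_le_one_of_le₀ _ (by positivity)
  rw [sq]
  exact mul_le_mul h1 h2 (abs_nonneg _) (norm_nonneg _)

lemma abs_pr_le (i j : Fin 3) (ξ : E) : |pr D i j ξ| ≤ 2 := by
  unfold pr
  have h := abs_coord_mul_le (D ξ) i j
  have h2 : |(if i = j then (1:ℝ) else 0)| ≤ 1 := by split_ifs <;> simp
  calc _ ≤ |(if i = j then (1:ℝ) else 0)| + |(D ξ) i * (D ξ) j / ‖D ξ‖ ^ 2| := abs_sub _ _
    _ ≤ _ := by linarith

lemma measurable_pr (i j : Fin 3) : Measurable (pr D i j) := by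
  unfold pr
  have h : ∀ k : Fin 3, Measurable fun ξ : E => (D ξ) k := fun k =>
    (by fun_prop : Continuous fun ξ : E => (D ξ) k).measurable
  have h' : Measurable fun ξ : E => ‖D ξ‖ ^ 2 :=
    (by fun_prop : Continuous fun ξ : E => ‖D ξ‖ ^ 2).measurable
  exact measurable_const.sub (((h i).mul (h j)).div h')

/-- multiplier in the nonlinearity -/
noncomputable def lr (D : E →L[ℝ] E) (i j k : Fin 3) (ξ : E) : ℂ :=
  -((pr D i j ξ : ℝ) : ℂ) * sy D k ξ

lemma norm_lr_le (i j k : Fin 3) (ξ : E) : ‖lr D i j k ξ‖ ≤ 4 * π * ‖D ξ‖ := by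
  unfold lr
  rw [norm_mul, norm_neg, Complex.norm_real, Real.norm_eq_abs]
  have h1 := abs_pr_le (D := D) i j ξ
  have h2 := norm_sy_le (D := D) k ξ
  calc |pr D i j ξ| * ‖sy D k ξ‖ ≤ 2 * (2 * π * ‖D ξ‖) :=
        mul_le_mul h1 h2 (norm_nonneg _) (by norm_num)
    _ = _ := by ring

lemma continuous_lr (i j k : Fin 3) : Continuous (lr D i j k) := by
  rw [continuous_iff_continuousAt]
  intro ξ
  by_cases h : D ξ = 0
  · have h0 : lr D i j k ξ = 0 := by
      have := norm_lr_le (D := D) i j k ξ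
      rw [h] at this
      simpa using this
    rw [ContinuousAt, h0]
    apply squeeze_zero_norm (a := fun ξ => 4 * π * ‖D ξ‖) (fun ξ => norm_lr_le i j k ξ)
    have : Continuous fun ξ : E => 4 * π * ‖D ξ‖ := by fun_prop
    have := this.tendsto ξ
    simpa [h] using this
  · unfold lr
    refine ContinuousAt.mul ?_ (continuous_sy k).continuousAt
    refine ContinuousAt.neg ?_
    refine Complex.continuous_ofReal.continuousAt.comp ?_
    unfold pr
    refine continuousAt_const.sub ?_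
    refine ContinuousAt.div ?_ ?_ ?_
    · exact (by fun_prop : Continuous fun ξ : E => (D ξ) i * (D ξ) j).continuousAt
    · exact (by fun_prop : Continuous fun ξ : E => ‖D ξ‖ ^ 2).continuousAt
    · simpa using h

lemma sy_neg (k : Fin 3) (ξ : E) : sy D k (-ξ) = (starRingEnd ℂ) (sy D k ξ) := by
  unfold sy
  rw [map_mul, Complex.conj_ofReal, Complex.conj_I]
  simp

lemma lr_neg (i j k : Fin 3) (ξ : E) : lr D i j k (-ξ) = (starRingEnd ℂ) (lr D i j k ξ) := by
  unfold lr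
  rw [sy_neg, pr_neg]
  simp

lemma mult_pr (i j : Fin 3) : Mult (fun ξ => ((pr D i j ξ : ℝ) : ℂ)) :=
  Mult.of_le (k := 0) (C := 2) (Complex.measurable_ofReal.comp (measurable_pr i j)) (by norm_num)
    (fun ξ => by
      rw [Complex.norm_real, Real.norm_eq_abs]
      simpa using abs_pr_le (D := D) i j ξ)

lemma mult_lr (i j k : Fin 3) : Mult (lr D i j k) := by
  have := ((Mult.const (-1)).mul (mult_pr (D := D) i j)).mul (mult_sy (D := D) k)
  have e : lr D i j k = fun ξ => -1 * ((pr D i j ξ : ℝ) : ℂ) * sy D k ξ := by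
    funext ξ
    simp [lr]
  rw [e]
  exact this

lemma mult_la : Mult (fun ξ => ((la D ξ : ℝ) : ℂ)) := by
  refine Mult.of_le (k := 2) (C := 4 * π ^ 2 * ‖D‖ ^ 2)
    (Complex.continuous_ofReal.comp continuous_la).measurable (by positivity) (fun ξ => ?_)
  rw [Complex.norm_real, Real.norm_of_nonneg (la_nonneg ξ), la]
  have h := D.le_opNorm ξ
  have h1 : (0:ℝ) ≤ ‖D‖ := norm_nonneg _
  have h2 := norm_nonneg ξ
  have h3 : ‖D ξ‖ ≤ ‖D‖ * (1 + ‖ξ‖) := by nlinarith
  calc 4 * π ^ 2 * ‖D ξ‖ ^ 2 ≤ 4 * π ^ 2 * (‖D‖ * (1 + ‖ξ‖)) ^ 2 := by gcongr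
    _ = _ := by ring

/-- the quadratic (bilinear) nonlinearity on the frequency side -/
noncomputable def NN (D : E →L[ℝ] E) (F G : Fin 3 → ℝ → E → ℂ) (i : Fin 3) (s : ℝ) (ξ : E) : ℂ :=
  ∑ j : Fin 3, ∑ k : Fin 3, lr D i j k ξ * cv (F k s) (G j s) ξ

lemma norm_NN_le {F G : Fin 3 → ℝ → E → ℂ} {A B : ℝ} {s : ℝ} (hA : 0 ≤ A) (hB : 0 ≤ B)
    (hF : ∀ k ξ, ‖F k s ξ‖ ≤ A * om ξ) (hG : ∀ k ξ, ‖G k s ξ‖ ≤ B * om ξ) (i : Fin 3) (ξ : E) :
    ‖NN D F G i s ξ‖ ≤ 36 * π * C0 * (A * B) * om ξ * ‖D ξ‖ := by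
  unfold NN
  have h : ∀ j k : Fin 3, ‖lr D i j k ξ * cv (F k s) (G j s) ξ‖
      ≤ (4 * π * ‖D ξ‖) * (A * B * C0 * om ξ) := by
    intro j k
    rw [norm_mul]
    exact mul_le_mul (norm_lr_le i j k ξ) (norm_cv_le hA hB (hF k) (hG j) ξ) (norm_nonneg _)
      (by positivity)
  calc ‖∑ j : Fin 3, ∑ k : Fin 3, lr D i j k ξ * cv (F k s) (G j s) ξ‖
      ≤ ∑ j : Fin 3, ∑ k : Fin 3, (4 * π * ‖D ξ‖) * (A * B * C0 * om ξ) := by
        refine (norm_sum_le _ _).trans (Finset.sum_le_sum fun j _ => ?_)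
        exact (norm_sum_le _ _).trans (Finset.sum_le_sum fun k _ => h j k)
    _ = _ := by simp; ring

lemma continuous_NN {F G : Fin 3 → ℝ → E → ℂ} {A B : ℝ} (hA : 0 ≤ A) (hB : 0 ≤ B)
    (hFc : ∀ k, Continuous (Function.uncurry (F k))) (hGc : ∀ k, Continuous (Function.uncurry (G k)))
    (hF : ∀ k s ξ, ‖F k s ξ‖ ≤ A * om ξ) (hG : ∀ k s ξ, ‖G k s ξ‖ ≤ B * om ξ) (i : Fin 3) :
    Continuous (fun p : ℝ × E => NN D F G i p.1 p.2) := by
  unfold NN
  refine continuous_finsetSum _ fun j _ => continuous_finsetSum _ fun k _ => ?_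
  refine Continuous.mul ((continuous_lr i j k).comp continuous_snd) ?_
  exact continuous_cv hA hB (hFc k) (hGc j) (hF k) (hG j)

lemma NN_sub_sub {F G : Fin 3 → ℝ → E → ℂ} {A B : ℝ} {s : ℝ}
    (hFc : ∀ k, Continuous (F k s)) (hGc : ∀ k, Continuous (G k s))
    (hF : ∀ k ξ, ‖F k s ξ‖ ≤ A * om ξ) (hG : ∀ k ξ, ‖G k s ξ‖ ≤ B * om ξ) (i : Fin 3) (ξ : E) :
    NN D F F i s ξ - NN D G G i s ξ
      = NN D (fun k s ξ => F k s ξ - G k s ξ) F i s ξ
        + NN D G (fun k s ξ => F k s ξ - G k s ξ) i s ξ := by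
  unfold NN
  rw [← Finset.sum_sub_distrib, ← Finset.sum_add_distrib]
  refine Finset.sum_congr rfl fun j _ => ?_
  rw [← Finset.sum_sub_distrib, ← Finset.sum_add_distrib]
  refine Finset.sum_congr rfl fun k _ => ?_
  rw [cv_sub_left (cv_integrable (hFc k) (hFc j) (hF k) (hF j) ξ)
      (cv_integrable (hGc k) (hFc j) (hG k) (hF j) ξ),
    cv_sub_right (cv_integrable (hGc k) (hFc j) (hG k) (hF j) ξ)
      (cv_integrable (hGc k) (hGc j) (hG k) (hG j) ξ)]
  ring

lemma NN_conj {F : Fin 3 → ℝ → E → ℂ} {s : ℝ}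
    (h : ∀ k ξ, F k s (-ξ) = (starRingEnd ℂ) (F k s ξ)) (i : Fin 3) (ξ : E) :
    NN D F F i s (-ξ) = (starRingEnd ℂ) (NN D F F i s ξ) := by
  unfold NN
  rw [map_sum]
  refine Finset.sum_congr rfl fun j _ => ?_
  rw [map_sum]
  refine Finset.sum_congr rfl fun k _ => ?_
  rw [map_mul, lr_neg]
  congr 1
  have e : ∀ k, (fun η => (starRingEnd ℂ) (F k s (-η))) = F k s := by
    intro k; ext η; rw [h]; simp
  have := cv_reflect_conj (F k s) (F j s) (-ξ)
  rw [e, e, neg_neg] at this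
  exact this

/-- the Duhamel operator -/
noncomputable def DH (D : E →L[ℝ] E) (N : ℝ → E → ℂ) (τ : ℝ) (ξ : E) : ℂ :=
  ∫ s in (0:ℝ)..τ, ((Real.exp (-(la D ξ * (τ - s))) : ℝ) : ℂ) * N s ξ

lemma integral_exp_duhamel {c τ : ℝ} (hc : 0 < c) :
    ∫ s in (0:ℝ)..τ, Real.exp (-(c * (τ - s))) = (1 - Real.exp (-(c * τ))) / c := by
  have h : ∀ s ∈ uIcc (0:ℝ) τ,
      HasDerivAt (fun s => Real.exp (-(c * (τ - s))) / c) (Real.exp (-(c * (τ - s)))) s := by
    intro s _
    have h1 : HasDerivAt (fun s => -(c * (τ - s))) c s := by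
      have := (((hasDerivAt_id s).const_sub τ).const_mul c).neg
      simp only [mul_neg, mul_one, neg_neg] at this
      exact this
    have h2 := (h1.exp).div_const c
    refine h2.congr_deriv ?_
    field_simp
  rw [intervalIntegral.integral_eq_sub_of_hasDerivAt h]
  · simp; ring
  · apply Continuous.intervalIntegrable; fun_prop

lemma norm_DH_le {N : ℝ → E → ℂ} {K lam τ : ℝ} {ξ : E} (hlam : 0 < lam) (hK : 0 ≤ K) (hτ : 0 ≤ τ)
    (h : ∀ s ∈ Icc (0:ℝ) τ, ‖N s ξ‖ ≤ K * ‖D ξ‖ * Real.exp (lam * s)) :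
    ‖DH D N τ ξ‖ ≤ K * Real.exp (lam * τ) / (4 * π * Real.sqrt lam) := by
  have hpi := Real.pi_pos
  set d := ‖D ξ‖ with hd
  have hd0 : 0 ≤ d := norm_nonneg _
  set c := la D ξ + lam with hc
  have hcpos : 0 < c := by have := la_nonneg (D := D) ξ; linarith
  have step : ‖DH D N τ ξ‖ ≤ ∫ s in (0:ℝ)..τ, (K * d * Real.exp (lam * τ)) * Real.exp (-(c * (τ - s))) := by
    unfold DH
    apply intervalIntegral.norm_integral_le_of_norm_le hτ
    · refine Filter.Eventually.of_forall fun s hs => ?_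
      have hs' : s ∈ Icc (0:ℝ) τ := ⟨hs.1.le, hs.2⟩
      rw [norm_mul, Complex.norm_real, Real.norm_of_nonneg (Real.exp_pos _).le]
      calc Real.exp (-(la D ξ * (τ - s))) * ‖N s ξ‖
          ≤ Real.exp (-(la D ξ * (τ - s))) * (K * d * Real.exp (lam * s)) :=
            mul_le_mul_of_nonneg_left (h s hs') (Real.exp_pos _).le
        _ = K * d * (Real.exp (-(la D ξ * (τ - s))) * Real.exp (lam * s)) := by ring
        _ = K * d * (Real.exp (lam * τ) * Real.exp (-(c * (τ - s)))) := by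
            rw [← Real.exp_add, ← Real.exp_add, hc]; ring_nf
        _ = _ := by ring
    · apply Continuous.intervalIntegrable; fun_prop
  refine step.trans ?_
  rw [intervalIntegral.integral_const_mul, integral_exp_duhamel hcpos]
  have h1 : (1 - Real.exp (-(c * τ))) / c ≤ 1 / c := by
    apply div_le_div_of_nonneg_right _ hcpos.le
    have := Real.exp_pos (-(c * τ)); linarith
  have hsq : Real.sqrt lam * Real.sqrt lam = lam := Real.mul_self_sqrt hlam.le
  have hsq0 : 0 < Real.sqrt lam := Real.sqrt_pos.mpr hlam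
  have h2 : d * (1 / c) ≤ 1 / (4 * π * Real.sqrt lam) := by
    rw [mul_one_div, div_le_div_iff₀ hcpos (by positivity)]
    have : c = 4 * π ^ 2 * d ^ 2 + lam := by rw [hc, la]
    rw [this]
    nlinarith [sq_nonneg (2 * π * d - Real.sqrt lam)]
  calc K * d * Real.exp (lam * τ) * ((1 - Real.exp (-(c * τ))) / c)
      ≤ K * d * Real.exp (lam * τ) * (1 / c) := by
        apply mul_le_mul_of_nonneg_left h1 (by positivity)
    _ = K * Real.exp (lam * τ) * (d * (1 / c)) := by ring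
    _ ≤ K * Real.exp (lam * τ) * (1 / (4 * π * Real.sqrt lam)) := by
        apply mul_le_mul_of_nonneg_left h2 (by positivity)
    _ = _ := by ring

lemma norm_DH_le' {N : ℝ → E → ℂ} {S τ : ℝ} {ξ : E} (hτ : 0 ≤ τ) (hτ1 : τ ≤ 1)
    (h : ∀ s ∈ Icc (0:ℝ) τ, ‖N s ξ‖ ≤ S) :
    ‖DH D N τ ξ‖ ≤ S := by
  have hS : 0 ≤ S := (norm_nonneg _).trans (h 0 ⟨le_rfl, hτ⟩)
  unfold DH
  have := intervalIntegral.norm_integral_le_of_norm_le_const (a := 0) (b := τ) (C := S)
    (f := fun s => ((Real.exp (-(la D ξ * (τ - s))) : ℝ) : ℂ) * N s ξ) (by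
      intro s hs
      rw [uIoc_of_le hτ] at hs
      rw [norm_mul, Complex.norm_real, Real.norm_of_nonneg (Real.exp_pos _).le]
      have h1 : Real.exp (-(la D ξ * (τ - s))) ≤ 1 := by
        rw [Real.exp_le_one_iff]
        have := la_nonneg (D := D) ξ
        have : 0 ≤ τ - s := by linarith [hs.2]
        nlinarith
      have h2 := h s ⟨hs.1.le, hs.2⟩
      calc _ ≤ 1 * S := mul_le_mul h1 h2 (norm_nonneg _) zero_le_one
        _ = S := one_mul _)
  refine this.trans ?_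
  rw [sub_zero, abs_of_nonneg hτ]
  nlinarith

lemma continuous_DH {N : ℝ → E → ℂ} (hN : Continuous (fun p : ℝ × E => N p.1 p.2)) {c : ℝ → ℝ}
    (hc : Continuous c) : Continuous (fun p : ℝ × E => DH D N (c p.1) p.2) := by
  unfold DH
  have hla := continuous_la (D := D)
  have key : Continuous (fun q : (ℝ × E) × ℝ =>
      ((Real.exp (-(la D q.1.2 * (c q.1.1 - q.2))) : ℝ) : ℂ) * N q.2 q.1.2) := by
    refine Continuous.mul ?_ ?_
    · refine Complex.continuous_ofReal.comp (Real.continuous_exp.comp ?_)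
      exact ((hla.comp (continuous_snd.comp continuous_fst)).mul
        ((hc.comp (continuous_fst.comp continuous_fst)).sub continuous_snd)).neg
    · exact hN.comp (continuous_snd.prodMk (continuous_snd.comp continuous_fst))
  exact intervalIntegral.continuous_parametric_intervalIntegral_of_continuous
    (f := fun (p : ℝ × E) (s : ℝ) =>
      ((Real.exp (-(la D p.2 * (c p.1 - s))) : ℝ) : ℂ) * N s p.2) (μ := volume) (a₀ := 0)
    key (hc.comp continuous_fst)

lemma DH_sub {N M : ℝ → E → ℂ} {τ : ℝ} {ξ : E} (hN : Continuous fun s => N s ξ)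
    (hM : Continuous fun s => M s ξ) :
    DH D N τ ξ - DH D M τ ξ = DH D (fun s ξ => N s ξ - M s ξ) τ ξ := by
  unfold DH
  rw [← intervalIntegral.integral_sub]
  · congr 1; ext s; ring
  · apply Continuous.intervalIntegrable; fun_prop
  · apply Continuous.intervalIntegrable; fun_prop

lemma DH_conj {N : ℝ → E → ℂ} {τ : ℝ} (h : ∀ s ξ, N s (-ξ) = (starRingEnd ℂ) (N s ξ)) (ξ : E) :
    DH D N τ (-ξ) = (starRingEnd ℂ) (DH D N τ ξ) := by
  unfold DH
  rw [intervalIntegral, intervalIntegral, map_sub, ← integral_conj, ← integral_conj]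
  simp only [map_mul, h, la_neg, Complex.conj_ofReal]

end Pool.Agent.Helper39.NS
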