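import Pool.Agent.Helper39.NS.Approx

set_option autoImplicit false

open MeasureTheory Real Set

namespace Pool.Agent.Helper39.NS

/-- smooth finite-energy solutions of the Navier-Stokes equations on `(-1,0) × ℝ³` -/
structure IsSol (v : ℝ → EuclideanSpace ℝ (Fin 3) → EuclideanSpace ℝ (Fin 3))
    (p : ℝ → EuclideanSpace ℝ (Fin 3) → ℝ) : Prop where
  smooth_v : ContDiffOn ℝ (⊤ : ℕ∞) (Function.uncurry v) (Set.Ioo (-1 : ℝ) 0 ×ˢ Set.univ)
  smooth_p : ContDiffOn ℝ (⊤ : ℕ∞) (Function.uncurry p) (Set.Ioo (-1 : ℝ) 0 ×ˢ Set.univ)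
  eqn : ∀ s ∈ Set.Ioo (-1 : ℝ) 0, ∀ x : EuclideanSpace ℝ (Fin 3),
      deriv (fun τ => v τ x) s + fderiv ℝ (v s) x (v s x)
        - ∑ i : Fin 3, fderiv ℝ (fun y => fderiv ℝ (v s) y (EuclideanSpace.basisFun (Fin 3) ℝ i)) x
            (EuclideanSpace.basisFun (Fin 3) ℝ i)
        + gradient (p s) x = 0
  incomp : ∀ s ∈ Set.Ioo (-1 : ℝ) 0, ∀ x : EuclideanSpace ℝ (Fin 3),
      LinearMap.trace ℝ (EuclideanSpace ℝ (Fin 3)) (fderiv ℝ (v s) x).toLinearMap = 0
  energy : ∃ K : ℝ, ∀ s ∈ Set.Ioo (-1 : ℝ) 0, ∫⁻ x, ‖v s x‖ₑ ^ 2 ≤ ENNReal.ofReal K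
  dissip : (∫⁻ s in Set.Ioo (-1 : ℝ) 0, ∫⁻ x, ‖fderiv ℝ (v s) x‖ₑ ^ 2) < ⊤

lemma continuous_II_of_om {D : E →L[ℝ] E} {G : ℝ → E → ℂ} {B : ℝ}
    (hc : Continuous (Function.uncurry G)) (hb : ∀ s ξ, ‖G s ξ‖ ≤ B * om ξ) :
    Continuous (II D G) := by
  unfold II
  refine continuous_of_dominated (bound := fun ξ => B * om ξ) ?_ ?_ ?_ ?_
  · intro p
    exact ((continuous_ek_right p.2).mul (hc.uncurry_left p.1)).aestronglyMeasurable
  · intro p
    refine Filter.Eventually.of_forall fun ξ => ?_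
    rw [norm_mul, norm_ek, one_mul]
    exact hb _ _
  · exact integrable_om.const_mul _
  · refine Filter.Eventually.of_forall fun ξ => ?_
    exact ((continuous_ek_left ξ).comp continuous_snd).mul
      ((hc.uncurry_right ξ).comp continuous_fst)

lemma continuous_vel {D : E →L[ℝ] E} {U0 : Fin 3 → E → ℂ} {F : Fin 3 → ℝ → E → ℂ} {B : ℝ}
    (h : Mild D U0 F B) : Continuous (Function.uncurry (vel D F)) := by
  have hII : ∀ i, Continuous (II D (F i)) := fun i => continuous_II_of_om (h.cont i) (h.bound i)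
  have : Function.uncurry (vel D F) = fun p : ℝ × E =>
      WithLp.toLp 2 (fun i => (II D (F i) (p.1 + 1, p.2)).re) := rfl
  rw [this]
  refine (PiLp.continuous_toLp 2 _).comp (continuous_pi fun i => ?_)
  exact Complex.continuous_re.comp ((hII i).comp (by fun_prop))

lemma norm_le_of_comp {v : E} {d : ℝ} (hd : 0 ≤ d) (h : ∀ i, |v i| ≤ d) : ‖v‖ ≤ 2 * d := by
  rw [← sq_le_sq₀ (norm_nonneg _) (by positivity), norm_sq_three]
  have h0 := sq_abs (v 0)
  have h1 := sq_abs (v 1)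
  have h2 := sq_abs (v 2)
  have k0 := h 0
  have k1 := h 1
  have k2 := h 2
  nlinarith [abs_nonneg (v 0), abs_nonneg (v 1), abs_nonneg (v 2)]

/-- **Exact solutions near shear flows.** -/
theorem ns_approx {h : ℝ → ℂ} (hg : Good h) {R η : ℝ} (hR : 0 ≤ R) (hη : 0 < η) :
    ∃ (v : ℝ → E → E) (p : ℝ → E → ℝ), IsSol v p ∧ Continuous (Function.uncurry v) ∧
      ∀ t ∈ Icc (-1:ℝ) 0, ∀ x, ‖x‖ ≤ R →
        ‖v t x - WithLp.toLp 2 ![0, 0, (w1 h (t + 1) (x 0)).re]‖ ≤ η := by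
  obtain ⟨A, hA0, hA⟩ := V0_bound hg
  have hpi := Real.pi_pos
  set O := ∫ ξ, om ξ with hO
  have hO0 : 0 ≤ O := integral_nonneg fun ξ => (om_pos ξ).le
  set η' := η / (4 * (O + 1)) with hη'
  have hη'0 : 0 < η' := by positivity
  obtain ⟨σ₀, hσ₀, hex⟩ := exists_mild hg hη'0
  set M := (2 * π * R + 4 * π ^ 2) * A * O with hM
  have hM0 : 0 ≤ M := by positivity
  set σ := min (min σ₀ 1) (η / (4 * (M + 1))) with hσ
  have hσ0 : 0 < σ := lt_min (lt_min hσ₀ one_pos) (by positivity)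
  have hσ1 : σ ≤ 1 := (min_le_left _ _).trans (min_le_right _ _)
  have hσσ : σ ≤ σ₀ := (min_le_left _ _).trans (min_le_left _ _)
  have hσM : σ * M ≤ η / 4 := by
    have h1 : σ ≤ η / (4 * (M + 1)) := min_le_right _ _
    rw [le_div_iff₀ (by positivity)] at h1
    nlinarith
  obtain ⟨F, B, hmild, hclose⟩ := hex σ hσ0 hσσ
  have hdet := det_Dg hσ0.ne'
  have hsm : ∀ n i, Sm n (F i) := fun n i => hmild.sm n i
  refine ⟨vel (Dg σ) F, prs (Dg σ) F, ⟨contDiffOn_vel hsm, contDiffOn_prs hsm,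
    fun s hs x => hmild.navier_stokes hs x, fun s hs x => hmild.incompressible hs x,
    hmild.energy hdet, hmild.dissipation hdet⟩, continuous_vel hmild, ?_⟩
  intro t ht x hx
  have hτ : t + 1 ∈ Icc (0:ℝ) 1 := ⟨by linarith [ht.1], by linarith [ht.2]⟩
  set τ := t + 1 with hτdef
  have hd := dataV0 hg hA0 hA one_pos σ
  have comp : ∀ i : Fin 3, ‖II (Dg σ) (F i) (τ, x) - ![0, 0, w1 h τ (x 0)] i‖ ≤ η / 2 := by
    intro i
    have i1 : Integrable fun ξ => ek (Dg σ) x ξ * F i τ ξ := by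
      refine (integrable_om.const_mul B).mono'
        ((continuous_ek_right x).mul ((hmild.cont i).uncurry_left τ)).aestronglyMeasurable
        (Filter.Eventually.of_forall fun ξ => ?_)
      rw [norm_mul, norm_ek, one_mul]
      exact hmild.bound i τ ξ
    have iU : ∀ σ', Integrable fun ξ => ek (Dg σ') x ξ * UU (Dg σ') (V0 h) i τ ξ := by
      intro σ'
      have hd' := dataV0 hg hA0 hA one_pos σ'
      refine (integrable_om.const_mul A).mono'
        ((continuous_ek_right x).mul ((continuous_UU hd' i).uncurry_left τ)).aestronglyMeasurable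
        (Filter.Eventually.of_forall fun ξ => ?_)
      rw [norm_mul, norm_ek, one_mul]
      exact norm_UU_le hd' i τ ξ
    have e1 : ‖II (Dg σ) (F i) (τ, x) - II (Dg σ) (UU (Dg σ) (V0 h) i) (τ, x)‖ ≤ η / 4 := by
      unfold II
      rw [← integral_sub i1 (iU σ)]
      calc ‖∫ ξ, (ek (Dg σ) x ξ * F i τ ξ - ek (Dg σ) x ξ * UU (Dg σ) (V0 h) i τ ξ)‖
          ≤ ∫ ξ, η' * om ξ := by
            refine norm_integral_le_of_norm_le (integrable_om.const_mul _)
              (Filter.Eventually.of_forall fun ξ => ?_)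
            rw [← mul_sub, norm_mul, norm_ek, one_mul]
            exact hclose i τ ξ
        _ = η' * O := integral_const_mul _ _
        _ ≤ η / 4 := by
            rw [hη', div_mul_eq_mul_div, div_le_div_iff₀ (by positivity) (by norm_num)]
            nlinarith
    have e2 : ‖II (Dg σ) (UU (Dg σ) (V0 h) i) (τ, x) - II (Dg 0) (UU (Dg 0) (V0 h) i) (τ, x)‖
        ≤ η / 4 := by
      refine le_trans ?_ hσM
      unfold II
      rw [← integral_sub (iU σ) (iU 0)]
      calc ‖∫ ξ, (ek (Dg σ) x ξ * UU (Dg σ) (V0 h) i τ ξ - ek (Dg 0) x ξ * UU (Dg 0) (V0 h) i τ ξ)‖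
          ≤ ∫ ξ, (σ * (2 * π * R + 4 * π ^ 2) * A) * om ξ := by
            refine norm_integral_le_of_norm_le (integrable_om.const_mul _)
              (Filter.Eventually.of_forall fun ξ => ?_)
            unfold UU
            rw [cl_of_mem hτ, ← mul_assoc, ← mul_assoc, ← sub_mul, norm_mul]
            have k1 := norm_ek_exp_sub_le hσ0.le hσ1 hτ.1 hτ.2 x ξ
            have k2 := hA i ξ
            calc _ ≤ (σ * (2 * π * ‖x‖ + 4 * π ^ 2) * (1 + ‖ξ‖) ^ 2) * ‖V0 h i ξ‖ := by gcongr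
              _ = σ * (2 * π * ‖x‖ + 4 * π ^ 2) * ((1 + ‖ξ‖) ^ 2 * ‖V0 h i ξ‖) := by ring
              _ ≤ σ * (2 * π * R + 4 * π ^ 2) * (A * om ξ) := by gcongr
              _ = _ := by ring
        _ = (σ * (2 * π * R + 4 * π ^ 2) * A) * O := integral_const_mul _ _
        _ = σ * M := by rw [hM]; ring
    rw [← II_limit h hτ x i]
    calc _ = ‖(II (Dg σ) (F i) (τ, x) - II (Dg σ) (UU (Dg σ) (V0 h) i) (τ, x)) +
          (II (Dg σ) (UU (Dg σ) (V0 h) i) (τ, x) - II (Dg 0) (UU (Dg 0) (V0 h) i) (τ, x))‖ := by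
          congr 1; ring
      _ ≤ _ := norm_add_le _ _
      _ ≤ η / 4 + η / 4 := add_le_add e1 e2
      _ = η / 2 := by ring
  have hfin := norm_le_of_comp (v := vel (Dg σ) F t x -
    WithLp.toLp 2 ![0, 0, (w1 h (t + 1) (x 0)).re]) (d := η / 2) (by positivity) (fun i => by
      have hc := comp i
      have h1 : (vel (Dg σ) F t x - WithLp.toLp 2 ![0, 0, (w1 h (t + 1) (x 0)).re]) i
          = (II (Dg σ) (F i) (τ, x) - ![0, 0, w1 h τ (x 0)] i).re := by
        rw [PiLp.sub_apply, vel_apply, Complex.sub_re]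
        fin_cases i <;> simp [hτdef]
      rw [h1]
      exact (Complex.abs_re_le_norm _).trans hc)
  linarith

end Pool.Agent.Helper39.NS
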