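import Pool.Agent.Helper39.NS.Fix

set_option autoImplicit false

open MeasureTheory Real Set

namespace Pool.Agent.Helper39.NS

variable {D : E →L[ℝ] E}

lemma hasDerivAt_DH {N : ℝ → E → ℂ} {ξ : E} (hN : Continuous fun s => N s ξ) (τ : ℝ) :
    HasDerivAt (fun t => DH D N t ξ) (-((la D ξ : ℝ) : ℂ) * DH D N τ ξ + N τ ξ) τ := by
  set c := la D ξ with hc
  have e : ∀ t, DH D N t ξ = ((Real.exp (-(c * t)) : ℝ) : ℂ) *
      ∫ s in (0:ℝ)..t, ((Real.exp (c * s) : ℝ) : ℂ) * N s ξ := by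
    intro t
    unfold DH
    rw [← intervalIntegral.integral_const_mul]
    congr 1; ext s
    rw [← mul_assoc, ← Complex.ofReal_mul, ← Real.exp_add]
    congr 3
    ring
  have hcont : Continuous fun s => ((Real.exp (c * s) : ℝ) : ℂ) * N s ξ := by fun_prop
  have h1 : HasDerivAt (fun t => ∫ s in (0:ℝ)..t, ((Real.exp (c * s) : ℝ) : ℂ) * N s ξ)
      (((Real.exp (c * τ) : ℝ) : ℂ) * N τ ξ) τ :=
    intervalIntegral.integral_hasDerivAt_right (hcont.intervalIntegrable _ _)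
      hcont.aestronglyMeasurable.stronglyMeasurableAtFilter hcont.continuousAt
  have h2 : HasDerivAt (fun t : ℝ => ((Real.exp (-(c * t)) : ℝ) : ℂ))
      (((-c * Real.exp (-(c * τ)) : ℝ)) : ℂ) τ := by
    apply HasDerivAt.ofReal_comp
    have h3 : HasDerivAt (fun t : ℝ => -(c * t)) (-c) τ := by
      have := ((hasDerivAt_id τ).const_mul c).neg
      simp only [mul_one] at this
      exact this
    have := h3.exp
    rwa [mul_comm] at this
  have h4 := h2.mul h1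
  have h5 : HasDerivAt (fun t => DH D N t ξ) _ τ :=
    h4.congr_of_eventuallyEq (Filter.Eventually.of_forall fun t => e t)
  refine h5.congr_deriv ?_
  rw [e τ, ← mul_assoc ((Real.exp (-(c * τ)) : ℝ) : ℂ), ← Complex.ofReal_mul, ← Real.exp_add]
  simp only [neg_add_cancel, Real.exp_zero, Complex.ofReal_one, one_mul]
  push_cast
  ring

/-- Frequency-side mild solutions -/
structure Mild (D : E →L[ℝ] E) (U0 : Fin 3 → E → ℂ) (F : Fin 3 → ℝ → E → ℂ) (B : ℝ) : Prop where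
  cont : ∀ i, Continuous (Function.uncurry (F i))
  B_nonneg : 0 ≤ B
  bound : ∀ i s ξ, ‖F i s ξ‖ ≤ B * om ξ
  conj : ∀ i s ξ, F i s (-ξ) = (starRingEnd ℂ) (F i s ξ)
  eqn : ∀ i, ∀ τ ∈ Icc (0:ℝ) 1, ∀ ξ, F i τ ξ =
    ((Real.exp (-(la D ξ * τ)) : ℝ) : ℂ) * U0 i ξ + DH D (NN D F F i) τ ξ
  div0 : ∀ ξ, ∑ i : Fin 3, sy D i ξ * U0 i ξ = 0

variable {U0 : Fin 3 → E → ℂ} {F : Fin 3 → ℝ → E → ℂ} {B : ℝ}

lemma Mild.continuous_NN (h : Mild D U0 F B) (i : Fin 3) :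
    Continuous (fun p : ℝ × E => NN D F F i p.1 p.2) :=
  NS.continuous_NN h.B_nonneg h.B_nonneg h.cont h.cont h.bound h.bound i

lemma Mild.hasDerivAt (h : Mild D U0 F B) (i : Fin 3) {τ : ℝ} (hτ : τ ∈ TT) (ξ : E) :
    HasDerivAt (fun t => F i t ξ) (-((la D ξ : ℝ) : ℂ) * F i τ ξ + NN D F F i τ ξ) τ := by
  have hmem : Icc (0:ℝ) 1 ∈ nhds τ := Icc_mem_nhds hτ.1 hτ.2
  have h1 := hasDerivAt_DH (D := D) (continuous_slice (h.continuous_NN i) ξ) τ
  have h2 : HasDerivAt (fun t : ℝ => ((Real.exp (-(la D ξ * t)) : ℝ) : ℂ) * U0 i ξ)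
      (-((la D ξ : ℝ) : ℂ) * (((Real.exp (-(la D ξ * τ)) : ℝ) : ℂ) * U0 i ξ)) τ := by
    have h3 : HasDerivAt (fun t : ℝ => -(la D ξ * t)) (-(la D ξ)) τ := by
      have := ((hasDerivAt_id τ).const_mul (la D ξ)).neg
      simp only [mul_one] at this
      exact this
    have h4 := (h3.exp.ofReal_comp).mul_const (U0 i ξ)
    refine h4.congr_deriv ?_
    push_cast
    ring
  have h5 := h2.add h1
  have h6 : HasDerivAt (fun t => F i t ξ) _ τ :=
    h5.congr_of_eventuallyEq (by filter_upwards [hmem] with t ht using h.eqn i t ht ξ)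
  refine h6.congr_deriv ?_
  rw [h.eqn i τ (Ioo_subset_Icc_self hτ) ξ]
  ring

lemma Mild.sm0 (h : Mild D U0 F B) (i : Fin 3) : Sm0 (F i) where
  meas := fun τ _ => ((h.cont i).uncurry_left τ).measurable
  cont := fun ξ => (continuous_slice (h.cont i) ξ).continuousOn
  decay := fun m => by
    have hB := h.B_nonneg
    refine ⟨B * ((m.factorial : ℝ) * Real.exp 1), by positivity, fun τ _ ξ => ?_⟩
    calc (1 + ‖ξ‖) ^ m * ‖F i τ ξ‖ ≤ (1 + ‖ξ‖) ^ m * (B * om ξ) :=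
          mul_le_mul_of_nonneg_left (h.bound i τ ξ) (by positivity)
      _ = B * ((1 + ‖ξ‖) ^ m * om ξ) := by ring
      _ ≤ B * ((m.factorial : ℝ) * Real.exp 1 * pw ξ) :=
          mul_le_mul_of_nonneg_left (om_rapid m ξ) hB
      _ = _ := by ring

lemma Sm_NN {n : ℕ} {F G : Fin 3 → ℝ → E → ℂ} (hF : ∀ i, Sm n (F i)) (hG : ∀ i, Sm n (G i))
    (i : Fin 3) : Sm n (fun τ ξ => NN D F G i τ ξ) := by
  unfold NN
  exact Sm.sum _ fun j _ => Sm.sum _ fun k _ => ((hF k).cv (hG j)).mult (mult_lr i j k)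

/-- the components of a mild solution are smooth in time -/
theorem Mild.sm (h : Mild D U0 F B) (n : ℕ) : ∀ i, Sm n (F i) := by
  induction n with
  | zero => exact h.sm0
  | succ n ih =>
    intro i
    refine ⟨h.sm0 i, fun τ ξ => -((la D ξ : ℝ) : ℂ) * F i τ ξ + NN D F F i τ ξ, ?_,
      fun τ hτ ξ => h.hasDerivAt i hτ ξ⟩
    refine Sm.add ?_ (Sm_NN ih ih i)
    have := ((ih i).mult (mult_la (D := D))).smul (-1)
    convert this using 3
    ring

lemma sum_sy_lr (j k : Fin 3) (ξ : E) : ∑ i : Fin 3, sy D i ξ * lr D i j k ξ = 0 := by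
  have key : ∑ i : Fin 3, (D ξ) i * pr D i j ξ = 0 := by
    by_cases h : D ξ = 0
    · simp [h]
    · have hn : ‖D ξ‖ ^ 2 ≠ 0 := by simpa using h
      have hs : ∑ i : Fin 3, (D ξ) i * (D ξ) i = ‖D ξ‖ ^ 2 := by
        rw [EuclideanSpace.norm_sq_eq]
        refine Finset.sum_congr rfl fun i _ => ?_
        rw [Real.norm_eq_abs, sq_abs]; ring
      unfold pr
      calc ∑ i : Fin 3, (D ξ) i * ((if i = j then (1:ℝ) else 0) - (D ξ) i * (D ξ) j / ‖D ξ‖ ^ 2)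
          = ∑ i : Fin 3, ((if i = j then (D ξ) i else 0)
            - ((D ξ) i * (D ξ) i) * ((D ξ) j / ‖D ξ‖ ^ 2)) := by
            refine Finset.sum_congr rfl fun i _ => ?_
            split_ifs <;> ring
        _ = (D ξ) j - (∑ i : Fin 3, (D ξ) i * (D ξ) i) * ((D ξ) j / ‖D ξ‖ ^ 2) := by
            rw [Finset.sum_sub_distrib, Finset.sum_mul]
            simp
        _ = 0 := by rw [hs]; field_simp; ring
  unfold lr sy
  have : ∀ i : Fin 3, ((-2 * π * (D ξ) i : ℝ) : ℂ) * Complex.I *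
      (-((pr D i j ξ : ℝ) : ℂ) * (((-2 * π * (D ξ) k : ℝ) : ℂ) * Complex.I))
      = (((D ξ) i * pr D i j ξ : ℝ) : ℂ) * (4 * π ^ 2 * ((D ξ) k : ℂ)) := by
    intro i
    push_cast
    have hI : Complex.I * Complex.I = -1 := Complex.I_mul_I
    linear_combination (-4 * (π:ℂ) ^ 2 * ((D ξ) i : ℂ) * (pr D i j ξ : ℂ) * ((D ξ) k : ℂ)) * hI
  simp_rw [this]
  rw [← Finset.sum_mul, ← Complex.ofReal_sum, key]
  simp

lemma sum_sy_NN (F G : Fin 3 → ℝ → E → ℂ) (s : ℝ) (ξ : E) :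
    ∑ i : Fin 3, sy D i ξ * NN D F G i s ξ = 0 := by
  unfold NN
  simp_rw [Finset.mul_sum]
  rw [Finset.sum_comm]
  refine Finset.sum_eq_zero fun j _ => ?_
  rw [Finset.sum_comm]
  refine Finset.sum_eq_zero fun k _ => ?_
  simp_rw [← mul_assoc]
  rw [← Finset.sum_mul, sum_sy_lr, zero_mul]

/-- mild solutions are divergence free -/
lemma Mild.div (h : Mild D U0 F B) {τ : ℝ} (hτ : τ ∈ Icc (0:ℝ) 1) (ξ : E) :
    ∑ i : Fin 3, sy D i ξ * F i τ ξ = 0 := by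
  have e : ∀ i : Fin 3, sy D i ξ * F i τ ξ = ((Real.exp (-(la D ξ * τ)) : ℝ) : ℂ) *
      (sy D i ξ * U0 i ξ) + ∫ s in (0:ℝ)..τ, ((Real.exp (-(la D ξ * (τ - s))) : ℝ) : ℂ) *
        (sy D i ξ * NN D F F i s ξ) := by
    intro i
    rw [h.eqn i τ hτ ξ, DH, mul_add, ← intervalIntegral.integral_const_mul]
    congr 1
    · ring
    · congr 1; ext s; ring
  simp_rw [e]
  rw [Finset.sum_add_distrib, ← Finset.mul_sum, h.div0, mul_zero, zero_add,
    ← intervalIntegral.integral_finsetSum]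
  · simp_rw [← Finset.mul_sum, sum_sy_NN]
    simp
  · intro i _
    have := continuous_slice (h.continuous_NN i) ξ
    apply Continuous.intervalIntegrable
    fun_prop

/-- the pressure on the frequency side -/
noncomputable def PP (D : E →L[ℝ] E) (F : Fin 3 → ℝ → E → ℂ) (τ : ℝ) (ξ : E) : ℂ :=
  ∑ j : Fin 3, ∑ k : Fin 3,
    ((-((D ξ) j * (D ξ) k / ‖D ξ‖ ^ 2) : ℝ) : ℂ) * cv (F k τ) (F j τ) ξ

lemma mult_pp (j k : Fin 3) :
    Mult (fun ξ => ((-((D ξ) j * (D ξ) k / ‖D ξ‖ ^ 2) : ℝ) : ℂ)) := by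
  refine Mult.of_le (k := 0) (C := 1) ?_ (by norm_num) (fun ξ => ?_)
  · have h : ∀ k : Fin 3, Measurable fun ξ : E => (D ξ) k := fun k =>
      (by fun_prop : Continuous fun ξ : E => (D ξ) k).measurable
    have h' : Measurable fun ξ : E => ‖D ξ‖ ^ 2 :=
      (by fun_prop : Continuous fun ξ : E => ‖D ξ‖ ^ 2).measurable
    exact Complex.measurable_ofReal.comp ((((h j).mul (h k)).div h').neg)
  · rw [Complex.norm_real, norm_neg, Real.norm_eq_abs]
    simpa using abs_coord_mul_le (D ξ) j k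

lemma Sm_PP {n : ℕ} {F : Fin 3 → ℝ → E → ℂ} (hF : ∀ i, Sm n (F i)) :
    Sm n (PP D F) := by
  have : PP D F = fun τ ξ => ∑ j : Fin 3, ∑ k : Fin 3,
    ((-((D ξ) j * (D ξ) k / ‖D ξ‖ ^ 2) : ℝ) : ℂ) * cv (F k τ) (F j τ) ξ := rfl
  rw [this]
  exact Sm.sum _ fun j _ => Sm.sum _ fun k _ => ((hF k).cv (hF j)).mult (mult_pp j k)

lemma NN_eq_pressure (F : Fin 3 → ℝ → E → ℂ) (i : Fin 3) (τ : ℝ) (ξ : E) :
    NN D F F i τ ξ = -(∑ k : Fin 3, sy D k ξ * cv (F k τ) (F i τ) ξ) - sy D i ξ * PP D F τ ξ := by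
  unfold NN PP
  have h1 : ∀ j k : Fin 3, lr D i j k ξ * cv (F k τ) (F j τ) ξ
      = -((if i = j then 1 else 0) * (sy D k ξ * cv (F k τ) (F j τ) ξ)) -
        sy D i ξ * (((-((D ξ) j * (D ξ) k / ‖D ξ‖ ^ 2) : ℝ) : ℂ) * cv (F k τ) (F j τ) ξ) := by
    intro j k
    unfold lr pr sy
    split_ifs <;> push_cast <;> ring
  simp_rw [h1]
  simp_rw [Finset.sum_sub_distrib, Finset.sum_neg_distrib, ← Finset.mul_sum]
  simp

lemma sum_sy_cv (h : Mild D U0 F B) {τ : ℝ} (hτ : τ ∈ TT) (i : Fin 3) (ξ : E) :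
    ∑ k : Fin 3, sy D k ξ * cv (F k τ) (F i τ) ξ
      = ∑ k : Fin 3, cv (F k τ) (fun η => sy D k η * F i τ η) ξ := by
  have hk : ∀ k, Sm0 (fun τ η => sy D k η * F i τ η) := fun k => (h.sm0 i).mult (mult_sy k)
  have i1 : ∀ k, Integrable fun η => F k τ (ξ - η) * (sy D k η * F i τ η) := fun k =>
    (h.sm0 k).cv_integrable (hk k) hτ ξ
  have i2 : ∀ k, Integrable fun η => sy D k ξ * (F k τ (ξ - η) * F i τ η) := fun k =>
    ((h.sm0 k).cv_integrable (h.sm0 i) hτ ξ).const_mul _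
  rw [← sub_eq_zero, ← Finset.sum_sub_distrib]
  have e : ∀ k, sy D k ξ * cv (F k τ) (F i τ) ξ - cv (F k τ) (fun η => sy D k η * F i τ η) ξ
      = ∫ η, (sy D k (ξ - η) * F k τ (ξ - η)) * F i τ η := by
    intro k
    unfold cv
    rw [← integral_const_mul, ← integral_sub (i2 k) (i1 k)]
    congr 1; ext η
    have : sy D k (ξ - η) = sy D k ξ - sy D k η := by
      unfold sy
      rw [map_sub]
      simp only [PiLp.sub_apply]
      push_cast
      ring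
    rw [this]
    ring
  simp_rw [e]
  rw [← integral_finsetSum]
  · have : ∀ η, ∑ k : Fin 3, sy D k (ξ - η) * F k τ (ξ - η) * F i τ η = 0 := by
      intro η
      rw [← Finset.sum_mul, h.div (Ioo_subset_Icc_self hτ), zero_mul]
    simp_rw [this]
    simp
  · intro k _
    have hk' : Sm0 (fun τ η => sy D k η * F k τ η) := (h.sm0 k).mult (mult_sy k)
    exact hk'.cv_integrable (h.sm0 i) hτ ξ

end Pool.Agent.Helper39.NS
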