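import Pool.Agent.Helper39.NS.Mild

set_option autoImplicit false

open MeasureTheory Real Set FourierTransform

namespace Pool.Agent.Helper39.NS

variable {D : E →L[ℝ] E}

lemma cv_eq_convolution (f g : E → ℂ) :
    cv f g = MeasureTheory.convolution f g (ContinuousLinearMap.mul ℂ ℂ) volume := by
  funext ξ
  rw [cv_comm]
  unfold cv MeasureTheory.convolution
  congr 1; ext η
  simp [mul_comm]

lemma II_cv {F G : ℝ → E → ℂ} (hF : Sm0 F) (hG : Sm0 G) {p : ℝ × E}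
    (hp : p ∈ TT ×ˢ (univ : Set E)) :
    II D (fun τ ξ => cv (F τ) (G τ) ξ) p = II D F p * II D G p := by
  rw [II_eq_fourier, II_eq_fourier, II_eq_fourier]
  have h := Real.fourier_mul_convolution_eq (hF.integrable hp.1) (hG.integrable hp.1)
    (ContinuousLinearMap.adjoint D p.2)
  rw [← h, cv_eq_convolution]

lemma II_add {F G : ℝ → E → ℂ} (hF : Sm0 F) (hG : Sm0 G) {p : ℝ × E}
    (hp : p ∈ TT ×ˢ (univ : Set E)) :
    II D (fun τ ξ => F τ ξ + G τ ξ) p = II D F p + II D G p := by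
  unfold II
  rw [← integral_add (II_integrable hF hp.1 p.2) (II_integrable hG hp.1 p.2)]
  congr 1; ext ξ; ring

lemma II_sum {ι : Type*} (s : Finset ι) {F : ι → ℝ → E → ℂ} (hF : ∀ i, Sm0 (F i)) {p : ℝ × E}
    (hp : p ∈ TT ×ˢ (univ : Set E)) :
    II D (fun τ ξ => ∑ i ∈ s, F i τ ξ) p = ∑ i ∈ s, II D (F i) p := by
  unfold II
  rw [← integral_finsetSum _ fun i _ => II_integrable (hF i) hp.1 p.2]
  congr 1; ext ξ; rw [Finset.mul_sum]

lemma II_smul {F : ℝ → E → ℂ} (c : ℂ) (p : ℝ × E) :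
    II D (fun τ ξ => c * F τ ξ) p = c * II D F p := by
  unfold II
  rw [← integral_const_mul]
  congr 1; ext ξ; ring

lemma II_congr {F G : ℝ → E → ℂ} {p : ℝ × E} (h : ∀ ξ, F p.1 ξ = G p.1 ξ) :
    II D F p = II D G p := by
  unfold II
  congr 1; ext ξ; rw [h]

lemma conj_ek (x ξ : E) : (starRingEnd ℂ) (ek D x ξ) = ek D x (-ξ) := by
  unfold ek
  rw [← Complex.exp_conj, map_mul, Complex.conj_ofReal, Complex.conj_I]
  simp

lemma II_real {F : ℝ → E → ℂ} {p : ℝ × E}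
    (h : ∀ ξ, F p.1 (-ξ) = (starRingEnd ℂ) (F p.1 ξ)) : (II D F p).im = 0 := by
  rw [← Complex.conj_eq_iff_im]
  unfold II
  rw [← integral_conj, ← integral_neg_eq_self (fun ξ => ek D p.2 ξ * F p.1 ξ)]
  congr 1; ext ξ
  rw [map_mul, conj_ek, h]

lemma hasDerivAt_II_time {F F' : ℝ → E → ℂ} (hF : Sm0 F) (hF' : Sm0 F')
    (hd : ∀ τ ∈ TT, ∀ ξ, HasDerivAt (fun t => F t ξ) (F' τ ξ) τ) {τ : ℝ} (hτ : τ ∈ TT) (x : E) :
    HasDerivAt (fun t => II D F (t, x)) (II D F' (τ, x)) τ := by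
  have h := hasFDerivAt_II (D := D) hF hF' hd (p := (τ, x)) ⟨hτ, mem_univ _⟩
  have h1 : HasDerivAt (fun t : ℝ => ((t, x) : ℝ × E)) ((1 : ℝ), (0 : E)) τ :=
    (hasDerivAt_id τ).prodMk (hasDerivAt_const τ x)
  have h2 := h.comp_hasDerivAt τ h1
  refine h2.congr_deriv ?_
  simp [dII]

lemma hasFDerivAt_II_space {F : ℝ → E → ℂ} (hF1 : Sm 1 F) {τ : ℝ} (hτ : τ ∈ TT) (x : E) :
    HasFDerivAt (fun x => II D F (τ, x))
      (∑ k : Fin 3, (pj k).smulRight (II D (fun τ ξ => sy D k ξ * F τ ξ) (τ, x))) x := by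
  obtain ⟨hF, F', hF', hd⟩ := hF1
  have h := hasFDerivAt_II (D := D) hF hF'.sm0 hd (p := (τ, x)) ⟨hτ, mem_univ _⟩
  have h1 : HasFDerivAt (fun x : E => ((τ, x) : ℝ × E)) (ContinuousLinearMap.inr ℝ ℝ E) x :=
    hasFDerivAt_prodMk_right τ x
  have h2 := h.comp x h1
  refine h2.congr_fderiv ?_
  ext b
  simp [dII, sum_apply]

end Pool.Agent.Helper39.NS
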