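import Pool.Agent.Helper39.NS.Vel

set_option autoImplicit false

open MeasureTheory Real Set FourierTransform SchwartzMap

namespace Pool.Agent.Helper39.NS

lemma continuous_fourier_of_integrable {f : E → ℂ} (hf : Integrable f) : Continuous (𝓕 f) := by
  exact VectorFourier.fourierIntegral_continuous Real.continuous_fourierChar
    (continuous_inner : Continuous fun p : E × E => (innerₗ E) p.1 p.2) hf

lemma fourier_ae_eq {f : E → ℂ} (hf1 : Integrable f) (hf2 : MemLp f 2 volume) :
    ((𝓕 (hf2.toLp f : Lp ℂ 2 (volume : Measure E)) : Lp ℂ 2 (volume : Measure E)) : E → ℂ)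
      =ᵐ[volume] 𝓕 f := by
  set f2 : Lp ℂ 2 (volume : Measure E) := hf2.toLp f with hf2def
  apply ae_eq_of_integral_contDiff_smul_eq
  · exact (Lp.memLp _).locallyIntegrable (by norm_num)
  · exact (continuous_fourier_of_integrable hf1).locallyIntegrable
  · intro g g_smooth g_cpt
    have hg₁ : HasCompactSupport (Complex.ofRealCLM ∘ g) := g_cpt.comp_left rfl
    have hg₂ : ContDiff ℝ (⊤ : ℕ∞) (Complex.ofRealCLM ∘ g) := by fun_prop
    set G : 𝓢(E, ℂ) := hg₁.toSchwartzMap hg₂ with hG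
    have hGg : ∀ x, G x = ((g x : ℝ) : ℂ) := fun x => rfl
    have h1 := congrArg (fun T => T G) (MeasureTheory.Lp.fourier_toTemperedDistribution_eq f2)
    simp only [TemperedDistribution.fourier_apply, Lp.toTemperedDistribution_apply] at h1
    have h2 : ∫ x, (𝓕 G) x • f2 x = ∫ x, (𝓕 G) x • f x := by
      apply integral_congr_ae
      filter_upwards [hf2.coeFn_toLp] with x hx
      rw [hf2def, hx]
    have h3 : ∫ x, (𝓕 G) x • f x = ∫ x, G x • 𝓕 f x := by
      have := VectorFourier.integral_fourierIntegral_smul_eq_flip (μ := (volume : Measure E))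
        (ν := (volume : Measure E)) (L := innerₗ E) (f := (G : E → ℂ)) (g := f)
        Real.continuous_fourierChar
        (continuous_inner : Continuous fun p : E × E => (innerₗ E) p.1 p.2) (G.integrable) hf1
      rw [flip_innerₗ] at this
      exact this
    rw [h2, h3] at h1
    simp only [hGg] at h1
    simpa using h1.symm

lemma eLpNorm_fourier {f : E → ℂ} (hf1 : Integrable f) (hf2 : MemLp f 2 volume) :
    eLpNorm (𝓕 f) 2 volume = eLpNorm f 2 volume := by
  rw [← eLpNorm_congr_ae (fourier_ae_eq hf1 hf2), ← eLpNorm_congr_ae hf2.coeFn_toLp]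
  have h := MeasureTheory.Lp.norm_fourier_eq (hf2.toLp f : Lp ℂ 2 (volume : Measure E))
  rw [Lp.norm_def, Lp.norm_def] at h
  exact (ENNReal.toReal_eq_toReal_iff' (Lp.eLpNorm_ne_top _) (Lp.eLpNorm_ne_top _)).mp h

lemma lintegral_fourier_sq {f : E → ℂ} (hf1 : Integrable f) (hf2 : MemLp f 2 volume) :
    ∫⁻ x, ‖𝓕 f x‖ₑ ^ 2 = ∫⁻ x, ‖f x‖ₑ ^ 2 := by
  have h := eLpNorm_fourier hf1 hf2
  have e : ∀ g : E → ℂ, ∫⁻ x, ‖g x‖ₑ ^ 2 = (eLpNorm g 2 volume) ^ (2:ℝ) := by
    intro g
    rw [eLpNorm_eq_lintegral_rpow_enorm_toReal (by norm_num) (by norm_num)]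
    simp only [ENNReal.toReal_ofNat]
    rw [← ENNReal.rpow_mul]
    norm_num
  rw [e, e, h]

end Pool.Agent.Helper39.NS
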