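import Pool.Agent.Helper39.NS.Final

set_option autoImplicit false

open MeasureTheory Real Set

namespace Pool.Agent.Helper39.NS

lemma restrict_ball_eq : volume.restrict (Metric.ball (0:E) 1) = volume.restrict CB := by
  apply Measure.restrict_congr_set
  have h1 : volume (CB \ Metric.ball (0:E) 1) = 0 := by
    rw [measure_sdiff Metric.ball_subset_closedBall Metric.isOpen_ball.measurableSet.nullMeasurableSet
      measure_ball_lt_top.ne, Measure.addHaar_closedBall_eq_addHaar_ball, tsub_self]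
  exact (ae_eq_of_subset_of_measure_ge Metric.ball_subset_closedBall
    (by rw [Measure.addHaar_closedBall_eq_addHaar_ball])
    Metric.isOpen_ball.measurableSet.nullMeasurableSet measure_closedBall_lt_top.ne)

lemma eLpNorm_eq_nn {v : ℝ → E → E} (hv : Continuous (Function.uncurry v)) (t : ℝ) :
    eLpNorm (v t) 3 (volume.restrict (Metric.ball (0:E) 1)) = (ENNReal.ofReal (nn v t)) ^ (1 / 3 : ℝ) := by
  rw [restrict_ball_eq, eLpNorm_eq_lintegral_rpow_enorm_toReal (by norm_num) (by norm_num)]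
  simp only [ENNReal.toReal_ofNat]
  congr 1
  have hc : Continuous fun x => ‖v t x‖ ^ 3 := by
    have := hv.uncurry_left t
    fun_prop
  unfold nn
  rw [ofReal_integral_eq_lintegral_ofReal (integrableOn_of_continuous hc)
    (Filter.Eventually.of_forall fun x => by positivity)]
  congr 1; funext x
  rw [ENNReal.ofReal_pow (norm_nonneg _), ofReal_norm]
  norm_cast

/-- a step of the recursion, packaged -/
structure StepData (K : ℝ) (t₀ : ℝ) where
  v : ℝ → E → E
  p : ℝ → E → ℝ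
  t₁ : ℝ
  sol : IsSol v p
  cont : Continuous (Function.uncurry v)
  half : t₀ / 2 ≤ t₁
  neg : t₁ < 0
  early : ∀ t ∈ Icc (-1:ℝ) t₀, nn v t ≤ 1
  eq : nn v t₁ = 1
  late : ∀ t ∈ Icc t₁ 0, nn v t ≤ 1
  big : K < ‖v 0 0‖

lemma nonempty_stepData (K : ℝ) (t₀ : Ioo (-1:ℝ) 0) : Nonempty (StepData K t₀) := by
  obtain ⟨v, p, t₁, h1, h2, h3, h4, h5, h6, h7, h8⟩ := step K t₀ t₀.2
  exact ⟨⟨v, p, t₁, h1, h2, h3, h4, h5, h6, h7, h8⟩⟩

noncomputable def theStep (K : ℝ) (t₀ : Ioo (-1:ℝ) 0) : StepData K t₀ :=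
  Classical.choice (nonempty_stepData K t₀)

/-- the sequence of times -/
noncomputable def tm : ℕ → Ioo (-1:ℝ) 0
  | 0 => ⟨-1/2, by norm_num⟩
  | (k+1) => ⟨(theStep k (tm k)).t₁, by
      have h1 := (theStep k (tm k)).half
      have h2 := (theStep k (tm k)).neg
      have h3 := (tm k).2
      exact ⟨by linarith [h3.1], h2⟩⟩

lemma tm_succ (k : ℕ) : (tm (k+1) : ℝ) = (theStep k (tm k)).t₁ := rfl

lemma tm_half (k : ℕ) : (tm k : ℝ) / 2 ≤ tm (k+1) := (theStep k (tm k)).half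

lemma tm_mono : Monotone fun k => (tm k : ℝ) := by
  apply monotone_nat_of_le_succ
  intro k
  have h1 := tm_half k
  have h2 := (tm k).2.2
  linarith

lemma tm_bound (k : ℕ) : -(1 / 2 : ℝ) ^ (k + 1) ≤ tm k := by
  induction k with
  | zero => norm_num [tm]
  | succ k ih =>
    have h1 := tm_half k
    have : (1 / 2 : ℝ) ^ (k + 1 + 1) = (1 / 2) ^ (k + 1) / 2 := by rw [pow_succ]; ring
    rw [this]
    linarith

lemma tm_tendsto : Filter.Tendsto (fun k => (tm k : ℝ)) Filter.atTop (nhds 0) := by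
  have h1 : Filter.Tendsto (fun k : ℕ => -(1 / 2 : ℝ) ^ (k + 1)) Filter.atTop (nhds 0) := by
    have := (tendsto_pow_atTop_nhds_zero_of_lt_one (by norm_num : (0:ℝ) ≤ 1 / 2)
      (by norm_num : (1/2 : ℝ) < 1)).comp (Filter.tendsto_add_atTop_nat 1)
    simpa using this.neg
  exact tendsto_of_tendsto_of_tendsto_of_le_of_le h1 tendsto_const_nhds tm_bound
    (fun k => (tm k).2.2.le)

lemma nn_le (k n : ℕ) : nn (theStep k (tm k)).v (tm n) ≤ 1 := by
  rcases le_or_gt n k with h | h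
  · exact (theStep k (tm k)).early _ ⟨(tm n).2.1.le, tm_mono h⟩
  · have h1 : (tm (k+1) : ℝ) ≤ tm n := tm_mono (Nat.succ_le_of_lt h)
    exact (theStep k (tm k)).late _ ⟨by rw [← tm_succ]; exact h1, (tm n).2.2.le⟩

lemma iSup_eq (k : ℕ) : (⨆ n, eLpNorm ((theStep k (tm k)).v (tm n)) 3
    (volume.restrict (Metric.ball (0:E) 1))) = ENNReal.ofReal 1 := by
  have hc := (theStep k (tm k)).cont
  simp_rw [eLpNorm_eq_nn hc]
  rw [ENNReal.ofReal_one]
  apply le_antisymm
  · refine iSup_le fun n => ?_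
    have h1 : ENNReal.ofReal (nn (theStep k (tm k)).v (tm n)) ≤ 1 := by
      rw [← ENNReal.ofReal_one]
      exact ENNReal.ofReal_le_ofReal (nn_le k n)
    calc _ ≤ (1 : ENNReal) ^ (1 / 3 : ℝ) := ENNReal.rpow_le_rpow h1 (by norm_num)
      _ = 1 := ENNReal.one_rpow _
  · refine le_trans ?_ (le_iSup _ (k+1))
    rw [tm_succ, (theStep k (tm k)).eq]
    simp

/-- unboundedness near the space-time origin -/
lemma not_bounded (k : ℕ) {C : ℝ} (hC : C ≤ k) :
    ¬ ∃ r > 0, ∀ (s : ℝ) (x : E), s ∈ Set.Ioo (-r) 0 → ‖x‖ < r →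
      ‖(theStep k (tm k)).v s x‖ ≤ C := by
  rintro ⟨r, hr, hb⟩
  have hc := (theStep k (tm k)).cont
  have hbig := (theStep k (tm k)).big
  have hcont : Continuous fun s => ‖(theStep k (tm k)).v s 0‖ := (hc.uncurry_right 0).norm
  have hle : ‖(theStep k (tm k)).v 0 0‖ ≤ C := by
    have ht : Filter.Tendsto (fun s => ‖(theStep k (tm k)).v s 0‖) (nhdsWithin 0 (Iio 0))
        (nhds ‖(theStep k (tm k)).v 0 0‖) := (hcont.tendsto 0).mono_left nhdsWithin_le_nhds
    refine le_of_tendsto ht ?_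
    have hmem : Ioo (-r) 0 ∈ nhdsWithin (0:ℝ) (Iio 0) := Ioo_mem_nhdsLT (by linarith)
    filter_upwards [hmem] with s hs
    exact hb s 0 hs (by simpa using hr)
  linarith

end Pool.Agent.Helper39.NS
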