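import Pool.Agent.Helper39.NS.Energy

set_option autoImplicit false

open MeasureTheory Real Set

namespace Pool.Agent.Helper39.NS

/-- product integrals on `E` -/
lemma integral_prod3 {𝕜 : Type*} [RCLike 𝕜] (f0 f1 f2 : ℝ → 𝕜) :
    ∫ ξ : E, f0 (ξ 0) * f1 (ξ 1) * f2 (ξ 2) = (∫ s, f0 s) * (∫ s, f1 s) * (∫ s, f2 s) := by
  rw [← (PiLp.volume_preserving_toLp (Fin 3)).integral_comp
    (MeasurableEquiv.toLp 2 _).measurableEmbedding]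
  have h := integral_fintype_prod_volume_eq_prod (𝕜 := 𝕜) (ι := Fin 3) (E := fun _ => ℝ)
    (fun i => ![f0, f1, f2] i)
  simp only [Fin.prod_univ_three] at h
  simpa using h

/-- the diagonal scaling -/
noncomputable def Dg (σ : ℝ) : E →L[ℝ] E :=
  LinearMap.toContinuousLinearMap
    { toFun := fun ξ => WithLp.toLp 2 ![ξ 0, σ * ξ 1, σ * ξ 2]
      map_add' := fun x y => by
        ext i; fin_cases i <;> simp [mul_add]
      map_smul' := fun c x => by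
        ext i; fin_cases i <;> simp [mul_left_comm] }

@[simp] lemma Dg_zero (σ : ℝ) (ξ : E) : (Dg σ ξ) 0 = ξ 0 := rfl
@[simp] lemma Dg_one (σ : ℝ) (ξ : E) : (Dg σ ξ) 1 = σ * ξ 1 := rfl
@[simp] lemma Dg_two (σ : ℝ) (ξ : E) : (Dg σ ξ) 2 = σ * ξ 2 := rfl

lemma norm_sq_three (v : E) : ‖v‖ ^ 2 = v 0 ^ 2 + v 1 ^ 2 + v 2 ^ 2 := by
  rw [EuclideanSpace.norm_sq_eq, Fin.sum_univ_three]
  simp

lemma det_Dg {σ : ℝ} (hσ : σ ≠ 0) : LinearMap.det (Dg σ : E →ₗ[ℝ] E) ≠ 0 := by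
  rw [Ne, LinearMap.det_eq_zero_iff_ker_ne_bot, not_not, LinearMap.ker_eq_bot']
  intro x hx
  have hx' : Dg σ x = 0 := hx
  have h0 : (Dg σ x) 0 = 0 := by rw [hx']; rfl
  have h1 : (Dg σ x) 1 = 0 := by rw [hx']; rfl
  have h2 : (Dg σ x) 2 = 0 := by rw [hx']; rfl
  rw [Dg_zero] at h0
  rw [Dg_one] at h1
  rw [Dg_two] at h2
  have h1' : x 1 = 0 := by simpa [hσ] using h1
  have h2' : x 2 = 0 := by simpa [hσ] using h2
  ext i
  fin_cases i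
  · simpa using h0
  · simpa using h1'
  · simpa using h2'

/-- the Gaussian profile in the slow directions -/
noncomputable def gs (s : ℝ) : ℝ := Real.exp (-s ^ 2)

lemma gs_pos (s : ℝ) : 0 < gs s := Real.exp_pos _

lemma continuous_gs : Continuous gs := by unfold gs; fun_prop

lemma gs_neg (s : ℝ) : gs (-s) = gs s := by simp [gs]

noncomputable def c0 : ℝ := ∫ s, gs s
noncomputable def c2 : ℝ := ∫ s, s ^ 2 * gs s

lemma integrable_gs : Integrable gs := by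
  have := integrable_exp_neg_mul_sq (b := 1) one_pos
  have e : gs = fun x => Real.exp (-1 * x ^ 2) := by funext x; simp [gs]
  rw [e]
  exact this

lemma integrable_sq_gs : Integrable fun s : ℝ => s ^ 2 * gs s := by
  have := integrable_rpow_mul_exp_neg_mul_sq (b := 1) one_pos (s := 2) (by norm_num)
  simpa [gs] using this

lemma c0_pos : 0 < c0 := by
  unfold c0
  rw [integral_pos_iff_support_of_nonneg (fun s => (gs_pos s).le) integrable_gs]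
  have : Function.support gs = univ := by
    ext s; simp [(gs_pos s).ne']
  rw [this]
  simp

lemma c2_pos : 0 < c2 := by
  unfold c2
  rw [integral_pos_iff_support_of_nonneg (fun s => by have := gs_pos s; positivity)
    integrable_sq_gs]
  have : (Function.support fun s : ℝ => s ^ 2 * gs s) = {0}ᶜ := by
    ext s
    simp [(gs_pos s).ne']
  rw [this]
  have : volume ({0}ᶜ : Set ℝ) = ⊤ := by
    rw [measure_compl (measurableSet_singleton _) (by simp)]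
    simp
  rw [this]
  exact ENNReal.zero_lt_top

/-- admissible one dimensional profiles on the frequency side -/
structure Good (h : ℝ → ℂ) : Prop where
  cont : Continuous h
  herm : ∀ s, h (-s) = (starRingEnd ℂ) (h s)
  bound : ∃ C c : ℝ, 0 ≤ C ∧ 0 < c ∧ ∀ s, ‖h s‖ ≤ C * Real.exp (-c * s ^ 2)

/-- the initial data -/
noncomputable def V0 (h : ℝ → ℂ) (i : Fin 3) (ξ : E) : ℂ :=
  ![0, -(((c0 * c2)⁻¹ : ℝ) : ℂ) * (h (ξ 0) * ((ξ 1 * gs (ξ 1) : ℝ) : ℂ) * ((ξ 2 * gs (ξ 2) : ℝ) : ℂ)),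
    (((c0 * c2)⁻¹ : ℝ) : ℂ) * (h (ξ 0) * (((ξ 1) ^ 2 * gs (ξ 1) : ℝ) : ℂ) * ((gs (ξ 2) : ℝ) : ℂ))] i

lemma V0_zero (h : ℝ → ℂ) (ξ : E) : V0 h 0 ξ = 0 := rfl
lemma V0_one (h : ℝ → ℂ) (ξ : E) : V0 h 1 ξ = -(((c0 * c2)⁻¹ : ℝ) : ℂ) *
    (h (ξ 0) * ((ξ 1 * gs (ξ 1) : ℝ) : ℂ) * ((ξ 2 * gs (ξ 2) : ℝ) : ℂ)) := rfl
lemma V0_two (h : ℝ → ℂ) (ξ : E) : V0 h 2 ξ = (((c0 * c2)⁻¹ : ℝ) : ℂ) *
    (h (ξ 0) * (((ξ 1) ^ 2 * gs (ξ 1) : ℝ) : ℂ) * ((gs (ξ 2) : ℝ) : ℂ)) := rfl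

variable {h : ℝ → ℂ}

lemma continuous_V0 (hg : Good h) (i : Fin 3) : Continuous (V0 h i) := by
  have hc := hg.cont
  have hgs := continuous_gs
  fin_cases i
  · exact continuous_const
  · have : Continuous fun ξ : E => -(((c0 * c2)⁻¹ : ℝ) : ℂ) *
      (h (ξ 0) * ((ξ 1 * gs (ξ 1) : ℝ) : ℂ) * ((ξ 2 * gs (ξ 2) : ℝ) : ℂ)) := by fun_prop
    exact this
  · have : Continuous fun ξ : E => (((c0 * c2)⁻¹ : ℝ) : ℂ) *
      (h (ξ 0) * (((ξ 1) ^ 2 * gs (ξ 1) : ℝ) : ℂ) * ((gs (ξ 2) : ℝ) : ℂ)) := by fun_prop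
    exact this

lemma V0_symm (hg : Good h) (i : Fin 3) (ξ : E) : V0 h i (-ξ) = (starRingEnd ℂ) (V0 h i ξ) := by
  have hh := hg.herm (ξ 0)
  fin_cases i
  · simp [V0_zero]
  · change V0 h 1 (-ξ) = (starRingEnd ℂ) (V0 h 1 ξ)
    rw [V0_one, V0_one]
    simp only [map_mul, map_neg, Complex.conj_ofReal, PiLp.neg_apply, gs_neg, hh]
    push_cast
    ring
  · change V0 h 2 (-ξ) = (starRingEnd ℂ) (V0 h 2 ξ)
    rw [V0_two, V0_two]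
    simp only [map_mul, map_neg, Complex.conj_ofReal, PiLp.neg_apply, gs_neg, hh]
    push_cast
    ring

lemma div_V0 (σ : ℝ) (ξ : E) : ∑ i : Fin 3, sy (Dg σ) i ξ * V0 h i ξ = 0 := by
  rw [Fin.sum_univ_three, V0_zero, V0_one, V0_two]
  unfold sy
  rw [Dg_zero, Dg_one, Dg_two]
  push_cast
  ring

lemma weight_exp_bound {c : ℝ} (hc : 0 < c) (ξ : E) :
    (1 + ‖ξ‖) ^ 2 * (‖ξ‖ ^ 2 * Real.exp (-c * ‖ξ‖ ^ 2))
      ≤ ((Nat.factorial 8 : ℕ) : ℝ) * Real.exp (1 + 1 / c) * om ξ := by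
  set r := ‖ξ‖ with hr
  have hr0 : 0 ≤ r := norm_nonneg _
  have h8 := Real.pow_div_factorial_le_exp (1 + r) (by positivity) 8
  have hf : (0:ℝ) < ((Nat.factorial 8 : ℕ) : ℝ) := by positivity
  have h8' : (1 + r) ^ 8 ≤ ((Nat.factorial 8 : ℕ) : ℝ) * Real.exp (1 + r) := by
    rw [div_le_iff₀ hf] at h8; linarith
  have hpoly : (1 + r) ^ 2 * r ^ 2 * (1 + r ^ 2) ^ 2 ≤ (1 + r) ^ 8 := by
    have e1 : r ^ 2 ≤ (1 + r) ^ 2 := by nlinarith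
    have e2 : (1 + r ^ 2) ≤ (1 + r) ^ 2 := by nlinarith
    calc (1 + r) ^ 2 * r ^ 2 * (1 + r ^ 2) ^ 2
        ≤ (1 + r) ^ 2 * (1 + r) ^ 2 * ((1 + r) ^ 2) ^ 2 := by gcongr
      _ = (1 + r) ^ 8 := by ring
  have hexp : 2 * r - c * r ^ 2 ≤ 1 / c := by
    rw [le_div_iff₀ hc]
    nlinarith [sq_nonneg (c * r - 1)]
  have hom : om ξ = Real.exp (-r) * ((1 + r ^ 2) ^ 2)⁻¹ := rfl
  rw [hom]
  have hden : 0 < (1 + r ^ 2) ^ 2 := by positivity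
  have key : (1 + r) ^ 2 * (r ^ 2 * Real.exp (-c * r ^ 2)) * (1 + r ^ 2) ^ 2
      ≤ ((Nat.factorial 8 : ℕ) : ℝ) * Real.exp (1 + 1 / c) * Real.exp (-r) := by
    calc (1 + r) ^ 2 * (r ^ 2 * Real.exp (-c * r ^ 2)) * (1 + r ^ 2) ^ 2
        = ((1 + r) ^ 2 * r ^ 2 * (1 + r ^ 2) ^ 2) * Real.exp (-c * r ^ 2) := by ring
      _ ≤ (((Nat.factorial 8 : ℕ) : ℝ) * Real.exp (1 + r)) * Real.exp (-c * r ^ 2) := by
          apply mul_le_mul_of_nonneg_right (hpoly.trans h8') (Real.exp_pos _).le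
      _ = ((Nat.factorial 8 : ℕ) : ℝ) * Real.exp (1 + r + -c * r ^ 2) := by
          rw [mul_assoc, ← Real.exp_add]
      _ ≤ ((Nat.factorial 8 : ℕ) : ℝ) * Real.exp (1 + 1 / c + -r) := by
          apply mul_le_mul_of_nonneg_left _ hf.le
          apply Real.exp_le_exp.mpr
          linarith
      _ = _ := by rw [Real.exp_add, mul_assoc]
  calc (1 + r) ^ 2 * (r ^ 2 * Real.exp (-c * r ^ 2))
      = ((1 + r) ^ 2 * (r ^ 2 * Real.exp (-c * r ^ 2)) * (1 + r ^ 2) ^ 2) * ((1 + r ^ 2) ^ 2)⁻¹ := by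
        field_simp
    _ ≤ (((Nat.factorial 8 : ℕ) : ℝ) * Real.exp (1 + 1 / c) * Real.exp (-r)) * ((1 + r ^ 2) ^ 2)⁻¹ := by
        apply mul_le_mul_of_nonneg_right key (by positivity)
    _ = _ := by ring

lemma V0_bound (hg : Good h) :
    ∃ A : ℝ, 0 ≤ A ∧ ∀ i ξ, (1 + ‖ξ‖) ^ 2 * ‖V0 h i ξ‖ ≤ A * om ξ := by
  obtain ⟨C, c, hC, hc, hb⟩ := hg.bound
  set c' := min c 1 with hc'
  have hc'0 : 0 < c' := lt_min hc one_pos
  have hK : 0 < (c0 * c2)⁻¹ := by have := c0_pos; have := c2_pos; positivity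
  refine ⟨(c0 * c2)⁻¹ * C * (((Nat.factorial 8 : ℕ) : ℝ) * Real.exp (1 + 1 / c')),
    by positivity, fun i ξ => ?_⟩
  have hw := weight_exp_bound hc'0 ξ
  have habs : ∀ k : Fin 3, |ξ k| ≤ ‖ξ‖ := fun k => by simpa using PiLp.norm_apply_le ξ k
  have hgauss : Real.exp (-c * (ξ 0) ^ 2) * (gs (ξ 1) * gs (ξ 2)) ≤ Real.exp (-c' * ‖ξ‖ ^ 2) := by
    unfold gs
    rw [← Real.exp_add, ← Real.exp_add, norm_sq_three]
    apply Real.exp_le_exp.mpr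
    have h1 : c' ≤ c := min_le_left _ _
    have h2 : c' ≤ 1 := min_le_right _ _
    nlinarith [sq_nonneg (ξ 0), sq_nonneg (ξ 1), sq_nonneg (ξ 2)]
  have main : ∀ (q : ℝ), |q| ≤ ‖ξ‖ ^ 2 →
      (1 + ‖ξ‖) ^ 2 * ((c0 * c2)⁻¹ * (‖h (ξ 0)‖ * (|q| * (gs (ξ 1) * gs (ξ 2)))))
      ≤ (c0 * c2)⁻¹ * C * (((Nat.factorial 8 : ℕ) : ℝ) * Real.exp (1 + 1 / c')) * om ξ := by
    intro q hq
    have hg1 := gs_pos (ξ 1)
    have hg2 := gs_pos (ξ 2)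
    calc (1 + ‖ξ‖) ^ 2 * ((c0 * c2)⁻¹ * (‖h (ξ 0)‖ * (|q| * (gs (ξ 1) * gs (ξ 2)))))
        ≤ (1 + ‖ξ‖) ^ 2 * ((c0 * c2)⁻¹ * ((C * Real.exp (-c * (ξ 0) ^ 2)) *
            (‖ξ‖ ^ 2 * (gs (ξ 1) * gs (ξ 2))))) := by
          have := hb (ξ 0)
          gcongr
      _ = (c0 * c2)⁻¹ * C * ((1 + ‖ξ‖) ^ 2 * (‖ξ‖ ^ 2 *
            (Real.exp (-c * (ξ 0) ^ 2) * (gs (ξ 1) * gs (ξ 2))))) := by ring
      _ ≤ (c0 * c2)⁻¹ * C * ((1 + ‖ξ‖) ^ 2 * (‖ξ‖ ^ 2 * Real.exp (-c' * ‖ξ‖ ^ 2))) := by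
          gcongr
      _ ≤ (c0 * c2)⁻¹ * C * (((Nat.factorial 8 : ℕ) : ℝ) * Real.exp (1 + 1 / c') * om ξ) := by
          gcongr
      _ = _ := by ring
  fin_cases i
  · change (1 + ‖ξ‖) ^ 2 * ‖V0 h 0 ξ‖ ≤ _
    rw [V0_zero, norm_zero, mul_zero]
    have := om_pos ξ
    positivity
  · change (1 + ‖ξ‖) ^ 2 * ‖V0 h 1 ξ‖ ≤ _
    have e : ‖V0 h 1 ξ‖ = (c0 * c2)⁻¹ * (‖h (ξ 0)‖ * (|ξ 1 * ξ 2| * (gs (ξ 1) * gs (ξ 2)))) := by
      rw [V0_one]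
      simp only [norm_mul, norm_neg, Complex.norm_real, Real.norm_eq_abs, abs_mul,
        abs_of_pos (gs_pos _), abs_of_pos hK]
      ring
    rw [e]
    apply main
    rw [abs_mul, sq]
    exact mul_le_mul (habs 1) (habs 2) (abs_nonneg _) (norm_nonneg _)
  · change (1 + ‖ξ‖) ^ 2 * ‖V0 h 2 ξ‖ ≤ _
    have e : ‖V0 h 2 ξ‖ = (c0 * c2)⁻¹ * (‖h (ξ 0)‖ * (|ξ 1 ^ 2| * (gs (ξ 1) * gs (ξ 2)))) := by
      rw [V0_two]
      simp only [norm_mul, Complex.norm_real, Real.norm_eq_abs, abs_mul,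
        abs_of_pos (gs_pos _), abs_of_pos hK]
      ring
    rw [e]
    apply main
    rw [abs_pow]
    have := habs 1
    gcongr

end Pool.Agent.Helper39.NS
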