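import Pool.Agent.Helper39.NS.Conv

set_option autoImplicit false

open MeasureTheory Real Set

namespace Pool.Agent.Helper39.NS

/-- the open unit time interval -/
abbrev TT : Set ℝ := Ioo (0:ℝ) 1

/-- rapidly decreasing functions of the frequency, continuous in time -/
structure Sm0 (F : ℝ → E → ℂ) : Prop where
  meas : ∀ τ ∈ TT, Measurable (F τ)
  cont : ∀ ξ, ContinuousOn (fun τ => F τ ξ) TT
  decay : ∀ m : ℕ, ∃ C : ℝ, 0 ≤ C ∧ ∀ τ ∈ TT, ∀ ξ, (1 + ‖ξ‖) ^ m * ‖F τ ξ‖ ≤ C * pw ξ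

/-- rapidly decreasing functions of the frequency, `n` times differentiable in time -/
def Sm : ℕ → (ℝ → E → ℂ) → Prop
  | 0, F => Sm0 F
  | (n+1), F => Sm0 F ∧ ∃ F' : ℝ → E → ℂ, Sm n F' ∧
      ∀ τ ∈ TT, ∀ ξ, HasDerivAt (fun t => F t ξ) (F' τ ξ) τ

lemma Sm.sm0 {n : ℕ} {F : ℝ → E → ℂ} (h : Sm n F) : Sm0 F := by
  cases n with
  | zero => exact h
  | succ n => exact h.1

lemma Sm.pred {n : ℕ} : ∀ {F : ℝ → E → ℂ}, Sm (n+1) F → Sm n F := by
  induction n with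
  | zero => intro F h; exact h.1
  | succ n ih =>
    intro F h
    obtain ⟨h0, F', hF', hd⟩ := h
    exact ⟨h0, F', ih hF', hd⟩

lemma Sm0.add {F G : ℝ → E → ℂ} (hF : Sm0 F) (hG : Sm0 G) : Sm0 (fun τ ξ => F τ ξ + G τ ξ) where
  meas := fun τ hτ => (hF.meas τ hτ).add (hG.meas τ hτ)
  cont := fun ξ => (hF.cont ξ).add (hG.cont ξ)
  decay := fun m => by
    obtain ⟨C, hC0, hC⟩ := hF.decay m
    obtain ⟨D, hD0, hD⟩ := hG.decay m
    refine ⟨C + D, by positivity, fun τ hτ ξ => ?_⟩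
    have h1 := hC τ hτ ξ
    have h2 := hD τ hτ ξ
    have h3 := norm_add_le (F τ ξ) (G τ ξ)
    have h4 : (0:ℝ) ≤ (1 + ‖ξ‖) ^ m := by positivity
    calc (1 + ‖ξ‖) ^ m * ‖F τ ξ + G τ ξ‖ ≤ (1 + ‖ξ‖) ^ m * (‖F τ ξ‖ + ‖G τ ξ‖) :=
          mul_le_mul_of_nonneg_left h3 h4
      _ = (1 + ‖ξ‖) ^ m * ‖F τ ξ‖ + (1 + ‖ξ‖) ^ m * ‖G τ ξ‖ := by ring
      _ ≤ _ := by linarith

lemma Sm.add {n : ℕ} : ∀ {F G : ℝ → E → ℂ}, Sm n F → Sm n G → Sm n (fun τ ξ => F τ ξ + G τ ξ) := by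
  induction n with
  | zero => intro F G hF hG; exact Sm0.add hF hG
  | succ n ih =>
    intro F G hF hG
    obtain ⟨hF0, F', hF', hdF⟩ := hF
    obtain ⟨hG0, G', hG', hdG⟩ := hG
    exact ⟨hF0.add hG0, _, ih hF' hG', fun τ hτ ξ => (hdF τ hτ ξ).add (hdG τ hτ ξ)⟩

/-- multipliers: measurable with polynomial growth -/
def Mult (m : E → ℂ) : Prop :=
  Measurable m ∧ ∃ (k : ℕ) (C : ℝ), 0 ≤ C ∧ ∀ ξ, ‖m ξ‖ ≤ C * (1 + ‖ξ‖) ^ k

lemma Sm0.mult {F : ℝ → E → ℂ} (hF : Sm0 F) {m : E → ℂ} (hm : Mult m) :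
    Sm0 (fun τ ξ => m ξ * F τ ξ) where
  meas := fun τ hτ => hm.1.mul (hF.meas τ hτ)
  cont := fun ξ => continuousOn_const.mul (hF.cont ξ)
  decay := fun l => by
    obtain ⟨k, C, hC0, hC⟩ := hm.2
    obtain ⟨D, hD0, hD⟩ := hF.decay (l + k)
    refine ⟨C * D, by positivity, fun τ hτ ξ => ?_⟩
    have h1 := hC ξ
    have h2 := hD τ hτ ξ
    rw [norm_mul]
    calc (1 + ‖ξ‖) ^ l * (‖m ξ‖ * ‖F τ ξ‖) ≤ (1 + ‖ξ‖) ^ l * ((C * (1 + ‖ξ‖) ^ k) * ‖F τ ξ‖) := by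
          gcongr
      _ = C * ((1 + ‖ξ‖) ^ (l + k) * ‖F τ ξ‖) := by rw [pow_add]; ring
      _ ≤ C * (D * pw ξ) := by gcongr
      _ = _ := by ring

lemma Sm.mult {n : ℕ} {m : E → ℂ} (hm : Mult m) :
    ∀ {F : ℝ → E → ℂ}, Sm n F → Sm n (fun τ ξ => m ξ * F τ ξ) := by
  induction n with
  | zero => intro F hF; exact Sm0.mult hF hm
  | succ n ih =>
    intro F hF
    obtain ⟨hF0, F', hF', hdF⟩ := hF
    exact ⟨hF0.mult hm, _, ih hF', fun τ hτ ξ => (hdF τ hτ ξ).const_mul (m ξ)⟩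

lemma Mult.const (c : ℂ) : Mult (fun _ => c) :=
  ⟨measurable_const, 0, ‖c‖, norm_nonneg _, fun ξ => by simp⟩

lemma Mult.mul {m m' : E → ℂ} (h : Mult m) (h' : Mult m') : Mult (fun ξ => m ξ * m' ξ) := by
  obtain ⟨h1, k, C, hC0, hC⟩ := h
  obtain ⟨h1', k', C', hC0', hC'⟩ := h'
  refine ⟨h1.mul h1', k + k', C * C', by positivity, fun ξ => ?_⟩
  rw [norm_mul, pow_add]
  calc ‖m ξ‖ * ‖m' ξ‖ ≤ (C * (1 + ‖ξ‖) ^ k) * (C' * (1 + ‖ξ‖) ^ k') :=
        mul_le_mul (hC ξ) (hC' ξ) (norm_nonneg _) (by positivity)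
    _ = _ := by ring

lemma Mult.add {m m' : E → ℂ} (h : Mult m) (h' : Mult m') : Mult (fun ξ => m ξ + m' ξ) := by
  obtain ⟨h1, k, C, hC0, hC⟩ := h
  obtain ⟨h1', k', C', hC0', hC'⟩ := h'
  refine ⟨h1.add h1', k + k', C + C', by positivity, fun ξ => ?_⟩
  have hx : (1:ℝ) ≤ 1 + ‖ξ‖ := by have := norm_nonneg ξ; linarith
  have e1 : (1 + ‖ξ‖) ^ k ≤ (1 + ‖ξ‖) ^ (k + k') := pow_le_pow_right₀ hx (by omega)
  have e2 : (1 + ‖ξ‖) ^ k' ≤ (1 + ‖ξ‖) ^ (k + k') := pow_le_pow_right₀ hx (by omega)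
  calc ‖m ξ + m' ξ‖ ≤ ‖m ξ‖ + ‖m' ξ‖ := norm_add_le _ _
    _ ≤ C * (1 + ‖ξ‖) ^ k + C' * (1 + ‖ξ‖) ^ k' := add_le_add (hC ξ) (hC' ξ)
    _ ≤ C * (1 + ‖ξ‖) ^ (k+k') + C' * (1 + ‖ξ‖) ^ (k+k') := by gcongr
    _ = _ := by ring

lemma Mult.of_le {m : E → ℂ} (h1 : Measurable m) {k : ℕ} {C : ℝ} (hC : 0 ≤ C)
    (h : ∀ ξ, ‖m ξ‖ ≤ C * (1 + ‖ξ‖) ^ k) : Mult m := ⟨h1, k, C, hC, h⟩

lemma Sm.smul {n : ℕ} {F : ℝ → E → ℂ} (c : ℂ) (hF : Sm n F) : Sm n (fun τ ξ => c * F τ ξ) :=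
  Sm.mult (Mult.const c) hF

lemma Sm0.zero : Sm0 (fun _ _ => (0:ℂ)) where
  meas := fun _ _ => measurable_const
  cont := fun _ => continuousOn_const
  decay := fun m => ⟨0, le_refl _, fun τ _ ξ => by simp⟩

lemma Sm.zero (n : ℕ) : Sm n (fun _ _ => (0:ℂ)) := by
  induction n with
  | zero => exact Sm0.zero
  | succ n ih => exact ⟨Sm0.zero, _, ih, fun τ _ ξ => hasDerivAt_const _ _⟩

lemma Sm.sum {n : ℕ} {ι : Type*} (s : Finset ι) {F : ι → ℝ → E → ℂ} (h : ∀ i ∈ s, Sm n (F i)) :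
    Sm n (fun τ ξ => ∑ i ∈ s, F i τ ξ) := by
  classical
  induction s using Finset.induction_on with
  | empty => simpa using Sm.zero n
  | insert a s ha ih =>
    have h1 := h a (Finset.mem_insert_self a s)
    have h2 := ih (fun i hi => h i (Finset.mem_insert_of_mem hi))
    have := h1.add h2
    simpa [Finset.sum_insert ha] using this

lemma norm_le_pw_of_decay {f : E → ℂ} {C : ℝ} (m : ℕ) {ξ : E}
    (h : (1 + ‖ξ‖) ^ m * ‖f ξ‖ ≤ C * pw ξ) : ‖f ξ‖ ≤ C * pw ξ := by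
  refine le_trans ?_ h
  have : (1:ℝ) ≤ (1 + ‖ξ‖) ^ m := one_le_pow₀ (by have := norm_nonneg ξ; linarith)
  nlinarith [norm_nonneg (f ξ)]

lemma Sm0.integrable {F : ℝ → E → ℂ} (hF : Sm0 F) {τ : ℝ} (hτ : τ ∈ TT) : Integrable (F τ) := by
  obtain ⟨C, hC0, hC⟩ := hF.decay 0
  refine (integrable_pw.const_mul C).mono' (hF.meas τ hτ).aestronglyMeasurable
    (Filter.Eventually.of_forall fun ξ => norm_le_pw_of_decay 0 (hC τ hτ ξ))

lemma pw_conv_le (ξ : E) : ∫ η, pw (ξ - η) * pw η ≤ C0 * pw ξ := by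
  have hint : Integrable fun η => pw ξ * (8 * (pw (ξ - η) + pw η)) :=
    (((integrable_pw_sub ξ).add integrable_pw).const_mul 8).const_mul _
  calc ∫ η, pw (ξ - η) * pw η ≤ ∫ η, pw ξ * (8 * (pw (ξ - η) + pw η)) := by
        apply integral_mono_of_nonneg
        · exact Filter.Eventually.of_forall fun η => by
            have := pw_pos (ξ - η); have := pw_pos η; positivity
        · exact hint
        · exact Filter.Eventually.of_forall fun η => by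
            have := pw_mul_le ξ η
            simp only
            linarith
    _ = C0 * pw ξ := by
        rw [integral_const_mul, integral_const_mul,
          integral_add (integrable_pw_sub ξ) integrable_pw, integral_pw_sub, C0]
        ring

lemma integrable_pw_mul (ξ : E) : Integrable fun η => pw (ξ - η) * pw η := by
  refine integrable_pw.mono' ?_ (Filter.Eventually.of_forall fun η => ?_)
  · exact ((continuous_pw.comp (by fun_prop)).mul continuous_pw).aestronglyMeasurable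
  · rw [Real.norm_of_nonneg (by have := pw_pos (ξ - η); have := pw_pos η; positivity)]
    have := pw_pos η
    have := pw_le_one (ξ - η)
    nlinarith

lemma Sm0.cv {F G : ℝ → E → ℂ} (hF : Sm0 F) (hG : Sm0 G) :
    Sm0 (fun τ ξ => cv (F τ) (G τ) ξ) where
  meas := fun τ hτ => by
    have h1 : Measurable fun p : E × E => F τ (p.1 - p.2) * G τ p.2 :=
      ((hF.meas τ hτ).comp (measurable_fst.sub measurable_snd)).mul
        ((hG.meas τ hτ).comp measurable_snd)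
    have := h1.stronglyMeasurable.integral_prod_right' (ν := (volume : Measure E))
    exact this.measurable
  cont := fun ξ => by
    obtain ⟨C, hC0, hC⟩ := hF.decay 0
    obtain ⟨D, hD0, hD⟩ := hG.decay 0
    unfold NS.cv
    refine continuousOn_of_dominated (bound := fun η => C * D * pw η) ?_ ?_ ?_ ?_
    · intro τ hτ
      exact (((hF.meas τ hτ).comp (measurable_const.sub measurable_id)).mul
        (hG.meas τ hτ)).aestronglyMeasurable
    · intro τ hτ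
      refine Filter.Eventually.of_forall fun η => ?_
      rw [norm_mul]
      have h1 := norm_le_pw_of_decay 0 (hC τ hτ (ξ - η))
      have h2 := norm_le_pw_of_decay 0 (hD τ hτ η)
      have h3 := pw_le_one (ξ - η)
      have h4 := pw_pos η
      calc ‖F τ (ξ - η)‖ * ‖G τ η‖ ≤ (C * pw (ξ - η)) * (D * pw η) :=
            mul_le_mul h1 h2 (norm_nonneg _) ((norm_nonneg _).trans h1)
        _ ≤ (C * 1) * (D * pw η) := by gcongr
        _ = _ := by ring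
    · exact integrable_pw.const_mul _
    · refine Filter.Eventually.of_forall fun η => ?_
      exact (hF.cont _).mul (hG.cont _)
  decay := fun m => by
    obtain ⟨C, hC0, hC⟩ := hF.decay m
    obtain ⟨D, hD0, hD⟩ := hG.decay m
    refine ⟨C * D * C0, by have := C0_nonneg; positivity, fun τ hτ ξ => ?_⟩
    have key : ∀ η, ‖((1 + ‖ξ‖) ^ m : ℝ) • (F τ (ξ - η) * G τ η)‖ ≤ (C * D) * (pw (ξ - η) * pw η) := by
      intro η
      rw [norm_smul, norm_mul, Real.norm_of_nonneg (by positivity)]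
      have h1 := hC τ hτ (ξ - η)
      have h2 := hD τ hτ η
      have h3 : (1 + ‖ξ‖) ≤ (1 + ‖ξ - η‖) * (1 + ‖η‖) := by
        have : ‖ξ‖ ≤ ‖ξ - η‖ + ‖η‖ := by
          calc ‖ξ‖ = ‖(ξ - η) + η‖ := by simp
            _ ≤ _ := norm_add_le _ _
        nlinarith [norm_nonneg (ξ - η), norm_nonneg η]
      calc (1 + ‖ξ‖) ^ m * (‖F τ (ξ - η)‖ * ‖G τ η‖)
          ≤ ((1 + ‖ξ - η‖) * (1 + ‖η‖)) ^ m * (‖F τ (ξ - η)‖ * ‖G τ η‖) := by gcongr
        _ = ((1 + ‖ξ - η‖) ^ m * ‖F τ (ξ - η)‖) * ((1 + ‖η‖) ^ m * ‖G τ η‖) := by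
            rw [mul_pow]; ring
        _ ≤ (C * pw (ξ - η)) * (D * pw η) := by
            apply mul_le_mul h1 h2 (by positivity)
            exact le_trans (by positivity) h1
        _ = _ := by ring
    calc (1 + ‖ξ‖) ^ m * ‖NS.cv (F τ) (G τ) ξ‖
        = ‖∫ η, ((1 + ‖ξ‖) ^ m : ℝ) • (F τ (ξ - η) * G τ η)‖ := by
          rw [integral_smul, norm_smul, Real.norm_of_nonneg (by positivity)]; rfl
      _ ≤ ∫ η, (C * D) * (pw (ξ - η) * pw η) :=
          norm_integral_le_of_norm_le ((integrable_pw_mul ξ).const_mul _)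
            (Filter.Eventually.of_forall key)
      _ = (C * D) * ∫ η, (pw (ξ - η) * pw η) := integral_const_mul _ _
      _ ≤ (C * D) * (C0 * pw ξ) := by
          apply mul_le_mul_of_nonneg_left (pw_conv_le ξ) (by positivity)
      _ = _ := by ring

lemma Sm0.cv_integrable {F G : ℝ → E → ℂ} (hF : Sm0 F) (hG : Sm0 G) {τ : ℝ} (hτ : τ ∈ TT)
    (ξ : E) : Integrable fun η => F τ (ξ - η) * G τ η := by
  obtain ⟨C, hC0, hC⟩ := hF.decay 0
  obtain ⟨D, hD0, hD⟩ := hG.decay 0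
  refine ((integrable_pw_mul ξ).const_mul (C * D)).mono'
    (((hF.meas τ hτ).comp (measurable_const.sub measurable_id)).mul
        (hG.meas τ hτ)).aestronglyMeasurable
    (Filter.Eventually.of_forall fun η => ?_)
  rw [norm_mul]
  have h1 := norm_le_pw_of_decay 0 (hC τ hτ (ξ - η))
  have h2 := norm_le_pw_of_decay 0 (hD τ hτ η)
  calc ‖F τ (ξ - η)‖ * ‖G τ η‖ ≤ (C * pw (ξ - η)) * (D * pw η) :=
        mul_le_mul h1 h2 (norm_nonneg _) ((norm_nonneg _).trans h1)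
    _ = _ := by ring

lemma hasDerivAt_cv {F G F' G' : ℝ → E → ℂ} (hF : Sm0 F) (hG : Sm0 G) (hF' : Sm0 F')
    (hG' : Sm0 G') (hdF : ∀ τ ∈ TT, ∀ ξ, HasDerivAt (fun t => F t ξ) (F' τ ξ) τ)
    (hdG : ∀ τ ∈ TT, ∀ ξ, HasDerivAt (fun t => G t ξ) (G' τ ξ) τ) {τ : ℝ} (hτ : τ ∈ TT) (ξ : E) :
    HasDerivAt (fun t => cv (F t) (G t) ξ) (cv (F' τ) (G τ) ξ + cv (F τ) (G' τ) ξ) τ := by
  obtain ⟨C, hC0, hC⟩ := hF.decay 0
  obtain ⟨D, hD0, hD⟩ := hG.decay 0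
  obtain ⟨C', hC0', hC'⟩ := hF'.decay 0
  obtain ⟨D', hD0', hD'⟩ := hG'.decay 0
  have e : cv (F' τ) (G τ) ξ + cv (F τ) (G' τ) ξ
      = ∫ η, (F' τ (ξ - η) * G τ η + F τ (ξ - η) * G' τ η) := by
    rw [integral_add (hF'.cv_integrable hG hτ ξ) (hF.cv_integrable hG' hτ ξ)]; rfl
  rw [e]
  unfold cv
  have hmem : TT ∈ nhds τ := isOpen_Ioo.mem_nhds hτ
  refine (hasDerivAt_integral_of_dominated_loc_of_deriv_le (s := TT)
    (F' := fun t η => F' t (ξ - η) * G t η + F t (ξ - η) * G' t η)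
    (bound := fun η => (C' * D + C * D') * (pw (ξ - η) * pw η)) hmem ?_ ?_ ?_ ?_ ?_ ?_).2
  · filter_upwards [hmem] with t ht
    exact (hF.cv_integrable hG ht ξ).aestronglyMeasurable
  · exact hF.cv_integrable hG hτ ξ
  · exact ((hF'.cv_integrable hG hτ ξ).add (hF.cv_integrable hG' hτ ξ)).aestronglyMeasurable
  · refine Filter.Eventually.of_forall fun η t ht => ?_
    have h1 := norm_le_pw_of_decay 0 (hC t ht (ξ - η))
    have h2 := norm_le_pw_of_decay 0 (hD t ht η)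
    have h3 := norm_le_pw_of_decay 0 (hC' t ht (ξ - η))
    have h4 := norm_le_pw_of_decay 0 (hD' t ht η)
    calc ‖F' t (ξ - η) * G t η + F t (ξ - η) * G' t η‖
        ≤ ‖F' t (ξ - η)‖ * ‖G t η‖ + ‖F t (ξ - η)‖ * ‖G' t η‖ := by
          refine (norm_add_le _ _).trans ?_
          rw [norm_mul, norm_mul]
      _ ≤ (C' * pw (ξ - η)) * (D * pw η) + (C * pw (ξ - η)) * (D' * pw η) :=
          add_le_add (mul_le_mul h3 h2 (norm_nonneg _) ((norm_nonneg _).trans h3))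
            (mul_le_mul h1 h4 (norm_nonneg _) ((norm_nonneg _).trans h1))
      _ = _ := by ring
  · exact (integrable_pw_mul ξ).const_mul _
  · refine Filter.Eventually.of_forall fun η t ht => ?_
    exact (hdF t ht _).mul (hdG t ht _)

lemma Sm.cv {n : ℕ} : ∀ {F G : ℝ → E → ℂ}, Sm n F → Sm n G →
    Sm n (fun τ ξ => cv (F τ) (G τ) ξ) := by
  induction n with
  | zero => intro F G hF hG; exact Sm0.cv hF hG
  | succ n ih =>
    intro F G hF hG
    have hFn := hF.pred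
    have hGn := hG.pred
    obtain ⟨hF0, F', hF', hdF⟩ := hF
    obtain ⟨hG0, G', hG', hdG⟩ := hG
    refine ⟨hF0.cv hG0, fun τ ξ => NS.cv (F' τ) (G τ) ξ + NS.cv (F τ) (G' τ) ξ,
      (ih hF' hGn).add (ih hFn hG'), fun τ hτ ξ => ?_⟩
    exact hasDerivAt_cv hF0 hG0 hF'.sm0 hG'.sm0 hdF hdG hτ ξ

end Pool.Agent.Helper39.NS
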