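import Pool.Agent.Helper39.NS.Symb

set_option autoImplicit false

open MeasureTheory Real Set FourierTransform

namespace Pool.Agent.Helper39.NS

/-- coordinate functional -/
noncomputable def pj (k : Fin 3) : E →L[ℝ] ℝ := EuclideanSpace.proj k

@[simp] lemma pj_apply (k : Fin 3) (x : E) : pj k x = x k := rfl

/-- the plane wave `exp (-2π i ⟨x, D ξ⟩)` -/
noncomputable def ek (D : E →L[ℝ] E) (x ξ : E) : ℂ :=
  Complex.exp (((-2 * π * inner ℝ x (D ξ) : ℝ) : ℂ) * Complex.I)

/-- the symbol of the derivative in direction `k` -/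
noncomputable def sy (D : E →L[ℝ] E) (k : Fin 3) (ξ : E) : ℂ :=
  ((-2 * π * (D ξ) k : ℝ) : ℂ) * Complex.I

/-- the synthesis operator -/
noncomputable def II (D : E →L[ℝ] E) (F : ℝ → E → ℂ) (p : ℝ × E) : ℂ :=
  ∫ ξ, ek D p.2 ξ * F p.1 ξ

variable {D : E →L[ℝ] E}

lemma norm_ek (x ξ : E) : ‖ek D x ξ‖ = 1 := by
  unfold ek
  exact Complex.norm_exp_ofReal_mul_I _

lemma continuous_ek : Continuous (fun p : E × E => ek D p.1 p.2) := by
  unfold ek
  fun_prop

lemma continuous_ek_left (ξ : E) : Continuous (fun x : E => ek D x ξ) := by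
  unfold ek
  fun_prop

lemma continuous_ek_right (x : E) : Continuous (fun ξ : E => ek D x ξ) := by
  unfold ek
  fun_prop

lemma II_eq_fourier (F : ℝ → E → ℂ) (p : ℝ × E) :
    II D F p = 𝓕 (F p.1) (ContinuousLinearMap.adjoint D p.2) := by
  rw [Real.fourier_eq']
  unfold II
  congr 1; ext ξ
  rw [smul_eq_mul, ek]
  congr 4
  rw [real_inner_comm, ContinuousLinearMap.adjoint_inner_right, real_inner_comm]

lemma continuous_sy (k : Fin 3) : Continuous (sy D k) := by
  unfold sy
  fun_prop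

lemma norm_sy_le (k : Fin 3) (ξ : E) : ‖sy D k ξ‖ ≤ 2 * π * ‖D ξ‖ := by
  unfold sy
  rw [norm_mul, Complex.norm_I, mul_one, Complex.norm_real, norm_mul, Real.norm_eq_abs]
  have h1 : |(-2 * π : ℝ)| = 2 * π := by
    rw [abs_of_neg (by have := Real.pi_pos; linarith)]; ring
  rw [h1]
  exact mul_le_mul_of_nonneg_left (PiLp.norm_apply_le (D ξ) k) (by positivity)

lemma mult_sy (k : Fin 3) : Mult (sy D k) := by
  refine Mult.of_le (continuous_sy k).measurable (k := 1) (C := 2 * π * ‖D‖) (by positivity) ?_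
  intro ξ
  refine (norm_sy_le k ξ).trans ?_
  have h := D.le_opNorm ξ
  have h1 : (0:ℝ) ≤ ‖D‖ := norm_nonneg _
  have h2 := norm_nonneg ξ
  have h3 : ‖D ξ‖ ≤ ‖D‖ * (1 + ‖ξ‖) := by nlinarith
  calc 2 * π * ‖D ξ‖ ≤ 2 * π * (‖D‖ * (1 + ‖ξ‖)) :=
        mul_le_mul_of_nonneg_left h3 (by positivity)
    _ = _ := by ring

/-- derivative of the plane wave -/
lemma hasFDerivAt_ek (x ξ : E) :
    HasFDerivAt (fun x => ek D x ξ)
      (∑ k : Fin 3, (pj k).smulRight (sy D k ξ * ek D x ξ)) x := by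
  have h1 : HasFDerivAt (fun x : E => (((-2 * π * inner ℝ x (D ξ) : ℝ) : ℂ) * Complex.I))
      (∑ k : Fin 3, (pj k).smulRight (sy D k ξ)) x := by
    have : (fun x : E => (((-2 * π * inner ℝ x (D ξ) : ℝ) : ℂ) * Complex.I))
        = fun x : E => (∑ k : Fin 3, (pj k).smulRight (sy D k ξ)) x := by
      ext x
      simp only [_root_.sum_apply, ContinuousLinearMap.smulRight_apply,
        pj_apply, PiLp.inner_apply, sy]
      simp only [RCLike.inner_apply, conj_trivial]
      rw [Finset.mul_sum]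
      push_cast
      rw [Finset.sum_mul]
      refine Finset.sum_congr rfl fun k _ => ?_
      simp only [Complex.real_smul]
      push_cast
      ring
    rw [this]
    exact ContinuousLinearMap.hasFDerivAt _
  have h2 := h1.cexp
  refine h2.congr_fderiv ?_
  ext h
  simp only [_root_.sum_apply, ContinuousLinearMap.smulRight_apply,
    _root_.smul_apply, Finset.smul_sum, smul_eq_mul, ek, Complex.real_smul]
  refine Finset.sum_congr rfl fun k _ => ?_
  ring

lemma II_integrable {F : ℝ → E → ℂ} (hF : Sm0 F) {τ : ℝ} (hτ : τ ∈ TT) (x : E) :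
    Integrable fun ξ => ek D x ξ * F τ ξ := by
  obtain ⟨C, hC0, hC⟩ := hF.decay 0
  refine (integrable_pw.const_mul C).mono'
    ((continuous_ek_right x).measurable.mul (hF.meas τ hτ)).aestronglyMeasurable
    (Filter.Eventually.of_forall fun ξ => ?_)
  rw [norm_mul, norm_ek, one_mul]
  exact norm_le_pw_of_decay 0 (hC τ hτ ξ)

lemma continuousOn_II {F : ℝ → E → ℂ} (hF : Sm0 F) :
    ContinuousOn (II D F) (TT ×ˢ univ) := by
  obtain ⟨C, hC0, hC⟩ := hF.decay 0
  unfold II
  refine continuousOn_of_dominated (bound := fun ξ => C * pw ξ) ?_ ?_ ?_ ?_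
  · rintro ⟨τ, x⟩ ⟨hτ, -⟩
    exact (II_integrable hF hτ x).aestronglyMeasurable
  · rintro ⟨τ, x⟩ ⟨hτ, -⟩
    refine Filter.Eventually.of_forall fun ξ => ?_
    rw [norm_mul, norm_ek, one_mul]
    exact norm_le_pw_of_decay 0 (hC τ hτ ξ)
  · exact integrable_pw.const_mul _
  · refine Filter.Eventually.of_forall fun ξ => ?_
    refine ContinuousOn.mul ?_ ?_
    · exact ((continuous_ek_left ξ).comp continuous_snd).continuousOn
    · exact (hF.cont ξ).comp continuousOn_fst (fun p hp => hp.1)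

/-- the derivative of `II D F` in terms of time derivative and symbols -/
noncomputable def dII (D : E →L[ℝ] E) (F F' : ℝ → E → ℂ) (p : ℝ × E) : ℝ × E →L[ℝ] ℂ :=
  (ContinuousLinearMap.fst ℝ ℝ E).smulRight (II D F' p) +
    ∑ k : Fin 3, ((pj k).comp
      (ContinuousLinearMap.snd ℝ ℝ E)).smulRight (II D (fun τ ξ => sy D k ξ * F τ ξ) p)

lemma hasFDerivAt_II {F F' : ℝ → E → ℂ} (hF : Sm0 F) (hF' : Sm0 F')
    (hd : ∀ τ ∈ TT, ∀ ξ, HasDerivAt (fun t => F t ξ) (F' τ ξ) τ) {p : ℝ × E}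
    (hp : p ∈ TT ×ˢ (univ : Set E)) : HasFDerivAt (II D F) (dII D F F' p) p := by
  have hopen : IsOpen (TT ×ˢ (univ : Set E)) := isOpen_Ioo.prod isOpen_univ
  have hmem := hopen.mem_nhds hp
  obtain ⟨C, hC0, hC⟩ := hF'.decay 0
  have hk : ∀ k : Fin 3, Sm0 (fun τ ξ => sy D k ξ * F τ ξ) := fun k => hF.mult (mult_sy k)
  choose B hB0 hB using fun k => (hk k).decay 0
  set L0 : ℂ →L[ℝ] (ℝ × E →L[ℝ] ℂ) :=
    ContinuousLinearMap.smulRightL ℝ (ℝ × E) ℂ (ContinuousLinearMap.fst ℝ ℝ E) with hL0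
  set L : Fin 3 → (ℂ →L[ℝ] (ℝ × E →L[ℝ] ℂ)) := fun k =>
    ContinuousLinearMap.smulRightL ℝ (ℝ × E) ℂ ((pj k).comp
      (ContinuousLinearMap.snd ℝ ℝ E)) with hL
  have e : dII D F F' p = ∫ ξ, (L0 (ek D p.2 ξ * F' p.1 ξ)
      + ∑ k, L k (ek D p.2 ξ * (sy D k ξ * F p.1 ξ))) := by
    have i0 := II_integrable (D := D) hF' hp.1 p.2
    have ik := fun k => II_integrable (D := D) (hk k) hp.1 p.2
    rw [integral_add, integral_finsetSum]
    · rw [ContinuousLinearMap.integral_comp_comm _ i0]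
      have : ∀ k : Fin 3, ∫ ξ, L k (ek D p.2 ξ * (sy D k ξ * F p.1 ξ))
          = L k (∫ ξ, (ek D p.2 ξ * (sy D k ξ * F p.1 ξ))) := fun k =>
        ContinuousLinearMap.integral_comp_comm _ (ik k)
      simp_rw [this]
      rfl
    · intro k _
      exact (L k).integrable_comp (ik k)
    · exact L0.integrable_comp i0
    · exact integrable_finsetSum _ fun k _ => (L k).integrable_comp (ik k)
  rw [e]
  unfold II
  refine hasFDerivAt_integral_of_dominated_of_fderiv_le (s := TT ×ˢ (univ : Set E))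
    (F' := fun q ξ => (L0 (ek D q.2 ξ * F' q.1 ξ)
      + ∑ k, L k (ek D q.2 ξ * (sy D k ξ * F q.1 ξ))))
    (bound := fun ξ => (‖L0‖ * C + ∑ k, ‖L k‖ * B k) * pw ξ) hmem ?_ ?_ ?_ ?_ ?_ ?_
  · filter_upwards [hmem] with q hq
    exact (II_integrable hF hq.1 q.2).aestronglyMeasurable
  · exact II_integrable hF hp.1 p.2
  · have i0 := II_integrable (D := D) hF' hp.1 p.2
    have ik := fun k => II_integrable (D := D) (hk k) hp.1 p.2
    exact ((L0.integrable_comp i0).add
      (integrable_finsetSum _ fun k _ => (L k).integrable_comp (ik k))).aestronglyMeasurable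
  · refine Filter.Eventually.of_forall fun ξ q hq => ?_
    have h1 := norm_le_pw_of_decay 0 (hC q.1 hq.1 ξ)
    calc ‖L0 (ek D q.2 ξ * F' q.1 ξ) + ∑ k, L k (ek D q.2 ξ * (sy D k ξ * F q.1 ξ))‖
        ≤ ‖L0 (ek D q.2 ξ * F' q.1 ξ)‖ + ∑ k, ‖L k (ek D q.2 ξ * (sy D k ξ * F q.1 ξ))‖ :=
          (norm_add_le _ _).trans (add_le_add le_rfl (norm_sum_le _ _))
      _ ≤ ‖L0‖ * (C * pw ξ) + ∑ k, ‖L k‖ * (B k * pw ξ) := by
          refine add_le_add ?_ (Finset.sum_le_sum fun k _ => ?_)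
          · refine (L0.le_opNorm _).trans ?_
            rw [norm_mul, norm_ek, one_mul]
            exact mul_le_mul_of_nonneg_left h1 (norm_nonneg _)
          · refine ((L k).le_opNorm _).trans ?_
            rw [norm_mul (ek D q.2 ξ), norm_ek, one_mul]
            exact mul_le_mul_of_nonneg_left
              (norm_le_pw_of_decay (f := fun ξ => sy D k ξ * F q.1 ξ) 0 (hB k q.1 hq.1 ξ))
              (norm_nonneg _)
      _ = _ := by rw [add_mul, Finset.sum_mul]; simp only [mul_assoc]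
  · exact integrable_pw.const_mul _
  · refine Filter.Eventually.of_forall fun ξ q hq => ?_
    have h1 : HasFDerivAt (fun q : ℝ × E => ek D q.2 ξ)
        ((∑ k : Fin 3, (pj k).smulRight
          (sy D k ξ * ek D q.2 ξ)).comp (ContinuousLinearMap.snd ℝ ℝ E)) q :=
      (hasFDerivAt_ek q.2 ξ).comp q hasFDerivAt_snd
    have h2 : HasFDerivAt (fun q : ℝ × E => F q.1 ξ)
        (((1 : ℝ →L[ℝ] ℝ).smulRight (F' q.1 ξ)).comp (ContinuousLinearMap.fst ℝ ℝ E)) q :=
      (hd q.1 hq.1 ξ).hasFDerivAt.comp q hasFDerivAt_fst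
    refine (h1.mul h2).congr_fderiv ?_
    apply ContinuousLinearMap.ext
    rintro ⟨a, b⟩
    simp only [hL0, hL, _root_.add_apply, _root_.smul_apply,
      ContinuousLinearMap.comp_apply, _root_.sum_apply,
      ContinuousLinearMap.smulRight_apply, ContinuousLinearMap.smulRightL_apply_apply,
      ContinuousLinearMap.coe_fst', ContinuousLinearMap.coe_snd', smul_eq_mul,
      pj_apply, one_apply_eq_self, Complex.real_smul]
    rw [Finset.mul_sum]
    congr 1
    · ring
    · refine Finset.sum_congr rfl fun k _ => ?_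
      ring

/-- main regularity statement for the synthesis operator -/
theorem contDiffOn_II {n : ℕ} : ∀ {F : ℝ → E → ℂ}, Sm n F →
    ContDiffOn ℝ n (II D F) (TT ×ˢ univ) := by
  have hopen : IsOpen (TT ×ˢ (univ : Set E)) := isOpen_Ioo.prod isOpen_univ
  induction n with
  | zero =>
    intro F hF
    rw [Nat.cast_zero, contDiffOn_zero]
    exact continuousOn_II hF
  | succ n ih =>
    intro F hF
    have hFn := hF.pred
    obtain ⟨hF0, F', hF', hd⟩ := hF
    rw [Nat.cast_succ, contDiffOn_succ_iff_fderiv_of_isOpen hopen]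
    have hder : ∀ p ∈ TT ×ˢ (univ : Set E), HasFDerivAt (II D F) (dII D F F' p) p :=
      fun p hp => hasFDerivAt_II hF0 hF'.sm0 hd hp
    refine ⟨fun p hp => (hder p hp).differentiableAt.differentiableWithinAt, ?_, ?_⟩
    · intro h; exact absurd h (by exact_mod_cast (WithTop.coe_ne_top))
    · refine ContDiffOn.congr (f := dII D F F') ?_ (fun p hp => (hder p hp).fderiv)
      unfold dII
      refine ContDiffOn.add (contDiffOn_const.smulRight (ih hF')) ?_
      refine ContDiffOn.sum fun k _ => ?_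
      exact contDiffOn_const.smulRight (ih (hFn.mult (mult_sy k)))

end Pool.Agent.Helper39.NS
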