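import Pool.Agent.Helper39.NS.Phys

set_option autoImplicit false

open MeasureTheory Real Set

namespace Pool.Agent.Helper39.NS

variable {D : E →L[ℝ] E}

/-- the velocity field -/
noncomputable def vel (D : E →L[ℝ] E) (F : Fin 3 → ℝ → E → ℂ) (t : ℝ) (x : E) : E :=
  WithLp.toLp 2 (fun i => (II D (F i) (t + 1, x)).re)

/-- the pressure -/
noncomputable def prs (D : E →L[ℝ] E) (F : Fin 3 → ℝ → E → ℂ) (t : ℝ) (x : E) : ℝ :=
  (II D (PP D F) (t + 1, x)).re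

lemma vel_apply (F : Fin 3 → ℝ → E → ℂ) (t : ℝ) (x : E) (i : Fin 3) :
    vel D F t x i = (II D (F i) (t + 1, x)).re := rfl

lemma hasFDerivAt_vec {G : Type*} [NormedAddCommGroup G] [NormedSpace ℝ G] {f : G → E}
    {f' : G →L[ℝ] E} {x : G}
    (h : ∀ i, HasFDerivAt (fun y => f y i) ((pj i).comp f') x) : HasFDerivAt f f' x := by
  rw [← hasFDerivWithinAt_univ, hasFDerivWithinAt_euclidean]
  intro i
  rw [hasFDerivWithinAt_univ]
  exact h i

lemma hasDerivAt_vec {f : ℝ → E} {f' : E} {t : ℝ}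
    (h : ∀ i, HasDerivAt (fun y => f y i) (f' i) t) : HasDerivAt f f' t := by
  rw [hasDerivAt_iff_hasFDerivAt]
  apply hasFDerivAt_vec
  intro i
  have := (h i).hasFDerivAt
  refine this.congr_fderiv ?_
  ext
  simp

lemma shift_mem {s : ℝ} (hs : s ∈ Ioo (-1:ℝ) 0) : s + 1 ∈ TT := ⟨by linarith [hs.1], by linarith [hs.2]⟩

lemma inner_basis (g : E) (i : Fin 3) :
    inner ℝ g (EuclideanSpace.basisFun (Fin 3) ℝ i) = g i := by
  simp [EuclideanSpace.inner_single_right]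

lemma basis_inner (g : E) (i : Fin 3) :
    inner ℝ (EuclideanSpace.basisFun (Fin 3) ℝ i) g = g i := by
  simp [EuclideanSpace.inner_single_left]

/-- a family of symbols as a vector field -/
noncomputable def vc (D : E →L[ℝ] E) (G : Fin 3 → ℝ → E → ℂ) (p : ℝ × E) : E :=
  WithLp.toLp 2 (fun i => (II D (G i) p).re)

lemma vc_apply (G : Fin 3 → ℝ → E → ℂ) (p : ℝ × E) (i : Fin 3) :
    vc D G p i = (II D (G i) p).re := rfl

lemma vel_eq_vc (F : Fin 3 → ℝ → E → ℂ) (t : ℝ) (x : E) : vel D F t x = vc D F (t + 1, x) := rfl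

lemma hasFDerivAt_vc {G : Fin 3 → ℝ → E → ℂ} (hG : ∀ i, Sm 1 (G i)) {τ : ℝ} (hτ : τ ∈ TT) (x : E) :
    HasFDerivAt (fun x => vc D G (τ, x))
      (∑ k : Fin 3, (pj k).smulRight (vc D (fun i τ ξ => sy D k ξ * G i τ ξ) (τ, x))) x := by
  apply hasFDerivAt_vec
  intro i
  have h := hasFDerivAt_II_space (D := D) (hG i) hτ x
  have h2 := Complex.reCLM.hasFDerivAt.comp x h
  refine (h2.congr_fderiv ?_)
  ext b
  simp [sum_apply, vc_apply]

lemma hasFDerivAt_re_II {G : ℝ → E → ℂ} (hG : Sm 1 G) {τ : ℝ} (hτ : τ ∈ TT) (x : E) :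
    HasFDerivAt (fun x => (II D G (τ, x)).re)
      (∑ k : Fin 3, (II D (fun τ ξ => sy D k ξ * G τ ξ) (τ, x)).re • (pj k)) x := by
  have h := hasFDerivAt_II_space (D := D) hG hτ x
  have h2 := Complex.reCLM.hasFDerivAt.comp x h
  refine (h2.congr_fderiv ?_)
  ext b
  simp [sum_apply, mul_comm]

lemma contDiffOn_shift_II {G : ℝ → E → ℂ} (hG : ∀ n, Sm n G) :
    ContDiffOn ℝ (⊤ : ℕ∞) (fun p : ℝ × E => (II D G (p.1 + 1, p.2)).re)
      (Ioo (-1:ℝ) 0 ×ˢ univ) := by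
  have h1 : ContDiffOn ℝ (⊤ : ℕ∞) (II D G) (TT ×ˢ (univ : Set E)) :=
    contDiffOn_infty.mpr fun n => contDiffOn_II (hG n)
  have h2 : ContDiffOn ℝ (⊤ : ℕ∞) (fun p : ℝ × E => (p.1 + 1, p.2)) (Ioo (-1:ℝ) 0 ×ˢ univ) := by
    apply ContDiff.contDiffOn
    fun_prop
  have h3 := h1.comp h2 (fun p hp => ⟨shift_mem hp.1, mem_univ _⟩)
  exact Complex.reCLM.contDiff.comp_contDiffOn h3

theorem contDiffOn_vel {F : Fin 3 → ℝ → E → ℂ} (hF : ∀ n i, Sm n (F i)) :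
    ContDiffOn ℝ (⊤ : ℕ∞) (Function.uncurry (vel D F)) (Ioo (-1:ℝ) 0 ×ˢ univ) := by
  rw [contDiffOn_euclidean]
  intro i
  exact contDiffOn_shift_II fun n => hF n i

theorem contDiffOn_prs {F : Fin 3 → ℝ → E → ℂ} (hF : ∀ n i, Sm n (F i)) :
    ContDiffOn ℝ (⊤ : ℕ∞) (Function.uncurry (prs D F)) (Ioo (-1:ℝ) 0 ×ˢ univ) :=
  contDiffOn_shift_II fun n => Sm_PP (hF n)

variable {U0 : Fin 3 → E → ℂ} {F : Fin 3 → ℝ → E → ℂ} {B : ℝ}

lemma sum_sy_sq (ξ : E) : ∑ k : Fin 3, sy D k ξ * sy D k ξ = -((la D ξ : ℝ) : ℂ) := by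
  have hs : ∑ i : Fin 3, (D ξ) i * (D ξ) i = ‖D ξ‖ ^ 2 := by
    rw [EuclideanSpace.norm_sq_eq]
    refine Finset.sum_congr rfl fun i _ => ?_
    rw [Real.norm_eq_abs, sq_abs]; ring
  unfold sy la
  have : ∀ k : Fin 3, ((-2 * π * (D ξ) k : ℝ) : ℂ) * Complex.I *
      (((-2 * π * (D ξ) k : ℝ) : ℂ) * Complex.I)
      = -(4 * π ^ 2 : ℂ) * (((D ξ) k * (D ξ) k : ℝ) : ℂ) := by
    intro k
    push_cast
    linear_combination (4 * (π:ℂ) ^ 2 * ((D ξ) k : ℂ) * ((D ξ) k : ℂ)) * Complex.I_mul_I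
  simp_rw [this]
  rw [← Finset.mul_sum, ← Complex.ofReal_sum, hs]
  push_cast
  ring

/-- complex form of the equation -/
lemma Mild.complex_eqn (h : Mild D U0 F B) (i : Fin 3) {p : ℝ × E}
    (hp : p ∈ TT ×ˢ (univ : Set E)) :
    II D (fun τ ξ => -((la D ξ : ℝ) : ℂ) * F i τ ξ + NN D F F i τ ξ) p
      = ∑ k : Fin 3, II D (fun τ ξ => sy D k ξ * (sy D k ξ * F i τ ξ)) p
        - ∑ k : Fin 3, II D (F k) p * II D (fun τ ξ => sy D k ξ * F i τ ξ) p
        - II D (fun τ ξ => sy D i ξ * PP D F τ ξ) p := by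
  have hs : ∀ i, Sm0 (F i) := h.sm0
  have hk : ∀ k, Sm0 (fun τ ξ => sy D k ξ * F i τ ξ) := fun k => (hs i).mult (mult_sy k)
  have hkk : ∀ k, Sm0 (fun τ ξ => sy D k ξ * (sy D k ξ * F i τ ξ)) := fun k =>
    (hk k).mult (mult_sy k)
  have hc : ∀ k, Sm0 (fun τ ξ => cv (F k τ) (fun η => sy D k η * F i τ η) ξ) := fun k =>
    (hs k).cv (hk k)
  have hP : Sm0 (PP D F) := Sm_PP (n := 0) hs
  have hPi : Sm0 (fun τ ξ => sy D i ξ * PP D F τ ξ) := hP.mult (mult_sy i)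
  have hsum1 : Sm0 (fun τ ξ => ∑ k : Fin 3, sy D k ξ * (sy D k ξ * F i τ ξ)) :=
    Sm.sum (n := 0) _ fun k _ => hkk k
  have hsum2 : Sm0 (fun τ ξ => ∑ k : Fin 3, cv (F k τ) (fun η => sy D k η * F i τ η) ξ) :=
    Sm.sum (n := 0) _ fun k _ => hc k
  have hsum2' : Sm0 (fun τ ξ => (-1) * ∑ k : Fin 3, cv (F k τ) (fun η => sy D k η * F i τ η) ξ) :=
    hsum2.mult (Mult.const (-1))
  have hPi' : Sm0 (fun τ ξ => (-1) * (sy D i ξ * PP D F τ ξ)) := hPi.mult (Mult.const (-1))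
  have e1 : II D (fun τ ξ => -((la D ξ : ℝ) : ℂ) * F i τ ξ + NN D F F i τ ξ) p
      = II D (fun τ ξ => (∑ k : Fin 3, sy D k ξ * (sy D k ξ * F i τ ξ)) +
        ((-1) * (∑ k : Fin 3, cv (F k τ) (fun η => sy D k η * F i τ η) ξ)
          + (-1) * (sy D i ξ * PP D F τ ξ))) p := by
    apply II_congr
    intro ξ
    rw [NN_eq_pressure, sum_sy_cv h hp.1 i ξ]
    have : ∑ k : Fin 3, sy D k ξ * (sy D k ξ * F i p.1 ξ) = -((la D ξ : ℝ) : ℂ) * F i p.1 ξ := by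
      rw [← sum_sy_sq, Finset.sum_mul]
      refine Finset.sum_congr rfl fun k _ => ?_
      ring
    rw [this]
    ring
  rw [e1, II_add hsum1 (Sm0.add hsum2' hPi') hp, II_add hsum2' hPi' hp, II_smul, II_smul,
    II_sum _ hkk hp, II_sum _ hc hp]
  have e2 : ∀ k, II D (fun τ ξ => cv (F k τ) (fun η => sy D k η * F i τ η) ξ) p
      = II D (F k) p * II D (fun τ ξ => sy D k ξ * F i τ ξ) p := fun k =>
    II_cv (hs k) (hk k) hp
  simp_rw [e2]
  ring

/-- the Navier-Stokes equation -/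
theorem Mild.navier_stokes (h : Mild D U0 F B) {s : ℝ} (hs : s ∈ Ioo (-1:ℝ) 0) (x : E) :
    deriv (fun τ => vel D F τ x) s + fderiv ℝ (vel D F s) x (vel D F s x)
        - ∑ i : Fin 3, fderiv ℝ (fun y => fderiv ℝ (vel D F s) y
            (EuclideanSpace.basisFun (Fin 3) ℝ i)) x (EuclideanSpace.basisFun (Fin 3) ℝ i)
        + gradient (prs D F s) x = 0 := by
  have hτ := shift_mem hs
  set τ := s + 1 with hτdef
  have hmem : ((τ, x) : ℝ × E) ∈ TT ×ˢ (univ : Set E) := ⟨hτ, mem_univ _⟩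
  have hsm : ∀ n i, Sm n (F i) := fun n i => h.sm n i
  -- time derivative
  have hd1 : HasDerivAt (fun t => vel D F t x)
      (vc D (fun i τ ξ => -((la D ξ : ℝ) : ℂ) * F i τ ξ + NN D F F i τ ξ) (τ, x)) s := by
    apply hasDerivAt_vec
    intro i
    have hF' : Sm0 (fun τ ξ => -((la D ξ : ℝ) : ℂ) * F i τ ξ + NN D F F i τ ξ) := by
      refine Sm0.add ?_ (Sm_NN (n := 0) h.sm0 h.sm0 i)
      have := ((h.sm0 i).mult (mult_la (D := D))).mult (Mult.const (-1))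
      convert this using 3
      ring
    have h1 := hasDerivAt_II_time (D := D) (h.sm0 i) hF' (fun τ hτ ξ => h.hasDerivAt i hτ ξ) hτ x
    have h2 : HasDerivAt (fun t : ℝ => t + 1) 1 s := (hasDerivAt_id s).add_const 1
    have h3 := HasDerivAt.scomp s h1 h2
    have h4 := (Complex.reCLM.hasFDerivAt.comp_hasDerivAt s h3)
    refine h4.congr_deriv ?_
    simp [vc_apply]
  -- space derivative
  have hd2 : ∀ y, HasFDerivAt (vel D F s)
      (∑ k : Fin 3, (pj k).smulRight (vc D (fun i τ ξ => sy D k ξ * F i τ ξ) (τ, y))) y :=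
    fun y => hasFDerivAt_vc (fun i => hsm 1 i) hτ y
  have hd2' : ∀ k : Fin 3, (fun y => fderiv ℝ (vel D F s) y (EuclideanSpace.basisFun (Fin 3) ℝ k))
      = fun y => vc D (fun i τ ξ => sy D k ξ * F i τ ξ) (τ, y) := by
    intro k
    funext y
    rw [(hd2 y).fderiv]
    simp [sum_apply]
  have hd3 : ∀ k : Fin 3, fderiv ℝ (fun y => fderiv ℝ (vel D F s) y
      (EuclideanSpace.basisFun (Fin 3) ℝ k)) x (EuclideanSpace.basisFun (Fin 3) ℝ k)
      = vc D (fun i τ ξ => sy D k ξ * (sy D k ξ * F i τ ξ)) (τ, x) := by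
    intro k
    rw [hd2' k]
    have := hasFDerivAt_vc (D := D) (G := fun i τ ξ => sy D k ξ * F i τ ξ)
      (fun i => (hsm 1 i).mult (mult_sy k)) hτ x
    rw [this.fderiv]
    simp [sum_apply]
  have hd4 : ∀ i : Fin 3, gradient (prs D F s) x i
      = (II D (fun τ ξ => sy D i ξ * PP D F τ ξ) (τ, x)).re := by
    intro i
    have hP : Sm 1 (PP D F) := Sm_PP (hsm 1)
    have h1 : HasFDerivAt (prs D F s) _ x := hasFDerivAt_re_II (D := D) hP hτ x
    have h2 : inner ℝ (gradient (prs D F s) x) (EuclideanSpace.basisFun (Fin 3) ℝ i)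
        = fderiv ℝ (prs D F s) x (EuclideanSpace.basisFun (Fin 3) ℝ i) := by
      rw [← toDual_gradient]
      simp
    rw [h1.fderiv, inner_basis] at h2
    rw [h2]
    simp [sum_apply]
  rw [hd1.deriv]
  simp_rw [hd3]
  ext i
  have hce := h.complex_eqn i hmem
  have hre := congrArg Complex.re hce
  have him1 : ∀ k, (II D (F k) (τ, x)).im = 0 := fun k => II_real (h.conj k τ)
  simp only [Complex.sub_re, Complex.re_sum, Complex.mul_re, him1, zero_mul, sub_zero] at hre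
  simp only [PiLp.add_apply, PiLp.sub_apply, PiLp.zero_apply, hd4, vc_apply]
  rw [hre, (hd2 x).fderiv]
  simp [sum_apply, vc_apply, vel_apply, ← hτdef]
  ring

/-- incompressibility -/
theorem Mild.incompressible (h : Mild D U0 F B) {s : ℝ} (hs : s ∈ Ioo (-1:ℝ) 0) (x : E) :
    LinearMap.trace ℝ E (fderiv ℝ (vel D F s) x).toLinearMap = 0 := by
  have hτ := shift_mem hs
  have hmem : ((s + 1, x) : ℝ × E) ∈ TT ×ˢ (univ : Set E) := ⟨hτ, mem_univ _⟩
  have hd2 : HasFDerivAt (vel D F s)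
      (∑ k : Fin 3, (pj k).smulRight (vc D (fun i τ ξ => sy D k ξ * F i τ ξ) (s + 1, x))) x :=
    hasFDerivAt_vc (fun i => h.sm 1 i) hτ x
  rw [hd2.fderiv, LinearMap.trace_eq_sum_inner _ (EuclideanSpace.basisFun (Fin 3) ℝ)]
  have hsum : ∑ i : Fin 3, II D (fun τ ξ => sy D i ξ * F i τ ξ) (s + 1, x) = 0 := by
    rw [← II_sum _ (fun i => (h.sm0 i).mult (mult_sy i)) hmem]
    unfold II
    have : ∀ ξ, ∑ i : Fin 3, sy D i ξ * F i (s + 1) ξ = 0 := fun ξ =>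
      h.div (Ioo_subset_Icc_self hτ) ξ
    simp [this]
  have hre := congrArg Complex.re hsum
  rw [Complex.re_sum, Complex.zero_re] at hre
  rw [← hre]
  refine Finset.sum_congr rfl fun i _ => ?_
  rw [basis_inner]
  simp [sum_apply, vc_apply]

end Pool.Agent.Helper39.NS
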