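import Mathlib

set_option autoImplicit false

open MeasureTheory Real Set

namespace Pool.Agent.Helper39.NS

/-- three dimensional euclidean space -/
abbrev E : Type := EuclideanSpace ℝ (Fin 3)

/-- the weight `exp (-|ξ|) / (1 + |ξ|^2)^2` -/
noncomputable def om (ξ : E) : ℝ := Real.exp (-‖ξ‖) * ((1 + ‖ξ‖ ^ 2) ^ 2)⁻¹

/-- the polynomial part of the weight -/
noncomputable def pw (ξ : E) : ℝ := ((1 + ‖ξ‖ ^ 2) ^ 2)⁻¹

lemma pw_pos (ξ : E) : 0 < pw ξ := by unfold pw; positivity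

lemma om_eq (ξ : E) : om ξ = Real.exp (-‖ξ‖) * pw ξ := rfl

lemma om_pos (ξ : E) : 0 < om ξ := by unfold om; positivity

lemma om_neg (ξ : E) : om (-ξ) = om ξ := by simp [om]

lemma continuous_pw : Continuous pw := by
  unfold pw
  refine Continuous.inv₀ (by fun_prop) ?_
  intro ξ; positivity

lemma continuous_om : Continuous om := by
  have h := continuous_pw
  have : om = fun ξ => Real.exp (-‖ξ‖) * pw ξ := rfl
  rw [this]
  fun_prop

lemma pw_le_one (ξ : E) : pw ξ ≤ 1 := by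
  unfold pw
  apply inv_le_one_of_one_le₀
  nlinarith [sq_nonneg ‖ξ‖, sq_nonneg (‖ξ‖^2)]

lemma om_le_pw (ξ : E) : om ξ ≤ pw ξ := by
  rw [om_eq]
  have h1 : Real.exp (-‖ξ‖) ≤ 1 := by
    rw [Real.exp_le_one_iff]; simp
  have := pw_pos ξ
  nlinarith

lemma om_le_one (ξ : E) : om ξ ≤ 1 := (om_le_pw ξ).trans (pw_le_one ξ)

lemma integrable_pw : Integrable pw := by
  have h := integrable_rpow_neg_one_add_norm_sq (E := E) (μ := volume) (r := 4) (by
    simp; norm_num)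
  refine h.congr (Filter.Eventually.of_forall fun ξ => ?_)
  simp only [pw]
  rw [show (-4/2 : ℝ) = -((2:ℕ):ℝ) by norm_num, Real.rpow_neg (by positivity), Real.rpow_natCast]

lemma integrable_om : Integrable om := by
  refine integrable_pw.mono' continuous_om.aestronglyMeasurable (Filter.Eventually.of_forall fun ξ => ?_)
  rw [Real.norm_of_nonneg (om_pos ξ).le]
  exact om_le_pw ξ

/-- the constant in `om * om ≤ C0 • om` -/
noncomputable def C0 : ℝ := 16 * ∫ ξ, pw ξ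

lemma integral_pw_nonneg : 0 ≤ ∫ ξ, pw ξ := integral_nonneg fun ξ => (pw_pos ξ).le

lemma C0_nonneg : 0 ≤ C0 := by
  unfold C0
  have := integral_pw_nonneg
  positivity

lemma pw_mul_le (ξ η : E) : pw (ξ - η) * pw η ≤ 8 * pw ξ * (pw (ξ - η) + pw η) := by
  set a := 1 + ‖ξ - η‖ ^ 2 with ha
  set b := 1 + ‖η‖ ^ 2 with hb
  set c := 1 + ‖ξ‖ ^ 2 with hc
  have ha0 : 1 ≤ a := by rw [ha]; nlinarith [sq_nonneg ‖ξ - η‖]
  have hb0 : 1 ≤ b := by rw [hb]; nlinarith [sq_nonneg ‖η‖]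
  have hc0 : 1 ≤ c := by rw [hc]; nlinarith [sq_nonneg ‖ξ‖]
  have hcab : c ≤ 2 * (a + b) := by
    have h1 : ‖ξ‖ ≤ ‖ξ - η‖ + ‖η‖ := by
      calc ‖ξ‖ = ‖(ξ - η) + η‖ := by simp
        _ ≤ _ := norm_add_le _ _
    have h2 : ‖ξ‖ ^ 2 ≤ 2 * ‖ξ - η‖ ^ 2 + 2 * ‖η‖ ^ 2 := by
      nlinarith [sq_nonneg (‖ξ - η‖ - ‖η‖), norm_nonneg ξ, norm_nonneg (ξ - η), norm_nonneg η]
    rw [ha, hb, hc]; nlinarith
  have hc2 : c ^ 2 ≤ 8 * (a ^ 2 + b ^ 2) := by
    nlinarith [sq_nonneg (a - b)]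
  have e1 : pw (ξ - η) = (a ^ 2)⁻¹ := rfl
  have e2 : pw η = (b ^ 2)⁻¹ := rfl
  have e3 : pw ξ = (c ^ 2)⁻¹ := rfl
  rw [e1, e2, e3]
  have hapos : 0 < a := by linarith
  have hbpos : 0 < b := by linarith
  have hcpos : 0 < c := by linarith
  rw [← sub_nonneg]
  have : 8 * (c ^ 2)⁻¹ * ((a ^ 2)⁻¹ + (b ^ 2)⁻¹) - (a ^ 2)⁻¹ * (b ^ 2)⁻¹
      = (8 * (a ^ 2 + b ^ 2) - c ^ 2) * ((a ^ 2)⁻¹ * (b ^ 2)⁻¹ * (c ^ 2)⁻¹) := by
    field_simp
    ring
  rw [this]
  have : 0 ≤ 8 * (a ^ 2 + b ^ 2) - c ^ 2 := by linarith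
  positivity

lemma om_mul_le (ξ η : E) : om (ξ - η) * om η ≤ om ξ * (8 * (pw (ξ - η) + pw η)) := by
  have h1 : Real.exp (-‖ξ - η‖) * Real.exp (-‖η‖) ≤ Real.exp (-‖ξ‖) := by
    rw [← Real.exp_add]
    apply Real.exp_le_exp.mpr
    have h1 : ‖ξ‖ ≤ ‖ξ - η‖ + ‖η‖ := by
      calc ‖ξ‖ = ‖(ξ - η) + η‖ := by simp
        _ ≤ _ := norm_add_le _ _
    linarith
  have h2 := pw_mul_le ξ η
  rw [om_eq, om_eq, om_eq]
  have p1 := pw_pos (ξ - η)
  have p2 := pw_pos η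
  have p3 := pw_pos ξ
  calc Real.exp (-‖ξ - η‖) * pw (ξ - η) * (Real.exp (-‖η‖) * pw η)
      = (Real.exp (-‖ξ - η‖) * Real.exp (-‖η‖)) * (pw (ξ - η) * pw η) := by ring
    _ ≤ Real.exp (-‖ξ‖) * (8 * pw ξ * (pw (ξ - η) + pw η)) := by
        apply mul_le_mul h1 h2 (by positivity) (by positivity)
    _ = _ := by ring

lemma integrable_pw_sub (ξ : E) : Integrable fun η => pw (ξ - η) :=
  integrable_pw.comp_sub_left ξ

lemma integral_pw_sub (ξ : E) : ∫ η, pw (ξ - η) = ∫ η, pw η :=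
  integral_sub_left_eq_self pw volume ξ

lemma integral_om_conv_le (ξ : E) : ∫ η, om (ξ - η) * om η ≤ C0 * om ξ := by
  have hint : Integrable fun η => om ξ * (8 * (pw (ξ - η) + pw η)) :=
    (((integrable_pw_sub ξ).add integrable_pw).const_mul 8).const_mul _
  calc ∫ η, om (ξ - η) * om η ≤ ∫ η, om ξ * (8 * (pw (ξ - η) + pw η)) := by
        apply integral_mono_of_nonneg
        · exact Filter.Eventually.of_forall fun η => by
            have := om_pos (ξ - η); have := om_pos η; positivity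
        · exact hint
        · exact Filter.Eventually.of_forall fun η => om_mul_le ξ η
    _ = C0 * om ξ := by
        rw [integral_const_mul, integral_const_mul,
          integral_add (integrable_pw_sub ξ) integrable_pw, integral_pw_sub, C0]
        ring

/-- rapid decay of the weight -/
lemma om_rapid (m : ℕ) (ξ : E) : (1 + ‖ξ‖) ^ m * om ξ ≤ (m.factorial : ℝ) * Real.exp 1 * pw ξ := by
  rw [om_eq]
  have h := Real.pow_div_factorial_le_exp (1 + ‖ξ‖) (by positivity) m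
  have hm : (0:ℝ) < (m.factorial : ℝ) := by positivity
  have h' : (1 + ‖ξ‖) ^ m ≤ (m.factorial : ℝ) * Real.exp (1 + ‖ξ‖) := by
    rw [div_le_iff₀ hm] at h; linarith
  have hp := pw_pos ξ
  calc (1 + ‖ξ‖) ^ m * (Real.exp (-‖ξ‖) * pw ξ)
      ≤ ((m.factorial : ℝ) * Real.exp (1 + ‖ξ‖)) * (Real.exp (-‖ξ‖) * pw ξ) := by
        apply mul_le_mul_of_nonneg_right h' (by positivity)
    _ = (m.factorial : ℝ) * (Real.exp (1 + ‖ξ‖) * Real.exp (-‖ξ‖)) * pw ξ := by ring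
    _ = _ := by rw [← Real.exp_add]; ring_nf

end Pool.Agent.Helper39.NS
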